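import Mathlib

open Real MeasureTheory intervalIntegral Set

namespace Run7.h998.EL

/-- mean over a period -/
noncomputable def mean (F : ℝ → ℂ) : ℂ := ((2 * π : ℝ) : ℂ)⁻¹ * ∫ x in (0 : ℝ)..(2 * π), F x

lemma two_pi_ne : ((2 * π : ℝ) : ℂ) ≠ 0 := by
  exact_mod_cast (by positivity : (2 * π : ℝ) ≠ 0)

lemma int_shift {F : ℝ → ℂ} (hper : ∀ x, F (x + 2 * π) = F x) (x : ℝ) :
    ∫ s in x..(x + 2 * π), F s = ∫ s in (0 : ℝ)..(2 * π), F s := by
  have h : Function.Periodic F (2 * π) := hper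
  have := h.intervalIntegral_add_eq x 0
  simpa using this

lemma int_shiftR {F : ℝ → ℝ} (hper : ∀ x, F (x + 2 * π) = F x) (x : ℝ) :
    ∫ s in x..(x + 2 * π), F s = ∫ s in (0 : ℝ)..(2 * π), F s := by
  have h : Function.Periodic F (2 * π) := hper
  have := h.intervalIntegral_add_eq x 0
  simpa using this

lemma per_deriv {F F' : ℝ → ℂ} (hper : ∀ x, F (x + 2 * π) = F x)
    (hd : ∀ x, HasDerivAt F (F' x) x) (x : ℝ) : F' (x + 2 * π) = F' x := by
  have h1 : HasDerivAt (fun y => F (y + 2 * π)) (F' (x + 2 * π)) x := by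
    have := (hd (x + 2 * π)).comp_add_const x (2 * π)
    simpa using this
  have h2 : (fun y => F (y + 2 * π)) = F := by
    funext y; exact hper y
  rw [h2] at h1
  exact h1.unique (hd x)

lemma osc {F F' : ℝ → ℂ} (hper : ∀ x, F (x + 2 * π) = F x) (hd : ∀ x, HasDerivAt F (F' x) x)
    (hc : Continuous F') (x : ℝ) : ‖F x - mean F‖ ≤ ∫ s in (0 : ℝ)..(2 * π), ‖F' s‖ := by
  have hFc : Continuous F := continuous_iff_continuousAt.2 fun y => (hd y).continuousAt
  have hper' : ∀ x, F' (x + 2 * π) = F' x := per_deriv hper hd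
  have hM : ∀ y ∈ Icc x (x + 2 * π), ‖F x - F y‖ ≤ ∫ s in (0 : ℝ)..(2 * π), ‖F' s‖ := by
    intro y hy
    have h1 : ∫ s in x..y, F' s = F y - F x :=
      integral_eq_sub_of_hasDerivAt (fun s _ => hd s) (hc.intervalIntegrable _ _)
    rw [norm_sub_rev, ← h1]
    calc ‖∫ s in x..y, F' s‖ ≤ ∫ s in x..y, ‖F' s‖ := norm_integral_le_integral_norm hy.1
      _ ≤ ∫ s in x..(x + 2 * π), ‖F' s‖ := by
        apply integral_mono_interval le_rfl hy.1 hy.2
        · exact Filter.Eventually.of_forall fun s => norm_nonneg _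
        · exact hc.norm.intervalIntegrable _ _
      _ = _ := int_shiftR (F := fun s => ‖F' s‖) (fun s => by simp [hper' s]) x
  have h2 : F x - mean F = ((2 * π : ℝ) : ℂ)⁻¹ * ∫ s in x..(x + 2 * π), (F x - F s) := by
    rw [integral_sub (by simp) (hFc.intervalIntegrable _ _), int_shift hper x]
    simp only [intervalIntegral.integral_const, mean]
    have := two_pi_ne
    rw [mul_sub, show x + 2 * π - x = 2 * π by ring]
    simp only [Complex.real_smul]
    field_simp
  rw [h2, norm_mul]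
  have h3 : ‖∫ s in x..(x + 2 * π), (F x - F s)‖ ≤
      (∫ s in (0 : ℝ)..(2 * π), ‖F' s‖) * |x + 2 * π - x| := by
    apply intervalIntegral.norm_integral_le_of_norm_le_const
    intro y hy
    rw [uIoc_of_le (by linarith [pi_pos])] at hy
    exact hM y ⟨hy.1.le, hy.2⟩
  have h4 : ‖((2 * π : ℝ) : ℂ)⁻¹‖ = (2 * π)⁻¹ := by
    rw [norm_inv, Complex.norm_real, Real.norm_of_nonneg (by positivity)]
  rw [h4]
  rw [show x + 2 * π - x = 2 * π by ring, abs_of_pos (by positivity)] at h3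
  calc (2 * π)⁻¹ * ‖∫ s in x..(x + 2 * π), (F x - F s)‖
      ≤ (2 * π)⁻¹ * ((∫ s in (0 : ℝ)..(2 * π), ‖F' s‖) * (2 * π)) := by gcongr
    _ = _ := by field_simp

/-- a continuous periodic function attains its sup norm -/
lemma exists_max {F : ℝ → ℂ} (hper : ∀ x, F (x + 2 * π) = F x) (hc : Continuous F) :
    ∃ x0, ∀ x, ‖F x‖ ≤ ‖F x0‖ := by
  obtain ⟨x0, _, h⟩ := (isCompact_Icc (a := (0 : ℝ)) (b := 2 * π)).exists_isMaxOn
    ⟨0, by simp [pi_pos.le]⟩ (hc.norm.continuousOn)
  refine ⟨x0, fun x => ?_⟩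
  have hP : Function.Periodic F (2 * π) := hper
  obtain ⟨y, hy, hxy⟩ := hP.exists_mem_Ico₀ (by positivity : (0 : ℝ) < 2 * π) x
  rw [hxy]
  exact h ⟨hy.1, hy.2.le⟩

lemma mean_norm_le {f : ℝ → ℂ} : ‖mean f‖ ≤ (2 * π)⁻¹ * ∫ s in (0 : ℝ)..(2 * π), ‖f s‖ := by
  unfold mean
  rw [norm_mul, norm_inv, Complex.norm_real, Real.norm_of_nonneg (by positivity)]
  gcongr
  exact norm_integral_le_integral_norm (by positivity)

/-- `i p <F> = <f>` if `F' + i p F = f`. -/
lemma apri_mean {p : ℝ} {F f : ℝ → ℂ} (hper : ∀ x, F (x + 2 * π) = F x)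
    (hd : ∀ x, HasDerivAt F (f x - Complex.I * p * F x) x) (hf : Continuous f) :
    Complex.I * p * mean F = mean f := by
  have hFc : Continuous F := continuous_iff_continuousAt.2 fun y => (hd y).continuousAt
  have h1 : ∫ s in (0 : ℝ)..(2 * π), (f s - Complex.I * p * F s) = F (2 * π) - F 0 :=
    integral_eq_sub_of_hasDerivAt (fun s _ => hd s)
      ((hf.sub (continuous_const.mul hFc)).intervalIntegrable _ _)
  have h2 : F (2 * π) = F 0 := by simpa using hper 0
  have h3 : ∫ s in (0 : ℝ)..(2 * π), (f s - Complex.I * p * F s) =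
      (∫ s in (0 : ℝ)..(2 * π), f s) - ∫ s in (0 : ℝ)..(2 * π), Complex.I * p * F s :=
    intervalIntegral.integral_sub (hf.intervalIntegrable _ _)
      (Continuous.intervalIntegrable (by fun_prop) _ _)
  rw [h2, sub_self, h3, intervalIntegral.integral_const_mul] at h1
  unfold mean
  rw [sub_eq_zero.1 h1]
  ring

/-- uniform a-priori estimate. -/
lemma apri {p : ℝ} (hp : 0 ≤ p) (hp1 : p ≤ 1 / 13) {F f : ℝ → ℂ}
    (hper : ∀ x, F (x + 2 * π) = F x)
    (hd : ∀ x, HasDerivAt F (f x - Complex.I * p * F x) x) (hf : Continuous f) (x : ℝ) :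
    ‖F x - mean F‖ ≤ 4 * ∫ s in (0 : ℝ)..(2 * π), ‖f s‖ := by
  have hFc : Continuous F := continuous_iff_continuousAt.2 fun y => (hd y).continuousAt
  set m := mean F with hm
  have hG : ∀ x, HasDerivAt (fun x => F x - m) (f x - Complex.I * p * F x) x := fun x => by
    simpa using (hd x).sub_const m
  have hGc : Continuous (fun x => F x - m) := hFc.sub continuous_const
  have hGper : ∀ x, (fun x => F x - m) (x + 2 * π) = (fun x => F x - m) x := fun x => by
    simp [hper x]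
  obtain ⟨x0, hx0⟩ := exists_max hGper hGc
  have hm0 : mean (fun x => F x - m) = 0 := by
    unfold mean
    rw [integral_sub (hFc.intervalIntegrable _ _) (by simp)]
    simp only [intervalIntegral.integral_const, sub_zero]
    rw [hm]; unfold mean
    have := two_pi_ne
    simp only [Complex.real_smul]
    field_simp
    ring
  have h1 := osc hGper hG (hf.sub (continuous_const.mul hFc)) x0
  rw [hm0, sub_zero] at h1
  have hIf : Complex.I * p * m = mean f := apri_mean hper hd hf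
  have h2 : ∫ s in (0 : ℝ)..(2 * π), ‖f s - Complex.I * p * F s‖ ≤
      ∫ s in (0 : ℝ)..(2 * π), (‖f s‖ + ‖mean f‖ + p * ‖F x0 - m‖) := by
    apply integral_mono_on (by positivity)
    · exact ((hf.sub (continuous_const.mul hFc)).norm).intervalIntegrable _ _
    · exact ((hf.norm.add continuous_const).add continuous_const).intervalIntegrable _ _
    · intro s _
      have e : f s - Complex.I * p * F s = f s - mean f - Complex.I * p * (F s - m) := by
        rw [← hIf]; ring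
      rw [e]
      have e2 : ‖Complex.I * p * (F s - m)‖ ≤ p * ‖F x0 - m‖ := by
        rw [norm_mul, norm_mul, Complex.norm_I, Complex.norm_real, Real.norm_of_nonneg hp, one_mul]
        exact mul_le_mul_of_nonneg_left (hx0 s) hp
      calc _ ≤ ‖f s - mean f‖ + ‖Complex.I * p * (F s - m)‖ := norm_sub_le _ _
        _ ≤ (‖f s‖ + ‖mean f‖) + p * ‖F x0 - m‖ := add_le_add (norm_sub_le _ _) e2
  have h3 : ∫ s in (0 : ℝ)..(2 * π), (‖f s‖ + ‖mean f‖ + p * ‖F x0 - m‖) =
      (∫ s in (0 : ℝ)..(2 * π), ‖f s‖) + (2 * π) * ‖mean f‖ + (2 * π) * (p * ‖F x0 - m‖) := by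
    rw [intervalIntegral.integral_add, intervalIntegral.integral_add]
    · simp only [intervalIntegral.integral_const, sub_zero, smul_eq_mul]
    · exact hf.norm.intervalIntegrable _ _
    · simp
    · exact (hf.norm.add continuous_const).intervalIntegrable _ _
    · simp
  have h4 : (2 * π) * ‖mean f‖ ≤ ∫ s in (0 : ℝ)..(2 * π), ‖f s‖ := by
    have := mul_le_mul_of_nonneg_left (mean_norm_le (f := f)) (by positivity : 0 ≤ 2 * π)
    rwa [← mul_assoc, mul_inv_cancel₀ (by positivity), one_mul] at this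
  have h5 : (2 * π) * p ≤ 1 / 2 := by
    have := pi_lt_d2
    nlinarith [pi_pos]
  have h6 : ‖F x0 - m‖ ≤ 2 * (∫ s in (0 : ℝ)..(2 * π), ‖f s‖) + 1 / 2 * ‖F x0 - m‖ := by
    calc ‖F x0 - m‖ ≤ _ := h1
      _ ≤ _ := h2
      _ = _ := h3
      _ ≤ _ := by
        have : (2 * π) * (p * ‖F x0 - m‖) ≤ 1 / 2 * ‖F x0 - m‖ := by
          rw [← mul_assoc]; exact mul_le_mul_of_nonneg_right h5 (norm_nonneg _)
        linarith
  have h7 := hx0 x
  linarith

/-- sup norm version -/
lemma apri_sup {p : ℝ} (hp : 0 ≤ p) (hp1 : p ≤ 1 / 13) {F f : ℝ → ℂ}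
    (hper : ∀ x, F (x + 2 * π) = F x)
    (hd : ∀ x, HasDerivAt F (f x - Complex.I * p * F x) x) (hf : Continuous f)
    {M : ℝ} (hM : ∀ x, ‖f x‖ ≤ M) (x : ℝ) :
    ‖F x - mean F‖ ≤ 26 * M := by
  have h1 := apri hp hp1 hper hd hf x
  have hM0 : 0 ≤ M := (norm_nonneg _).trans (hM 0)
  have h2 : ∫ s in (0 : ℝ)..(2 * π), ‖f s‖ ≤ ∫ s in (0 : ℝ)..(2 * π), M :=
    integral_mono_on (by positivity) (hf.norm.intervalIntegrable _ _) (by simp) fun s _ => hM s
  simp only [intervalIntegral.integral_const, sub_zero, smul_eq_mul] at h2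
  have := pi_lt_d2
  nlinarith [pi_pos]

lemma mean_sup {f : ℝ → ℂ} {M : ℝ} (hM : ∀ x, ‖f x‖ ≤ M) : ‖mean f‖ ≤ M := by
  unfold mean
  rw [norm_mul, norm_inv, Complex.norm_real, Real.norm_of_nonneg (by positivity)]
  have h := intervalIntegral.norm_integral_le_of_norm_le_const (a := 0) (b := 2 * π) (f := f) (C := M)
    (fun x _ => hM x)
  rw [sub_zero, abs_of_pos (by positivity)] at h
  calc (2 * π)⁻¹ * ‖∫ s in (0 : ℝ)..(2 * π), f s‖ ≤ (2 * π)⁻¹ * (M * (2 * π)) := by gcongr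
    _ = M := by field_simp

end Run7.h998.EL
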