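import Mathlib
import Pool.Agent.Run7.h117.Defs
import Pool.Agent.Run7.h998.EL.Base

open Real MeasureTheory intervalIntegral Set

namespace Run7.h998.EL

open Run7.h117

/-- one-variable first-harmonic characterisation -/
lemma harm1 {u : ℝ → ℝ} (hd : ∀ y, HasDerivAt u (u (y + π / 2)) y)
    (hper : ∀ y, u (y + 2 * π) = u y) (y : ℝ) : u y = u 0 * cos y + u (π / 2) * sin y := by
  have shift : ∀ c y : ℝ, HasDerivAt (fun y => u (y + c)) (u (y + c + π / 2)) y := fun c y => by
    simpa using (hd (y + c)).comp_add_const y c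
  -- h y = u y + u (y+π)
  set h : ℝ → ℝ := fun y => u y + u (y + π) with hh
  have hh1 : ∀ y, HasDerivAt h (h (y + π / 2)) y := fun y => by
    have h0 := (hd y).add (shift π y)
    have e : h (y + π / 2) = u (y + π / 2) + u (y + π + π / 2) := by
      show u (y + π / 2) + u (y + π / 2 + π) = _
      rw [show y + π / 2 + π = y + π + π / 2 by ring]
    rw [e]
    exact h0
  have hhπ : ∀ y, h (y + π) = h y := fun y => by
    show u (y + π) + u (y + π + π) = u y + u (y + π)
    rw [show y + π + π = y + 2 * π by ring, hper, add_comm]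
  have hh2 : ∀ y, HasDerivAt (fun y => h (y + π / 2)) (h y) y := fun y => by
    have := (hh1 (y + π / 2)).comp_add_const y (π / 2)
    rw [show y + π / 2 + π / 2 = y + π by ring, hhπ] at this
    exact this
  have hz : ∀ y, h y + h (y + π / 2) = 0 := by
    intro y
    have hd1 : ∀ y, HasDerivAt (fun y => (h y + h (y + π / 2)) * Real.exp (-y)) 0 y := fun y => by
      have h1 := ((hh1 y).add (hh2 y)).mul ((hasDerivAt_neg y).exp)
      refine h1.congr_deriv ?_
      simp only [Pi.add_apply]; ring
    have hc := is_const_of_deriv_eq_zero (fun y => (hd1 y).differentiableAt)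
      (fun y => (hd1 y).deriv) (y + 2 * π) y
    have e1 : h (y + 2 * π) = h y := by
      rw [show y + 2 * π = (y + π) + π by ring, hhπ, hhπ]
    have e2 : h (y + 2 * π + π / 2) = h (y + π / 2) := by
      rw [show y + 2 * π + π / 2 = (y + π / 2 + π) + π by ring, hhπ, hhπ]
    rw [e1, e2] at hc
    have hne : Real.exp (-(y + 2 * π)) ≠ Real.exp (-y) := by
      intro h; have := Real.exp_injective h; have := pi_pos; linarith
    have : (h y + h (y + π / 2)) * (Real.exp (-(y + 2 * π)) - Real.exp (-y)) = 0 := by
      rw [mul_sub, hc, sub_self]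
    rcases mul_eq_zero.1 this with h | h
    · exact h
    · exact absurd (sub_eq_zero.1 h) hne
  have hz0 : ∀ y, h y = 0 := by
    intro y
    have hd1 : ∀ y, HasDerivAt (fun y => h y * Real.exp y) 0 y := fun y => by
      have h1 := (hh1 y).mul (Real.hasDerivAt_exp y)
      refine h1.congr_deriv ?_
      have h2 := hz y
      linear_combination (Real.exp y) * h2
    have hc := is_const_of_deriv_eq_zero (fun y => (hd1 y).differentiableAt)
      (fun y => (hd1 y).deriv) (y + π) y
    rw [hhπ] at hc
    have hne : Real.exp (y + π) ≠ Real.exp y := by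
      intro h; have := Real.exp_injective h; have := pi_pos; linarith
    have : h y * (Real.exp (y + π) - Real.exp y) = 0 := by
      rw [mul_sub, hc, sub_self]
    rcases mul_eq_zero.1 this with h | h
    · exact h
    · exact absurd (sub_eq_zero.1 h) hne
  have hπ : ∀ y, u (y + π) = - u y := fun y => by
    have h0 : u y + u (y + π) = 0 := hz0 y
    linarith
  -- u'' = -u
  have hd2 : ∀ y, HasDerivAt (fun y => u (y + π / 2)) (-u y) y := fun y => by
    have := shift (π / 2) y
    rw [show y + π / 2 + π / 2 = y + π by ring, hπ] at this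
    exact this
  set e : ℝ → ℝ := fun y => u y - (u 0 * cos y + u (π / 2) * sin y) with he
  set e' : ℝ → ℝ := fun y => u (y + π / 2) - (-(u 0 * sin y) + u (π / 2) * cos y) with he'
  have hde : ∀ y, HasDerivAt e (e' y) y := fun y => by
    have h0 := (hd y).sub (((hasDerivAt_cos y).const_mul (u 0)).add
      ((hasDerivAt_sin y).const_mul (u (π / 2))))
    refine h0.congr_deriv ?_
    simp only [he']; ring
  have hde' : ∀ y, HasDerivAt e' (-e y) y := fun y => by
    have h0 := (hd2 y).sub ((((hasDerivAt_sin y).const_mul (u 0)).neg).add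
      ((hasDerivAt_cos y).const_mul (u (π / 2))))
    refine h0.congr_deriv ?_
    simp only [he]; ring
  have hE : ∀ y, HasDerivAt (fun y => e y ^ 2 + e' y ^ 2) 0 y := fun y => by
    have h0 := ((hde y).pow 2).add ((hde' y).pow 2)
    refine h0.congr_deriv ?_
    push_cast; ring
  have hc := is_const_of_deriv_eq_zero (fun y => (hE y).differentiableAt)
      (fun y => (hE y).deriv) y 0
  simp only [he, he'] at hc
  simp only [Real.cos_zero, Real.sin_zero, mul_one, mul_zero, add_zero, sub_self, zero_add,
    neg_zero] at hc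
  have h3 : (u y - (u 0 * cos y + u (π / 2) * sin y)) ^ 2 = 0 := by
    have h4 := sq_nonneg (u (y + π / 2) - (-(u 0 * sin y) + u (π / 2) * cos y))
    have h5 := sq_nonneg (u y - (u 0 * cos y + u (π / 2) * sin y))
    nlinarith
  have h4 := pow_eq_zero_iff (two_ne_zero) |>.1 h3
  linarith

/-- first-harmonic function with coefficients `a`, `c`. -/
noncomputable def tr (a c : ℝ → ℝ) : ℝ → ℝ → ℝ := fun x y => a x * cos y + c x * sin y

lemma dx_tr {a c a' c' : ℝ → ℝ} (ha : ∀ x, HasDerivAt a (a' x) x) (hc : ∀ x, HasDerivAt c (c' x) x) :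
    dx (tr a c) = tr a' c' := by
  funext x y
  have := ((ha x).mul_const (cos y)).add ((hc x).mul_const (sin y))
  exact this.deriv

lemma dy_tr (a c : ℝ → ℝ) : dy (tr a c) = tr c (fun x => - a x) := by
  funext x y
  have := ((hasDerivAt_cos y).const_mul (a x)).add ((hasDerivAt_sin y).const_mul (c x))
  have h2 : dy (tr a c) x y = _ := this.deriv
  rw [h2]; simp only [tr]; ring

lemma DD_tr {p : ℝ} {a c a' c' : ℝ → ℝ} (ha : ∀ x, HasDerivAt a (a' x) x)
    (hc : ∀ x, HasDerivAt c (c' x) x) :
    DD p (tr a c) = tr (fun x => a' x + p * c x) (fun x => c' x - p * a x) := by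
  funext x y
  simp only [DD, dx_tr ha hc, dy_tr, tr]
  ring

lemma tr_inj {a c a' c' : ℝ → ℝ} (h : ∀ x y, tr a c x y = tr a' c' x y) :
    (∀ x, a x = a' x) ∧ (∀ x, c x = c' x) := by
  refine ⟨fun x => ?_, fun x => ?_⟩
  · simpa [tr] using h x 0
  · simpa [tr] using h x (π / 2)

lemma tr_harm (a c : ℝ → ℝ) (x y : ℝ) : tr a c x (y + π / 2) = dy (tr a c) x y := by
  rw [dy_tr]
  simp only [tr, cos_add_pi_div_two, sin_add_pi_div_two]
  ring

lemma harm_tr {f : ℝ → ℝ → ℝ} (hf : ∀ x y, DifferentiableAt ℝ (fun s => f x s) y)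
    (hper : ∀ x y, f x (y + 2 * π) = f x y)
    (hh : ∀ x y, f x (y + π / 2) = dy f x y) :
    f = tr (fun x => f x 0) (fun x => f x (π / 2)) := by
  funext x y
  have := harm1 (u := fun y => f x y) (fun y => by
    have := (hf x y).hasDerivAt
    rw [hh x y]; exact this) (fun y => hper x y) y
  simpa [tr] using this

lemma int_tr_mul (a c a' c' : ℝ → ℝ) (x : ℝ) :
    ∫ y in (0 : ℝ)..(2 * π), tr a c x y * tr a' c' x y = π * (a x * a' x + c x * c' x) := by
  have h1 : ∀ y, tr a c x y * tr a' c' x y =
      (a x * a' x) * cos y ^ 2 + (c x * c' x) * sin y ^ 2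
        + (a x * c' x + c x * a' x) * (sin y * cos y) := fun y => by
    simp only [tr]; ring
  simp_rw [h1]
  rw [intervalIntegral.integral_add, intervalIntegral.integral_add,
    intervalIntegral.integral_const_mul, intervalIntegral.integral_const_mul,
    intervalIntegral.integral_const_mul, integral_cos_sq, integral_sin_sq,
    integral_sin_mul_cos₁]
  · simp; ring
  all_goals exact Continuous.intervalIntegrable (by fun_prop) _ _

end Run7.h998.EL
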