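import Mathlib
import Pool.Agent.Run7.h998.EL.Red

open Real MeasureTheory intervalIntegral Set

namespace Run7.h998.EL

open Run7.h117

noncomputable def ea (x : ℝ) : ℂ := Complex.exp (x * Complex.I)
noncomputable def eb (x : ℝ) : ℂ := Complex.exp (-(x * Complex.I))

lemma ea_eq (x : ℝ) : ea x = (cos x : ℂ) + (sin x : ℂ) * Complex.I := by
  unfold ea; rw [Complex.exp_mul_I]; push_cast; ring

lemma eb_eq (x : ℝ) : eb x = (cos x : ℂ) - (sin x : ℂ) * Complex.I := by
  unfold eb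
  rw [← neg_mul, Complex.exp_mul_I, Complex.cos_neg, Complex.sin_neg]; push_cast; ring

lemma norm_ea (x : ℝ) : ‖ea x‖ = 1 := Complex.norm_exp_ofReal_mul_I x

lemma norm_eb (x : ℝ) : ‖eb x‖ = 1 := by
  unfold eb
  have := Complex.norm_exp_ofReal_mul_I (-x)
  push_cast at this
  rwa [neg_mul] at this

lemma hasDerivAt_ea (x : ℝ) : HasDerivAt ea (Complex.I * ea x) x := by
  have h : HasDerivAt (fun z : ℂ => Complex.exp (z * Complex.I))
      (Complex.exp (x * Complex.I) * (1 * Complex.I)) (x : ℂ) :=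
    ((hasDerivAt_id (x : ℂ)).mul_const Complex.I).cexp
  have := h.comp_ofReal
  refine this.congr_deriv ?_
  unfold ea; ring

lemma hasDerivAt_eb (x : ℝ) : HasDerivAt eb (-Complex.I * eb x) x := by
  have h : HasDerivAt (fun z : ℂ => Complex.exp (-(z * Complex.I)))
      (Complex.exp (-(x * Complex.I)) * (-(1 * Complex.I))) (x : ℂ) :=
    (((hasDerivAt_id (x : ℂ)).mul_const Complex.I).neg).cexp
  have := h.comp_ofReal
  refine this.congr_deriv ?_
  unfold eb; ring

lemma per_ea (x : ℝ) : ea (x + 2 * π) = ea x := by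
  simp only [ea_eq]; rw [cos_add_two_pi, sin_add_two_pi]

lemma per_eb (x : ℝ) : eb (x + 2 * π) = eb x := by
  simp only [eb_eq]; rw [cos_add_two_pi, sin_add_two_pi]

@[fun_prop] lemma cont_ea : Continuous ea := by unfold ea; fun_prop
@[fun_prop] lemma cont_eb : Continuous eb := by unfold eb; fun_prop

/-- `a = -e^{ix} + i t e^{-ix}` and its derivatives. -/
noncomputable def aa (t x : ℝ) : ℂ := -ea x + Complex.I * t * eb x
noncomputable def aa1 (t x : ℝ) : ℂ := -Complex.I * ea x + t * eb x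
noncomputable def aa2 (t x : ℝ) : ℂ := ea x - Complex.I * t * eb x

lemma hasDerivAt_aa (t x : ℝ) : HasDerivAt (aa t) (aa1 t x) x := by
  have := (hasDerivAt_ea x).neg.add ((hasDerivAt_eb x).const_mul (Complex.I * t))
  refine this.congr_deriv ?_
  unfold aa1
  linear_combination (-(t : ℂ) * eb x) * Complex.I_sq

lemma hasDerivAt_aa1 (t x : ℝ) : HasDerivAt (aa1 t) (aa2 t x) x := by
  have := ((hasDerivAt_ea x).const_mul (-Complex.I)).add ((hasDerivAt_eb x).const_mul (t : ℂ))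
  refine this.congr_deriv ?_
  unfold aa2
  linear_combination (-ea x) * Complex.I_sq

@[fun_prop] lemma cont_aa (t : ℝ) : Continuous (aa t) := by unfold aa; fun_prop
@[fun_prop] lemma cont_aa1 (t : ℝ) : Continuous (aa1 t) := by unfold aa1; fun_prop
@[fun_prop] lemma cont_aa2 (t : ℝ) : Continuous (aa2 t) := by unfold aa2; fun_prop

lemma norm_aa {t : ℝ} (ht : 0 ≤ t) (x : ℝ) : ‖aa t x‖ ≤ 1 + t := by
  unfold aa
  calc _ ≤ ‖-ea x‖ + ‖Complex.I * t * eb x‖ := norm_add_le _ _
    _ = 1 + t := by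
      rw [norm_neg, norm_mul, norm_mul, norm_ea, norm_eb, Complex.norm_I, Complex.norm_real,
        Real.norm_of_nonneg ht]; ring

lemma norm_aa1 {t : ℝ} (ht : 0 ≤ t) (x : ℝ) : ‖aa1 t x‖ ≤ 1 + t := by
  unfold aa1
  calc _ ≤ ‖-Complex.I * ea x‖ + ‖t * eb x‖ := norm_add_le _ _
    _ = 1 + t := by
      rw [norm_mul, norm_mul, norm_neg, norm_ea, norm_eb, Complex.norm_I, Complex.norm_real,
        Real.norm_of_nonneg ht]; ring

lemma norm_aa2 {t : ℝ} (ht : 0 ≤ t) (x : ℝ) : ‖aa2 t x‖ ≤ 1 + t := by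
  unfold aa2
  calc _ ≤ ‖ea x‖ + ‖Complex.I * t * eb x‖ := norm_sub_le _ _
    _ = 1 + t := by
      rw [norm_mul, norm_mul, norm_ea, norm_eb, Complex.norm_I, Complex.norm_real,
        Real.norm_of_nonneg ht]; ring

/-- `Â`. -/
noncomputable def Ah (p t x : ℝ) : ℂ := Complex.I + p * aa t x

noncomputable def A0 (p t x : ℝ) : ℝ := -p * cos x + p * t * sin x
noncomputable def C0 (p t x : ℝ) : ℝ := -1 + p * sin x - p * t * cos x

lemma AA_tr (p t : ℝ) : AA p t = tr (A0 p t) (C0 p t) := by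
  funext x y
  simp only [AA, tr, A0, C0]
  rw [cos_add, sin_sub]; ring

lemma Ah_eq (p t x : ℝ) : Ah p t x = (A0 p t x : ℂ) - Complex.I * (C0 p t x : ℂ) := by
  simp only [Ah, aa, A0, C0, ea_eq, eb_eq]
  push_cast
  linear_combination (-(p : ℂ) * t * Complex.sin x) * Complex.I_sq

lemma rho_pos (b x : ℝ) : 0 < rho b x := Real.exp_pos _

@[fun_prop] lemma cont_rho (b : ℝ) : Continuous (rho b) := by unfold rho; fun_prop
@[fun_prop] lemma cont_ww (b : ℝ) : Continuous (ww b) := by unfold ww; fun_prop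
@[fun_prop] lemma cont_ww' (b : ℝ) : Continuous (ww' b) := by unfold ww'; fun_prop
@[fun_prop] lemma cont_vv (b : ℝ) : Continuous (vv b) := by unfold vv; fun_prop

lemma hasDerivAt_rho (b x : ℝ) : HasDerivAt (rho b) (2 * ww b x * rho b x) x := by
  have := ((hasDerivAt_cos x).const_mul b).exp
  refine this.congr_deriv ?_
  unfold rho ww; ring

lemma hasDerivAt_vv (b x : ℝ) : HasDerivAt (vv b) (ww b x * vv b x) x := by
  have := ((hasDerivAt_cos x).const_mul (b / 2)).exp
  refine this.congr_deriv ?_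
  unfold vv ww; ring

lemma hasDerivAt_ww (b x : ℝ) : HasDerivAt (ww b) (ww' b x) x := by
  have := (hasDerivAt_sin x).const_mul (-(b / 2))
  exact this

lemma vv_sq (b x : ℝ) : vv b x ^ 2 = rho b x := by
  unfold vv rho; rw [← Real.exp_nat_mul]; congr 1; push_cast; ring

lemma per_rho (b x : ℝ) : rho b (x + 2 * π) = rho b x := by unfold rho; rw [cos_add_two_pi]
lemma per_vv (b x : ℝ) : vv b (x + 2 * π) = vv b x := by unfold vv; rw [cos_add_two_pi]
lemma per_ww (b x : ℝ) : ww b (x + 2 * π) = ww b x := by unfold ww; rw [sin_add_two_pi]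
lemma per_ww' (b x : ℝ) : ww' b (x + 2 * π) = ww' b x := by unfold ww'; rw [cos_add_two_pi]

/-- complex one-dimensional form of `Lin`. -/
structure KG (b p n t : ℝ) (k G : ℝ → ℂ) : Prop where
  kper : ∀ x, k (x + 2 * π) = k x
  Gper : ∀ x, G (x + 2 * π) = G x
  hk : ∀ x, HasDerivAt k (G x / (rho b x : ℂ) - Complex.I * p * k x) x
  hG : ∀ x, HasDerivAt G (ww' b x * Ah p t x + n ^ 2 * rho b x * k x - Complex.I * p * G x) x

lemma KG.ck {b p n t : ℝ} {k G : ℝ → ℂ} (h : KG b p n t k G) : Continuous k :=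
  continuous_iff_continuousAt.2 fun y => (h.hk y).continuousAt
lemma KG.cG {b p n t : ℝ} {k G : ℝ → ℂ} (h : KG b p n t k G) : Continuous G :=
  continuous_iff_continuousAt.2 fun y => (h.hG y).continuousAt

lemma contDiff_hasDeriv {a : ℝ → ℝ} (ha : ContDiff ℝ (⊤ : ℕ∞) a) (x : ℝ) :
    HasDerivAt a (deriv a x) x :=
  (ha.differentiable (by simp) x).hasDerivAt

lemma contDiff_deriv {a : ℝ → ℝ} (ha : ContDiff ℝ (⊤ : ℕ∞) a) : ContDiff ℝ (⊤ : ℕ∞) (deriv a) := by
  exact (contDiff_infty_iff_deriv.1 ha).2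

lemma CD_tr {k : ℝ → ℝ → ℝ} (h : CD (⊤ : ℕ∞) k) (y : ℝ) : ContDiff ℝ (⊤ : ℕ∞) (fun x => k x y) :=
  h.comp (contDiff_id.prodMk contDiff_const)

lemma CD_y {k : ℝ → ℝ → ℝ} (h : CD (⊤ : ℕ∞) k) (x : ℝ) : ContDiff ℝ (⊤ : ℕ∞) (fun y => k x y) :=
  h.comp (contDiff_const.prodMk contDiff_id)

/-- the reduction. -/
theorem lin_kg {b p n t : ℝ} {κ : ℝ → ℝ → ℝ} (h : Lin b p n t κ) :
    ∃ (a c : ℝ → ℝ) (G : ℝ → ℂ), ContDiff ℝ (⊤ : ℕ∞) a ∧ ContDiff ℝ (⊤ : ℕ∞) c ∧ κ = tr a c ∧
      (∀ x, G x = (rho b x * (deriv a x + p * c x) : ℝ)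
        - Complex.I * (rho b x * (deriv c x - p * a x) : ℝ)) ∧
      KG b p n t (fun x => (a x : ℂ) - Complex.I * (c x : ℂ)) G := by
  set a : ℝ → ℝ := fun x => κ x 0 with ha
  set c : ℝ → ℝ := fun x => κ x (π / 2) with hc
  have hκ : κ = tr a c := harm_tr
    (fun x y => ((CD_y h.smooth x).differentiable (by simp)) y) h.per.2 h.harm
  have sa : ContDiff ℝ (⊤ : ℕ∞) a := CD_tr h.smooth 0
  have sc : ContDiff ℝ (⊤ : ℕ∞) c := CD_tr h.smooth (π / 2)
  have pa : ∀ x, a (x + 2 * π) = a x := fun x => h.per.1 x 0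
  have pc : ∀ x, c (x + 2 * π) = c x := fun x => h.per.1 x (π / 2)
  set A1 : ℝ → ℝ := fun x => deriv a x + p * c x with hA1
  set C1 : ℝ → ℝ := fun x => deriv c x - p * a x with hC1
  have srho : ContDiff ℝ (⊤ : ℕ∞) (rho b) := by unfold rho; fun_prop
  have sA1 : ContDiff ℝ (⊤ : ℕ∞) A1 := (contDiff_deriv sa).add (contDiff_const.mul sc)
  have sC1 : ContDiff ℝ (⊤ : ℕ∞) C1 := (contDiff_deriv sc).sub (contDiff_const.mul sa)
  have hDκ : DD p κ = tr A1 C1 := by
    rw [hκ]; exact DD_tr (contDiff_hasDeriv sa) (contDiff_hasDeriv sc)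
  have hrD : (fun x y => rho b x * DD p κ x y) = tr (fun x => rho b x * A1 x)
      (fun x => rho b x * C1 x) := by
    funext x y; rw [hDκ]; simp only [tr]; ring
  have sA2 : ContDiff ℝ (⊤ : ℕ∞) (fun x => rho b x * A1 x) := srho.mul sA1
  have sC2 : ContDiff ℝ (⊤ : ℕ∞) (fun x => rho b x * C1 x) := srho.mul sC1
  have hDD := DD_tr (p := p) (contDiff_hasDeriv sA2) (contDiff_hasDeriv sC2)
  have hyy : dy (dy κ) = tr (fun x => - a x) (fun x => - c x) := by
    rw [hκ, dy_tr, dy_tr]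
  have heq : ∀ x y, tr
      (fun x => deriv (fun x => rho b x * A1 x) x + p * (rho b x * C1 x) - n ^ 2 * rho b x * a x)
      (fun x => deriv (fun x => rho b x * C1 x) x - p * (rho b x * A1 x) - n ^ 2 * rho b x * c x)
      x y = tr (fun x => ww' b x * A0 p t x) (fun x => ww' b x * C0 p t x) x y := by
    intro x y
    have h1 := h.eq x y
    rw [hrD, hDD, hyy, AA_tr] at h1
    simp only [tr] at h1 ⊢
    linarith
  obtain ⟨e1, e2⟩ := tr_inj heq
  refine ⟨a, c, fun x => (rho b x * (deriv a x + p * c x) : ℝ)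
        - Complex.I * (rho b x * (deriv c x - p * a x) : ℝ), sa, sc, hκ, fun x => rfl, ?_⟩
  have pda : ∀ x, deriv a (x + 2 * π) = deriv a x := fun x => by
    have h1 : HasDerivAt (fun y => a (y + 2 * π)) (deriv a (x + 2 * π)) x := by
      simpa using (contDiff_hasDeriv sa (x + 2 * π)).comp_add_const x (2 * π)
    rw [show (fun y => a (y + 2 * π)) = a from funext pa] at h1
    exact h1.unique (contDiff_hasDeriv sa x)
  have pdc : ∀ x, deriv c (x + 2 * π) = deriv c x := fun x => by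
    have h1 : HasDerivAt (fun y => c (y + 2 * π)) (deriv c (x + 2 * π)) x := by
      simpa using (contDiff_hasDeriv sc (x + 2 * π)).comp_add_const x (2 * π)
    rw [show (fun y => c (y + 2 * π)) = c from funext pc] at h1
    exact h1.unique (contDiff_hasDeriv sc x)
  constructor
  · intro x; simp only [pa, pc]
  · intro x; simp only [pa, pc, pda, pdc, per_rho]
  · intro x
    have h1 := (contDiff_hasDeriv sa x).ofReal_comp.sub
      ((contDiff_hasDeriv sc x).ofReal_comp.const_mul Complex.I)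
    refine h1.congr_deriv ?_
    have hr : (rho b x : ℂ) ≠ 0 := by exact_mod_cast (rho_pos b x).ne'
    push_cast
    field_simp
    linear_combination (-(p : ℂ) * c x) * Complex.I_sq
  · intro x
    have h1 := (contDiff_hasDeriv sA2 x).ofReal_comp.sub
      ((contDiff_hasDeriv sC2 x).ofReal_comp.const_mul Complex.I)
    refine h1.congr_deriv ?_
    have e1x : deriv (fun x => rho b x * A1 x) x = ww' b x * A0 p t x - p * (rho b x * C1 x)
      + n ^ 2 * rho b x * a x := by have := e1 x; linarith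
    have e2x : deriv (fun x => rho b x * C1 x) x = ww' b x * C0 p t x + p * (rho b x * A1 x)
      + n ^ 2 * rho b x * c x := by have := e2 x; linarith
    rw [e1x, e2x, Ah_eq]
    simp only [hA1, hC1]
    push_cast
    linear_combination (-(p : ℂ) * rho b x * (((deriv c x : ℝ) : ℂ) - p * a x)) * Complex.I_sq

end Run7.h998.EL
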