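import Mathlib
import Pool.Agent.Run7.h998.EL.Kg

open Real MeasureTheory intervalIntegral Set

namespace Run7.h998.EL

open Run7.h117

structure Small (b p n t : ℝ) : Prop where
  hb : 0 < b
  hb' : b ≤ 1 / 100
  ht : 0 ≤ t
  ht' : t ≤ 1
  hp : 0 < p
  hp' : p ≤ 1 / 1000
  hn : 0 ≤ n
  hn' : n ≤ p ^ 2

noncomputable def om (b t : ℝ) : ℂ := (b / 4 : ℝ) * (-1 + Complex.I * t)

noncomputable def r1 (b : ℝ) : ℝ := (2 * π)⁻¹ * ∫ x in (0 : ℝ)..(2 * π), (rho b x)⁻¹

lemma abs_ww {b : ℝ} (hb : 0 < b) (x : ℝ) : |ww b x| ≤ b / 2 := by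
  unfold ww
  rw [abs_mul, abs_neg, abs_of_pos (by positivity)]
  have := abs_sin_le_one x
  nlinarith

lemma abs_ww' {b : ℝ} (hb : 0 < b) (x : ℝ) : |ww' b x| ≤ b / 2 := by
  unfold ww'
  rw [abs_mul, abs_neg, abs_of_pos (by positivity)]
  have := abs_cos_le_one x
  nlinarith

lemma rho_le {b : ℝ} (hb : 0 < b) (hb' : b ≤ 1 / 100) (x : ℝ) : rho b x ≤ 2 := by
  unfold rho
  calc Real.exp (b * cos x) ≤ Real.exp (1 / 100) := by
        apply Real.exp_le_exp.2
        have := cos_le_one x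
        nlinarith
    _ ≤ 2 := by
        have h := Real.abs_exp_sub_one_le (x := 1 / 100) (by rw [abs_of_pos] <;> norm_num)
        rw [abs_le] at h
        rw [abs_of_pos (by norm_num)] at h
        linarith [h.2]

lemma rho_inv_le {b : ℝ} (hb : 0 < b) (hb' : b ≤ 1 / 100) (x : ℝ) : (rho b x)⁻¹ ≤ 2 := by
  unfold rho
  rw [← Real.exp_neg]
  calc Real.exp (-(b * cos x)) ≤ Real.exp (1 / 100) := by
        apply Real.exp_le_exp.2
        have := neg_one_le_cos x
        nlinarith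
    _ ≤ 2 := by
        have h := Real.abs_exp_sub_one_le (x := 1 / 100) (by rw [abs_of_pos] <;> norm_num)
        rw [abs_le] at h
        rw [abs_of_pos (by norm_num)] at h
        linarith [h.2]

lemma norm_om {b t : ℝ} (hb : 0 < b) (ht : 0 ≤ t) (ht' : t ≤ 1) : ‖om b t‖ ≤ b / 2 := by
  unfold om
  rw [norm_mul, Complex.norm_real, Real.norm_of_nonneg (by positivity)]
  have : ‖(-1 + Complex.I * t : ℂ)‖ ≤ 2 := by
    calc _ ≤ ‖(-1 : ℂ)‖ + ‖Complex.I * t‖ := norm_add_le _ _
      _ ≤ 2 := by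
        rw [norm_neg, norm_one, norm_mul, Complex.norm_I, Complex.norm_real,
          Real.norm_of_nonneg ht]; linarith
  nlinarith

lemma mean_of_deriv {F F' : ℝ → ℂ} (hper : ∀ x, F (x + 2 * π) = F x)
    (hd : ∀ x, HasDerivAt F (F' x) x) (hc : Continuous F') : mean F' = 0 := by
  unfold mean
  rw [integral_eq_sub_of_hasDerivAt (fun s _ => hd s) (hc.intervalIntegrable _ _)]
  have : F (2 * π) = F 0 := by simpa using hper 0
  rw [this, sub_self, mul_zero]

lemma mean_add {f g : ℝ → ℂ} (hf : Continuous f) (hg : Continuous g) :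
    mean (fun x => f x + g x) = mean f + mean g := by
  unfold mean
  rw [intervalIntegral.integral_add (hf.intervalIntegrable _ _) (hg.intervalIntegrable _ _)]
  ring

lemma mean_const_mul {f : ℝ → ℂ} (c : ℂ) : mean (fun x => c * f x) = c * mean f := by
  unfold mean
  rw [intervalIntegral.integral_const_mul]
  ring

lemma mean_const (c : ℂ) : mean (fun _ => c) = c := by
  unfold mean
  have := two_pi_ne
  simp only [intervalIntegral.integral_const, sub_zero, Complex.real_smul]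
  field_simp

lemma mean_wpa (b t : ℝ) : mean (fun x => ww' b x * aa t x) = - om b t := by
  have h1 : mean (fun x => ww' b x * aa t x + om b t) = 0 := by
    apply mean_of_deriv (F := fun x => ((b / 4 : ℝ) : ℂ) *
      (-(Complex.I / 2) * (ea x) ^ 2 + (t / 2) * (eb x) ^ 2))
    · intro x; simp only [per_ea, per_eb]
    · intro x
      have := ((((hasDerivAt_ea x).pow 2).const_mul (-(Complex.I / 2))).add
        (((hasDerivAt_eb x).pow 2).const_mul ((t : ℂ) / 2))).const_mul ((b / 4 : ℝ) : ℂ)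
      refine this.congr_deriv ?_
      have e1 : ea x * eb x = 1 := by
        unfold ea eb; rw [← Complex.exp_add, add_neg_cancel, Complex.exp_zero]
      have e2 : (cos x : ℂ) = (ea x + eb x) / 2 := by rw [ea_eq, eb_eq]; ring
      unfold aa om ww'
      push_cast
      rw [← Complex.ofReal_cos, e2]
      linear_combination (-(b : ℂ) / 4 * (ea x) ^ 2) * Complex.I_sq
        + ((b : ℂ) / 4 * (1 - Complex.I * t)) * e1 * (-1)
    · unfold ww' om; fun_prop
  rw [mean_add (by fun_prop) (by fun_prop), mean_const] at h1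
  linear_combination h1

lemma mean_wp (b : ℝ) : mean (fun x => (ww' b x : ℂ)) = 0 :=
  mean_of_deriv (F := fun x => (ww b x : ℂ)) (fun x => by rw [per_ww])
    (fun x => (hasDerivAt_ww b x).ofReal_comp) (by fun_prop)

lemma mean_w (b : ℝ) : mean (fun x => (ww b x : ℂ)) = 0 := by
  apply mean_of_deriv (F := fun x => ((b / 2 * cos x : ℝ) : ℂ)) (fun x => by rw [cos_add_two_pi])
  · intro x
    have := ((hasDerivAt_cos x).const_mul (b / 2)).ofReal_comp
    refine this.congr_deriv ?_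
    unfold ww; push_cast; ring
  · fun_prop

lemma hasDerivAt_rho_inv (b x : ℝ) :
    HasDerivAt (fun x => (rho b x)⁻¹) (-2 * ww b x * (rho b x)⁻¹) x := by
  have := (hasDerivAt_rho b x).inv (rho_pos b x).ne'
  refine this.congr_deriv ?_
  have := (rho_pos b x).ne'
  field_simp

lemma cont_rho_inv (b : ℝ) : Continuous (fun x => (rho b x)⁻¹) :=
  (cont_rho b).inv₀ fun x => (rho_pos b x).ne'

lemma mean_wrho (b : ℝ) : mean (fun x => (ww b x : ℂ) / (rho b x : ℂ)) = 0 := by
  apply mean_of_deriv (F := fun x => (-(1 / 2) * (rho b x)⁻¹ : ℝ)) (fun x => by rw [per_rho])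
  · intro x
    have := ((hasDerivAt_rho_inv b x).const_mul (-(1 / 2))).ofReal_comp
    refine this.congr_deriv ?_
    push_cast; ring
  · exact Continuous.div (by fun_prop) (by fun_prop) fun x => by exact_mod_cast (rho_pos b x).ne'

lemma norm_Ah {p t : ℝ} (hp : 0 < p) (hp' : p ≤ 1 / 1000) (ht : 0 ≤ t) (ht' : t ≤ 1) (x : ℝ) :
    ‖Ah p t x‖ ≤ 2 := by
  unfold Ah
  have h := norm_aa ht x
  calc _ ≤ ‖Complex.I‖ + ‖(p : ℂ) * aa t x‖ := norm_add_le _ _
    _ ≤ 2 := by
      rw [Complex.norm_I, norm_mul, Complex.norm_real, Real.norm_of_nonneg hp.le]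
      nlinarith

lemma cont_div_rho {b : ℝ} {f : ℝ → ℂ} (hf : Continuous f) :
    Continuous (fun x => f x / (rho b x : ℂ)) :=
  hf.div (by fun_prop) fun x => by exact_mod_cast (rho_pos b x).ne'

lemma norm_div_rho {b : ℝ} (hb : 0 < b) (hb' : b ≤ 1 / 100) (z : ℂ) (x : ℝ) :
    ‖z / (rho b x : ℂ)‖ ≤ 2 * ‖z‖ := by
  rw [norm_div, Complex.norm_real, Real.norm_of_nonneg (rho_pos b x).le, div_eq_mul_inv]
  have := rho_inv_le hb hb' x
  nlinarith [norm_nonneg z]

/-- crude bound `‖k‖ ≤ 1/p`. -/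
lemma k_bound {b p n t : ℝ} {k G : ℝ → ℂ} (h : KG b p n t k G) (s : Small b p n t) (x : ℝ) :
    ‖k x‖ ≤ 1 / p := by
  obtain ⟨hb, hb', ht, ht', hp, hp', hn, hn'⟩ := s
  obtain ⟨x0, hx0⟩ := exists_max h.kper h.ck
  set K := ‖k x0‖ with hK
  have hK0 : 0 ≤ K := norm_nonneg _
  have hn2 : n ^ 2 ≤ p ^ 4 := by
    calc n ^ 2 ≤ (p ^ 2) ^ 2 := by gcongr
      _ = p ^ 4 := by ring
  have hn20 : 0 ≤ n ^ 2 := sq_nonneg n
  -- bound of n² ρ k
  have hrk : ∀ y, ‖(n : ℂ) ^ 2 * rho b y * k y‖ ≤ 2 * n ^ 2 * K := fun y => by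
    rw [norm_mul, norm_mul, norm_pow, Complex.norm_real, Complex.norm_real,
      Real.norm_of_nonneg hn, Real.norm_of_nonneg (rho_pos b y).le]
    have h1 := rho_le hb hb' y
    have h2 := hx0 y
    have h3 := norm_nonneg (k y)
    have h4 := (rho_pos b y).le
    calc n ^ 2 * rho b y * ‖k y‖ ≤ n ^ 2 * 2 * K := by gcongr
      _ = _ := by ring
  have hfc : Continuous (fun x => ww' b x * Ah p t x + n ^ 2 * rho b x * k x) := by
    have := h.ck; unfold Ah; fun_prop
  have hf : ∀ y, ‖ww' b y * Ah p t y + n ^ 2 * rho b y * k y‖ ≤ 1 / 100 + 2 * n ^ 2 * K := fun y => by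
    have h1 := hrk y
    have h2 : ‖(ww' b y : ℂ) * Ah p t y‖ ≤ 1 / 100 := by
      rw [norm_mul, Complex.norm_real, Real.norm_eq_abs]
      have h3 := abs_ww' hb y
      have h4 := norm_Ah hp hp' ht ht' y
      have h5 := abs_nonneg (ww' b y)
      have h6 := norm_nonneg (Ah p t y)
      nlinarith
    exact (norm_add_le _ _).trans (add_le_add h2 h1)
  have hG1 := apri_sup hp.le (by linarith) h.Gper h.hG hfc hf
  have hG2 := apri_mean h.Gper h.hG hfc
  have hG3 : mean (fun x => ww' b x * Ah p t x + n ^ 2 * rho b x * k x) =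
      -(p * om b t) + mean (fun x => (n : ℂ) ^ 2 * rho b x * k x) := by
    have hc1 : Continuous (fun x => (n : ℂ) ^ 2 * rho b x * k x) := by have := h.ck; fun_prop
    rw [mean_add (by unfold Ah; fun_prop) hc1]
    congr 1
    have : (fun x => (ww' b x : ℂ) * Ah p t x) =
        fun x => Complex.I * (ww' b x : ℂ) + p * (ww' b x * aa t x) := by
      funext x; unfold Ah; ring
    rw [this, mean_add (by fun_prop) (by fun_prop), mean_const_mul, mean_const_mul, mean_wp,
      mean_wpa]; ring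
  have hGm : ‖mean G‖ ≤ 1 / 100 + 2 * n ^ 2 * K / p := by
    have e : (p : ℂ) * (Complex.I * mean G + om b t) = mean (fun x => (n : ℂ) ^ 2 * rho b x * k x) := by
      rw [hG3] at hG2; linear_combination hG2
    have h1 : p * ‖Complex.I * mean G + om b t‖ ≤ 2 * n ^ 2 * K := by
      have h2 := mean_sup hrk
      rw [← e, norm_mul, Complex.norm_real, Real.norm_of_nonneg hp.le] at h2
      exact h2
    have h2 : ‖Complex.I * mean G + om b t‖ ≤ 2 * n ^ 2 * K / p := by
      rw [le_div_iff₀ hp]; linarith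
    have h3 : ‖mean G‖ = ‖(Complex.I * mean G + om b t) - om b t‖ := by
      rw [add_sub_cancel_right, norm_mul, Complex.norm_I, one_mul]
    have h4 := norm_om hb ht ht'
    rw [h3]
    refine (norm_sub_le _ _).trans ?_
    linarith
  have hΓ : ∀ y, ‖G y‖ ≤ 3 / 10 + 3 * (n ^ 2 * K / p) := fun y => by
    have h1 := hG1 y
    have h2 : ‖G y‖ ≤ ‖G y - mean G‖ + ‖mean G‖ := by
      calc ‖G y‖ = ‖(G y - mean G) + mean G‖ := by rw [sub_add_cancel]
        _ ≤ _ := norm_add_le _ _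
    have h3 : 52 * (n ^ 2 * K) ≤ n ^ 2 * K / p := by
      rw [le_div_iff₀ hp]
      have : 0 ≤ n ^ 2 * K := by positivity
      nlinarith
    have h4 : 2 * n ^ 2 * K / p = 2 * (n ^ 2 * K / p) := by ring
    rw [h4] at hGm
    nlinarith
  have hk1 := apri_sup hp.le (by linarith) h.kper h.hk (cont_div_rho h.cG)
    (fun y => (norm_div_rho hb hb' (G y) y).trans (mul_le_mul_of_nonneg_left (hΓ y) (by norm_num)))
  have hk2 := apri_mean h.kper h.hk (cont_div_rho h.cG)
  have hk3 := mean_sup (f := fun y => G y / (rho b y : ℂ))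
    (fun y => (norm_div_rho hb hb' (G y) y).trans (mul_le_mul_of_nonneg_left (hΓ y) (by norm_num)))
  rw [← hk2, norm_mul, norm_mul, Complex.norm_I, one_mul, Complex.norm_real,
    Real.norm_of_nonneg hp.le] at hk3
  set Γ := 3 / 10 + 3 * (n ^ 2 * K / p) with hΓd
  have hΓ0 : 0 ≤ Γ := by positivity
  have hk4 : p * K ≤ 3 * Γ := by
    have h1 := hk1 x0
    have h2 : K ≤ ‖k x0 - mean k‖ + ‖mean k‖ := by
      calc K = ‖(k x0 - mean k) + mean k‖ := by rw [sub_add_cancel]
        _ ≤ _ := norm_add_le _ _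
    have h3 : p * K ≤ p * (26 * (2 * Γ)) + 2 * Γ := by nlinarith
    nlinarith
  have h5 : p * K * (1 - 9 * p ^ 2) ≤ 9 / 10 := by
    have h6 : n ^ 2 * K / p ≤ p ^ 3 * K := by
      rw [div_le_iff₀ hp]
      calc n ^ 2 * K ≤ p ^ 4 * K := by gcongr
        _ = _ := by ring
    have : p * K ≤ 3 * (3 / 10 + 3 * (p ^ 3 * K)) := by
      refine hk4.trans ?_
      rw [hΓd]; linarith
    nlinarith
  have h6 : 9 / 10 ≤ (1 - 9 * p ^ 2) := by nlinarith
  have h7 : p * K ≤ 1 := by
    have : 0 ≤ p * K := by positivity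
    nlinarith
  refine (hx0 x).trans ?_
  rw [le_div_iff₀ hp]; linarith

end Run7.h998.EL
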