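import Mathlib
import Pool.Agent.Run7.h998.EL.Asy

open Real MeasureTheory intervalIntegral Set

namespace Run7.h998.EL

open Run7.h117

lemma n2rk_bound {b p n t : ℝ} {k G : ℝ → ℂ} (h : KG b p n t k G) (s : Small b p n t) (y : ℝ) :
    ‖(n : ℂ) ^ 2 * rho b y * k y‖ ≤ 2 * p ^ 3 := by
  have hk := k_bound h s y
  obtain ⟨hb, hb', ht, ht', hp, hp', hn, hn'⟩ := s
  rw [norm_mul, norm_mul, norm_pow, Complex.norm_real, Complex.norm_real,
      Real.norm_of_nonneg hn, Real.norm_of_nonneg (rho_pos b y).le]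
  have h1 := rho_le hb hb' y
  have h3 := norm_nonneg (k y)
  have h4 := (rho_pos b y).le
  have hn2 : n ^ 2 ≤ p ^ 4 := by
    calc n ^ 2 ≤ (p ^ 2) ^ 2 := by gcongr
      _ = p ^ 4 := by ring
  calc n ^ 2 * rho b y * ‖k y‖ ≤ p ^ 4 * 2 * (1 / p) := by gcongr
    _ = 2 * p ^ 3 := by field_simp

lemma G_asym {b p n t : ℝ} {k G : ℝ → ℂ} (h : KG b p n t k G) (s : Small b p n t) (x : ℝ) :
    ‖G x - Complex.I * (ww b x + om b t)‖ ≤ p := by
  have hrk := n2rk_bound h s
  obtain ⟨hb, hb', ht, ht', hp, hp', hn, hn'⟩ := s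
  have hc1 : Continuous (fun x => (n : ℂ) ^ 2 * rho b x * k x) := by have := h.ck; fun_prop
  set F : ℝ → ℂ := fun x => G x - Complex.I * ww b x with hF
  have hFper : ∀ x, F (x + 2 * π) = F x := fun x => by simp only [hF, h.Gper, per_ww]
  set f : ℝ → ℂ := fun x => p * (ww' b x * aa t x + ww b x) + n ^ 2 * rho b x * k x with hf
  have hFd : ∀ x, HasDerivAt F (f x - Complex.I * p * F x) x := fun x => by
    have := (h.hG x).sub ((hasDerivAt_ww b x).ofReal_comp.const_mul Complex.I)
    refine this.congr_deriv ?_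
    simp only [hF, hf, Ah]
    linear_combination (-(p : ℂ) * ww b x) * Complex.I_sq
  have hfc : Continuous f := by have := h.ck; fun_prop
  have hfb : ∀ x, ‖f x‖ ≤ (3 / 200) * p + 2 * p ^ 3 := fun x => by
    refine (norm_add_le _ _).trans (add_le_add ?_ (hrk x))
    rw [norm_mul, Complex.norm_real, Real.norm_of_nonneg hp.le, mul_comm (3 / 200 : ℝ)]
    refine mul_le_mul_of_nonneg_left ?_ hp.le
    refine (norm_add_le _ _).trans ?_
    rw [norm_mul, Complex.norm_real, Complex.norm_real, Real.norm_eq_abs, Real.norm_eq_abs]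
    have h1 := abs_ww' hb x
    have h2 := abs_ww hb x
    have h3 := norm_aa ht x
    have h4 := norm_nonneg (aa t x)
    have h5 := abs_nonneg (ww' b x)
    nlinarith
  have h1 := apri_sup hp.le (by linarith) hFper hFd hfc hfb x
  have h2 := apri_mean hFper hFd hfc
  have h3 : mean f = -(p * om b t) + mean (fun x => (n : ℂ) ^ 2 * rho b x * k x) := by
    simp only [hf]
    rw [mean_add (by fun_prop) hc1, mean_const_mul, mean_add (by fun_prop) (by fun_prop),
      mean_wpa, mean_w]; ring
  have h4 : ‖mean F - Complex.I * om b t‖ ≤ 2 * p ^ 2 := by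
    have e : (p : ℂ) * (Complex.I * (mean F - Complex.I * om b t)) =
        mean (fun x => (n : ℂ) ^ 2 * rho b x * k x) := by
      rw [h3] at h2
      linear_combination h2 - (p : ℂ) * om b t * Complex.I_sq
    have h5 := mean_sup hrk
    rw [← e, norm_mul, norm_mul, Complex.norm_I, one_mul, Complex.norm_real,
      Real.norm_of_nonneg hp.le] at h5
    have : p * ‖mean F - Complex.I * om b t‖ ≤ p * (2 * p ^ 2) := by linarith
    exact le_of_mul_le_mul_left this hp
  have e : G x - Complex.I * (ww b x + om b t) = (F x - mean F) + (mean F - Complex.I * om b t) := by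
    simp only [hF]; ring
  rw [e]
  refine (norm_add_le _ _).trans ?_
  have : p ^ 3 ≤ p / 1000000 := by
    have : p ^ 2 ≤ 1 / 1000000 := by nlinarith
    nlinarith
  nlinarith

lemma norm_G_le {b p n t : ℝ} {k G : ℝ → ℂ} (h : KG b p n t k G) (s : Small b p n t) (x : ℝ) :
    ‖G x‖ ≤ 11 / 1000 := by
  have h1 := G_asym h s x
  obtain ⟨hb, hb', ht, ht', hp, hp', hn, hn'⟩ := s
  have h2 : ‖Complex.I * (ww b x + om b t)‖ ≤ b := by
    rw [norm_mul, Complex.norm_I, one_mul]
    refine (norm_add_le _ _).trans ?_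
    rw [Complex.norm_real, Real.norm_eq_abs]
    have := abs_ww hb x
    have := norm_om hb ht ht'
    linarith
  have h3 : ‖G x‖ ≤ ‖G x - Complex.I * (ww b x + om b t)‖ + ‖Complex.I * (ww b x + om b t)‖ := by
    calc ‖G x‖ = ‖(G x - Complex.I * (ww b x + om b t)) + Complex.I * (ww b x + om b t)‖ := by
          rw [sub_add_cancel]
      _ ≤ _ := norm_add_le _ _
  linarith

lemma mean_inv_rho (b : ℝ) : mean (fun x => ((rho b x)⁻¹ : ℂ)) = (r1 b : ℂ) := by
  unfold mean r1
  push_cast
  rw [← intervalIntegral.integral_ofReal]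
  push_cast
  rfl

lemma k_asym {b p n t : ℝ} {k G : ℝ → ℂ} (h : KG b p n t k G) (s : Small b p n t) (x : ℝ) :
    ‖p * k x - om b t * r1 b‖ ≤ 3 * p := by
  have hGa := G_asym h s
  have hGn := norm_G_le h s
  obtain ⟨hb, hb', ht, ht', hp, hp', hn, hn'⟩ := s
  have h1 := apri_sup hp.le (by linarith) h.kper h.hk (cont_div_rho h.cG)
    (fun y => (norm_div_rho hb hb' (G y) y).trans (mul_le_mul_of_nonneg_left (hGn y) (by norm_num))) x
  have h2 := apri_mean h.kper h.hk (cont_div_rho h.cG)
  set E : ℝ → ℂ := fun y => (G y - Complex.I * (ww b y + om b t)) / (rho b y : ℂ) with hE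
  have hcE : Continuous E := by
    apply cont_div_rho; have := h.cG; fun_prop
  have h3 : mean (fun y => G y / (rho b y : ℂ)) = Complex.I * (om b t * r1 b) + mean E := by
    have e : (fun y => G y / (rho b y : ℂ)) = fun y =>
        ((Complex.I * ((ww b y : ℂ) / (rho b y : ℂ))) + (Complex.I * om b t) * ((rho b y)⁻¹ : ℂ)) + E y := by
      funext y
      have : (rho b y : ℂ) ≠ 0 := by exact_mod_cast (rho_pos b y).ne'
      simp only [hE]
      field_simp
      ring
    have c1 : Continuous (fun y => (ww b y : ℂ) / (rho b y : ℂ)) := cont_div_rho (by fun_prop)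
    have c2 : Continuous (fun y => ((rho b y)⁻¹ : ℂ)) := by
      have := cont_rho_inv b
      have h := Complex.continuous_ofReal.comp this
      refine h.congr fun y => by simp
    rw [e, mean_add (by fun_prop) hcE, mean_add (by fun_prop) (by fun_prop), mean_const_mul,
      mean_const_mul, mean_wrho, mean_inv_rho]; ring
  have h4 : ‖mean E‖ ≤ 2 * p := mean_sup fun y =>
    (norm_div_rho hb hb' _ y).trans (mul_le_mul_of_nonneg_left (hGa y) (by norm_num))
  have h5 : ‖p * mean k - om b t * r1 b‖ ≤ 2 * p := by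
    have e : Complex.I * (p * mean k - om b t * r1 b) = mean E := by
      rw [h3] at h2; linear_combination h2
    rw [← e, norm_mul, Complex.norm_I, one_mul] at h4
    exact h4
  have e : p * k x - om b t * r1 b = p * (k x - mean k) + (p * mean k - om b t * r1 b) := by ring
  rw [e]
  refine (norm_add_le _ _).trans ?_
  rw [norm_mul, Complex.norm_real, Real.norm_of_nonneg hp.le]
  nlinarith

end Run7.h998.EL
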