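import Mathlib
import Pool.Agent.Run7.h998.EL.Asy2

open Real MeasureTheory intervalIntegral Set

namespace Run7.h998.EL

open Run7.h117

noncomputable def dd (p t x : ℝ) : ℂ := aa1 t x - 1 + Complex.I * p * aa t x
noncomputable def Bf (b p t : ℝ) (G : ℝ → ℂ) (x : ℝ) : ℂ :=
  p * dd p t x - 2 * ww b x * Ah p t x + 2 * G x
noncomputable def DB (b p n t : ℝ) (k : ℝ → ℂ) (x : ℝ) : ℂ :=
  p * (aa2 t x + Complex.I * p * aa1 t x + Complex.I * p * dd p t x - 2 * ww b x * dd p t x)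
    + 2 * (n ^ 2 * rho b x * k x)
noncomputable def bet0 (b t x : ℝ) : ℂ := aa2 t x - 2 * ww b x * aa1 t x + 2 * ww b x

@[fun_prop] lemma cont_dd (p t : ℝ) : Continuous (dd p t) := by unfold dd; fun_prop
@[fun_prop] lemma cont_Ah (p t : ℝ) : Continuous (Ah p t) := by unfold Ah; fun_prop
@[fun_prop] lemma cont_bet0 (b t : ℝ) : Continuous (bet0 b t) := by unfold bet0; fun_prop

lemma cont_Bf {b p t : ℝ} {G : ℝ → ℂ} (hG : Continuous G) : Continuous (Bf b p t G) := by
  unfold Bf; fun_prop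
lemma cont_DB {b p n t : ℝ} {k : ℝ → ℂ} (hk : Continuous k) : Continuous (DB b p n t k) := by
  unfold DB; fun_prop

lemma hasDerivAt_dd (p t x : ℝ) :
    HasDerivAt (dd p t) (aa2 t x + Complex.I * p * aa1 t x) x :=
  ((hasDerivAt_aa1 t x).sub_const 1).add ((hasDerivAt_aa t x).const_mul (Complex.I * p))

lemma hasDerivAt_Ah (p t x : ℝ) : HasDerivAt (Ah p t) (p * aa1 t x) x :=
  ((hasDerivAt_aa t x).const_mul (p : ℂ)).const_add Complex.I

lemma hasDerivAt_Bf {b p n t : ℝ} {k G : ℝ → ℂ} (h : KG b p n t k G) (x : ℝ) :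
    HasDerivAt (Bf b p t G) (DB b p n t k x - Complex.I * p * Bf b p t G x) x := by
  have h1 := ((hasDerivAt_dd p t x).const_mul (p : ℂ))
  have h2 := (((hasDerivAt_ww b x).ofReal_comp.const_mul 2).mul (hasDerivAt_Ah p t x))
  have h3 := (h.hG x).const_mul 2
  have := (h1.sub h2).add h3
  refine this.congr_deriv ?_
  unfold DB Bf dd Ah
  linear_combination (-2 * (p : ℂ) * ww b x) * Complex.I_sq

lemma per_Bf {b p n t : ℝ} {k G : ℝ → ℂ} (h : KG b p n t k G) (x : ℝ) :
    Bf b p t G (x + 2 * π) = Bf b p t G x := by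
  unfold Bf dd Ah aa aa1
  rw [h.Gper, per_ww, per_ea, per_eb]

lemma norm_dd {p t : ℝ} (hp : 0 < p) (hp' : p ≤ 1 / 1000) (ht : 0 ≤ t) (ht' : t ≤ 1) (x : ℝ) :
    ‖dd p t x‖ ≤ 301 / 100 := by
  unfold dd
  have h1 := norm_aa1 ht x
  have h2 := norm_aa ht x
  refine (norm_add_le _ _).trans ?_
  have h3 := norm_sub_le (aa1 t x) 1
  rw [norm_one] at h3
  have h4 : ‖Complex.I * p * aa t x‖ ≤ 1 / 100 := by
    rw [norm_mul, norm_mul, Complex.norm_I, one_mul, Complex.norm_real, Real.norm_of_nonneg hp.le]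
    nlinarith [norm_nonneg (aa t x)]
  linarith

lemma Bf_near {b p n t : ℝ} {k G : ℝ → ℂ} (h : KG b p n t k G) (s : Small b p n t) (x : ℝ) :
    ‖Bf b p t G x - 2 * Complex.I * om b t‖ ≤ 6 * p := by
  have hG := G_asym h s x
  obtain ⟨hb, hb', ht, ht', hp, hp', hn, hn'⟩ := s
  have e : Bf b p t G x - 2 * Complex.I * om b t = p * dd p t x + ((-2 * ww b x) * (p * aa t x)
      + 2 * (G x - Complex.I * (ww b x + om b t))) := by
    unfold Bf Ah; ring
  rw [e]
  have h1 : ‖(p : ℂ) * dd p t x‖ ≤ p * (301 / 100) := by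
    rw [norm_mul, Complex.norm_real, Real.norm_of_nonneg hp.le]
    exact mul_le_mul_of_nonneg_left (norm_dd hp hp' ht ht' x) hp.le
  have h2 : ‖(-2 * (ww b x : ℂ)) * (p * aa t x)‖ ≤ p / 10 := by
    rw [norm_mul, norm_mul, norm_mul, Complex.norm_real, Complex.norm_real,
      Real.norm_of_nonneg hp.le, norm_neg, Real.norm_eq_abs]
    have h3 := abs_ww hb x
    have h4 := norm_aa ht x
    have h5 : ‖(2 : ℂ)‖ = 2 := by simp
    rw [h5]
    have h6 := abs_nonneg (ww b x)
    have h7 := norm_nonneg (aa t x)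
    have h8 : |ww b x| * ‖aa t x‖ ≤ 1 / 200 * 2 := by
      apply mul_le_mul _ _ h7 (by norm_num) <;> linarith
    nlinarith
  have h3 : ‖2 * (G x - Complex.I * (ww b x + om b t))‖ ≤ 2 * p := by
    rw [norm_mul]; simpa using hG
  refine (norm_add_le _ _).trans ?_
  have := norm_add_le ((-2 * (ww b x : ℂ)) * (p * aa t x))
    (2 * (G x - Complex.I * (ww b x + om b t)))
  linarith

lemma norm_Bf {b p n t : ℝ} {k G : ℝ → ℂ} (h : KG b p n t k G) (s : Small b p n t) (x : ℝ) :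
    ‖Bf b p t G x‖ ≤ 1 / 50 := by
  have h1 := Bf_near h s x
  obtain ⟨hb, hb', ht, ht', hp, hp', hn, hn'⟩ := s
  have h2 := norm_om hb ht ht'
  have h3 : ‖2 * Complex.I * om b t‖ ≤ b := by
    rw [norm_mul, norm_mul, Complex.norm_I]
    have : ‖(2 : ℂ)‖ = 2 := by simp
    rw [this]; linarith
  have : ‖Bf b p t G x‖ ≤ ‖Bf b p t G x - 2 * Complex.I * om b t‖ + ‖2 * Complex.I * om b t‖ := by
    calc _ = ‖(Bf b p t G x - 2 * Complex.I * om b t) + 2 * Complex.I * om b t‖ := by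
          rw [sub_add_cancel]
      _ ≤ _ := norm_add_le _ _
  linarith

lemma DB_near {b p n t : ℝ} {k G : ℝ → ℂ} (h : KG b p n t k G) (s : Small b p n t) (x : ℝ) :
    ‖DB b p n t k x - p * bet0 b t x‖ ≤ 6 * p ^ 2 := by
  have hk := n2rk_bound h s x
  obtain ⟨hb, hb', ht, ht', hp, hp', hn, hn'⟩ := s
  have e : DB b p n t k x - p * bet0 b t x =
      (p : ℂ) ^ 2 * (Complex.I * aa1 t x + Complex.I * dd p t x - 2 * ww b x * (Complex.I * aa t x))
      + 2 * (n ^ 2 * rho b x * k x) := by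
    unfold DB bet0 dd; ring
  rw [e]
  refine (norm_add_le _ _).trans ?_
  have h1 : ‖(p : ℂ) ^ 2 * (Complex.I * aa1 t x + Complex.I * dd p t x
      - 2 * ww b x * (Complex.I * aa t x))‖ ≤ p ^ 2 * (52 / 10) := by
    rw [norm_mul, norm_pow, Complex.norm_real, Real.norm_of_nonneg hp.le]
    refine mul_le_mul_of_nonneg_left ?_ (by positivity)
    refine (norm_sub_le _ _).trans ?_
    have h2 := norm_add_le (Complex.I * aa1 t x) (Complex.I * dd p t x)
    rw [norm_mul, norm_mul, Complex.norm_I, one_mul, one_mul] at h2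
    have h3 := norm_aa1 ht x
    have h4 := norm_dd hp hp' ht ht' x
    have h5 : ‖2 * (ww b x : ℂ) * (Complex.I * aa t x)‖ ≤ 2 * (1 / 200 * 2) := by
      rw [norm_mul, norm_mul, norm_mul, Complex.norm_I, one_mul, Complex.norm_real, Real.norm_eq_abs]
      have h6 := abs_ww hb x
      have h7 := norm_aa ht x
      have h8 : ‖(2 : ℂ)‖ = 2 := by simp
      rw [h8, mul_assoc]
      have : |ww b x| * ‖aa t x‖ ≤ 1 / 200 * 2 := by
        apply mul_le_mul _ _ (norm_nonneg _) (by norm_num) <;> linarith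
      linarith
    linarith
  have h2 : ‖2 * ((n : ℂ) ^ 2 * rho b x * k x)‖ ≤ 2 * (2 * p ^ 3) := by
    rw [norm_mul]
    have h8 : ‖(2 : ℂ)‖ = 2 := by simp
    rw [h8]; linarith
  have : p ^ 3 ≤ p ^ 2 / 1000 := by nlinarith [sq_nonneg p]
  nlinarith [sq_nonneg p]

lemma norm_bet0 {b t : ℝ} (hb : 0 < b) (hb' : b ≤ 1 / 100) (ht : 0 ≤ t) (ht' : t ≤ 1) (x : ℝ) :
    ‖bet0 b t x‖ ≤ 21 / 10 := by
  unfold bet0
  refine (norm_add_le _ _).trans ?_
  have h1 := norm_sub_le (aa2 t x) (2 * ww b x * aa1 t x)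
  have h2 := norm_aa2 ht x
  have h8 : ‖(2 : ℂ)‖ = 2 := by simp
  have h6 := abs_ww hb x
  have h3 : ‖2 * (ww b x : ℂ) * aa1 t x‖ ≤ 2 * (1 / 200 * 2) := by
    rw [norm_mul, norm_mul, Complex.norm_real, Real.norm_eq_abs, h8, mul_assoc]
    have h7 := norm_aa1 ht x
    have : |ww b x| * ‖aa1 t x‖ ≤ 1 / 200 * 2 := by
      apply mul_le_mul _ _ (norm_nonneg _) (by norm_num) <;> linarith
    linarith
  have h4 : ‖2 * (ww b x : ℂ)‖ ≤ 1 / 100 := by
    rw [norm_mul, Complex.norm_real, Real.norm_eq_abs, h8]; linarith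
  linarith

lemma norm_DB {b p n t : ℝ} {k G : ℝ → ℂ} (h : KG b p n t k G) (s : Small b p n t) (x : ℝ) :
    ‖DB b p n t k x‖ ≤ 3 * p := by
  have h1 := DB_near h s x
  obtain ⟨hb, hb', ht, ht', hp, hp', hn, hn'⟩ := s
  have h2 : ‖(p : ℂ) * bet0 b t x‖ ≤ p * (21 / 10) := by
    rw [norm_mul, Complex.norm_real, Real.norm_of_nonneg hp.le]
    exact mul_le_mul_of_nonneg_left (norm_bet0 hb hb' ht ht' x) hp.le
  have : ‖DB b p n t k x‖ ≤ ‖DB b p n t k x - p * bet0 b t x‖ + ‖(p : ℂ) * bet0 b t x‖ := by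
    calc _ = ‖(DB b p n t k x - p * bet0 b t x) + p * bet0 b t x‖ := by rw [sub_add_cancel]
      _ ≤ _ := norm_add_le _ _
  nlinarith

/-- all data of (L1). -/
structure Dat (b p n t : ℝ) (k G : ℝ → ℂ) (g g' : ℝ → ℝ) (τ Q : ℝ → ℂ) : Prop where
  kg : KG b p n t k G
  s : Small b p n t
  gd : ∀ x, HasDerivAt g (g' x) x
  gc : Continuous g'
  gper : ∀ x, g (x + 2 * π) = g x
  gint : ∫ x in (0 : ℝ)..(2 * π), g x = 0
  tper : ∀ x, τ (x + 2 * π) = τ x
  Qper : ∀ x, Q (x + 2 * π) = Q x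
  ht : ∀ x, HasDerivAt τ (Q x / (rho b x : ℂ) - Complex.I * p * τ x) x
  hQ : ∀ x, HasDerivAt Q (g' x * Bf b p t G x + n ^ 2 * rho b x * τ x - Complex.I * p * Q x) x

section
variable {b p n t : ℝ} {k G : ℝ → ℂ} {g g' : ℝ → ℝ} {τ Q : ℝ → ℂ}

lemma Dat.cg (D : Dat b p n t k G g g' τ Q) : Continuous g :=
  continuous_iff_continuousAt.2 fun y => (D.gd y).continuousAt
lemma Dat.ct (D : Dat b p n t k G g g' τ Q) : Continuous τ :=
  continuous_iff_continuousAt.2 fun y => (D.ht y).continuousAt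
lemma Dat.cQ (D : Dat b p n t k G g g' τ Q) : Continuous Q :=
  continuous_iff_continuousAt.2 fun y => (D.hQ y).continuousAt

/-- the remainder -/
noncomputable def Rr (b p t : ℝ) (G : ℝ → ℂ) (g : ℝ → ℝ) (Q : ℝ → ℂ) (x : ℝ) : ℂ :=
  Q x - g x * Bf b p t G x

noncomputable def tg (b t : ℝ) (g : ℝ → ℝ) : ℂ := mean (fun x => g x * bet0 b t x)

noncomputable def G1 (g : ℝ → ℝ) : ℝ := ∫ x in (0 : ℝ)..(2 * π), |g x|

lemma G1_nonneg (g : ℝ → ℝ) : 0 ≤ G1 g :=
  intervalIntegral.integral_nonneg (by positivity) fun _ _ => abs_nonneg _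

lemma hasDerivAt_R (D : Dat b p n t k G g g' τ Q) (x : ℝ) :
    HasDerivAt (Rr b p t G g Q) ((n ^ 2 * rho b x * τ x - g x * DB b p n t k x)
      - Complex.I * p * Rr b p t G g Q x) x := by
  have h1 := (D.hQ x).sub ((D.gd x).ofReal_comp.mul (hasDerivAt_Bf D.kg x))
  refine h1.congr_deriv ?_
  unfold Rr; ring

lemma mean_norm_G1 {f : ℝ → ℂ} (hg : Continuous g) (hf : Continuous f) {M : ℝ}
    (hM : ∀ x, ‖f x‖ ≤ M) : ‖mean (fun x => g x * f x)‖ ≤ (2 * π)⁻¹ * (M * G1 g) := by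
  refine mean_norm_le.trans ?_
  refine mul_le_mul_of_nonneg_left ?_ (by positivity)
  unfold G1
  rw [← intervalIntegral.integral_const_mul]
  apply integral_mono_on (by positivity)
  · exact Continuous.intervalIntegrable (by fun_prop) _ _
  · exact Continuous.intervalIntegrable (by fun_prop) _ _
  · intro x _
    rw [norm_mul, Complex.norm_real, Real.norm_eq_abs, mul_comm]
    exact mul_le_mul_of_nonneg_right (hM x) (abs_nonneg _)

lemma norm_tg (D : Dat b p n t k G g g' τ Q) : ‖tg b t g‖ ≤ G1 g / 2 := by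
  have h := mean_norm_G1 D.cg (cont_bet0 b t) (norm_bet0 D.s.hb D.s.hb' D.s.ht D.s.ht')
  refine h.trans ?_
  have h1 := G1_nonneg g
  have h2 : (2 * π)⁻¹ ≤ 1 / 6 := by
    rw [inv_le_comm₀ (by positivity) (by norm_num)]
    have := pi_gt_three; norm_num; linarith
  nlinarith

lemma key_est (D : Dat b p n t k G g g' τ Q) :
    (∀ x, ‖Rr b p t G g Q x - Complex.I * tg b t g‖ ≤ 14 * p * G1 g) ∧
    (∫ x in (0 : ℝ)..(2 * π), ‖Q x‖) ≤ 5 * G1 g ∧
    (∀ x, p * ‖τ x‖ ≤ 3 * G1 g) ∧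
    (∀ x, ‖p * τ x + Complex.I * mean (fun x => Q x / (rho b x : ℂ))‖ ≤ 40 * p * G1 g) := by
  have hBn := norm_Bf D.kg D.s
  have hDBn := norm_DB D.kg D.s
  have hDBa := DB_near D.kg D.s
  have htg := norm_tg D
  have hg1 := G1_nonneg g
  have hcg := D.cg
  have hct := D.ct
  have hcQ := D.cQ
  have hck := D.kg.ck
  have hcG := D.kg.cG
  have hcB := cont_Bf (b := b) (p := p) (t := t) hcG
  have hcDB := cont_DB (b := b) (p := p) (n := n) (t := t) hck
  obtain ⟨x0, hx0⟩ := exists_max D.tper hct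
  have hs := D.s
  obtain ⟨hb, hb', ht, ht', hp, hp', hn, hn'⟩ := hs
  set T0 := ‖τ x0‖ with hT0
  have hT0n : 0 ≤ T0 := norm_nonneg _
  set g1 := G1 g with hg1d
  have hpi := pi_pos
  have hpi2 := pi_lt_d2
  have hpi3 := pi_gt_three
  have hn2 : n ^ 2 ≤ p ^ 4 := by
    calc n ^ 2 ≤ (p ^ 2) ^ 2 := by gcongr
      _ = p ^ 4 := by ring
  -- n² ρ τ
  have hrt : ∀ x, ‖(n : ℂ) ^ 2 * rho b x * τ x‖ ≤ 2 * (n ^ 2 * T0) := fun y => by
    rw [norm_mul, norm_mul, norm_pow, Complex.norm_real, Complex.norm_real,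
      Real.norm_of_nonneg hn, Real.norm_of_nonneg (rho_pos b y).le]
    have h1 := rho_le hb hb' y
    have h2 := hx0 y
    have h4 := (rho_pos b y).le
    calc n ^ 2 * rho b y * ‖τ y‖ ≤ n ^ 2 * 2 * T0 := by gcongr
      _ = _ := by ring
  set N := n ^ 2 * T0 with hN
  have hN0 : 0 ≤ N := by positivity
  -- R
  have hRper : ∀ x, Rr b p t G g Q (x + 2 * π) = Rr b p t G g Q x := fun x => by
    unfold Rr; rw [D.Qper, D.gper, per_Bf D.kg]
  have hRd := hasDerivAt_R D
  have hfc : Continuous (fun x => (n : ℂ) ^ 2 * rho b x * τ x - g x * DB b p n t k x) := by fun_prop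
  have hR1 := apri hp.le (by linarith) hRper hRd hfc
  have hR2 := apri_mean hRper hRd hfc
  have hfint : ∫ x in (0 : ℝ)..(2 * π), ‖(n : ℂ) ^ 2 * rho b x * τ x - g x * DB b p n t k x‖ ≤
      2 * π * (2 * N) + 3 * p * g1 := by
    have h1 : ∫ x in (0 : ℝ)..(2 * π), ‖(n : ℂ) ^ 2 * rho b x * τ x - g x * DB b p n t k x‖ ≤
        ∫ x in (0 : ℝ)..(2 * π), (2 * N + 3 * p * |g x|) := by
      apply integral_mono_on (by positivity)
      · exact Continuous.intervalIntegrable (by fun_prop) _ _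
      · exact Continuous.intervalIntegrable (by fun_prop) _ _
      · intro x _
        refine (norm_sub_le _ _).trans (add_le_add (hrt x) ?_)
        rw [norm_mul, Complex.norm_real, Real.norm_eq_abs, mul_comm]
        exact mul_le_mul_of_nonneg_right (hDBn x) (abs_nonneg _)
    refine h1.trans ?_
    have e3 : ∫ x in (0 : ℝ)..(2 * π), 3 * p * |g x| = 3 * p * g1 :=
      intervalIntegral.integral_const_mul _ _
    rw [intervalIntegral.integral_add (by simp) (Continuous.intervalIntegrable (by fun_prop) _ _),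
      e3, intervalIntegral.integral_const, sub_zero, smul_eq_mul]
  have hRm : ‖mean (Rr b p t G g Q) - Complex.I * tg b t g‖ ≤ 2 * N / p + p * g1 := by
    have e : Complex.I * p * (mean (Rr b p t G g Q) - Complex.I * tg b t g) =
        mean (fun x => (n : ℂ) ^ 2 * rho b x * τ x)
        + (-1) * mean (fun x => g x * (DB b p n t k x - p * bet0 b t x)) := by
      have e1 : mean (fun x => (n : ℂ) ^ 2 * rho b x * τ x - g x * DB b p n t k x) =
          mean (fun x => (n : ℂ) ^ 2 * rho b x * τ x)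
          + (-1) * mean (fun x => g x * (DB b p n t k x - p * bet0 b t x))
          + (-p) * tg b t g := by
        unfold tg
        rw [← mean_const_mul, ← mean_const_mul, ← mean_add (by fun_prop) (by fun_prop),
          ← mean_add (by fun_prop) (by fun_prop)]
        congr 1; funext x; ring
      rw [e1] at hR2
      linear_combination hR2 - (p : ℂ) * tg b t g * Complex.I_sq
    have h1 : ‖Complex.I * p * (mean (Rr b p t G g Q) - Complex.I * tg b t g)‖ ≤
        2 * N + p ^ 2 * g1 := by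
      rw [e]
      refine (norm_add_le _ _).trans (add_le_add (mean_sup hrt) ?_)
      rw [norm_mul, norm_neg, norm_one, one_mul]
      refine (mean_norm_G1 hcg (by fun_prop) hDBa).trans ?_
      have h2 : (2 * π)⁻¹ ≤ 1 / 6 := by
        rw [inv_le_comm₀ (by positivity) (by norm_num)]; norm_num; linarith
      calc (2 * π)⁻¹ * (6 * p ^ 2 * G1 g) ≤ 1 / 6 * (6 * p ^ 2 * G1 g) := by gcongr
        _ = p ^ 2 * g1 := by rw [hg1d]; ring
    rw [norm_mul, norm_mul, Complex.norm_I, one_mul, Complex.norm_real,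
      Real.norm_of_nonneg hp.le] at h1
    have h2 : p * (2 * N / p + p * g1) = 2 * N + p ^ 2 * g1 := by field_simp
    rw [← h2] at h1
    exact le_of_mul_le_mul_left h1 hp
  have hNp : 51 * N ≤ N / p := by
    rw [le_div_iff₀ hp]
    have := mul_le_mul_of_nonneg_left hp' hN0
    linarith
  have hR3 : ∀ x, ‖Rr b p t G g Q x - Complex.I * tg b t g‖ ≤ 3 * (N / p) + 13 * p * g1 := fun x => by
    have h1 := hR1 x
    have h2 : ‖Rr b p t G g Q x - Complex.I * tg b t g‖ ≤
        ‖Rr b p t G g Q x - mean (Rr b p t G g Q)‖ + ‖mean (Rr b p t G g Q) - Complex.I * tg b t g‖ := by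
      calc _ = ‖(Rr b p t G g Q x - mean (Rr b p t G g Q))
            + (mean (Rr b p t G g Q) - Complex.I * tg b t g)‖ := by congr 1; ring
        _ ≤ _ := norm_add_le _ _
    have h3 : 2 * N / p = 2 * (N / p) := by ring
    rw [h3] at hRm
    have h4 : 16 * π * N ≤ 51 * N := mul_le_mul_of_nonneg_right (by linarith) hN0
    linarith
  -- bound of Q
  have hQeq : ∀ x, Q x = g x * Bf b p t G x + Rr b p t G g Q x := fun x => by unfold Rr; ring
  have hRn : ∀ x, ‖Rr b p t G g Q x‖ ≤ g1 / 2 + 3 * (N / p) + 13 * p * g1 := fun x => by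
    have h1 := hR3 x
    have h2 : ‖Rr b p t G g Q x‖ ≤ ‖Rr b p t G g Q x - Complex.I * tg b t g‖
        + ‖Complex.I * tg b t g‖ := by
      calc _ = ‖(Rr b p t G g Q x - Complex.I * tg b t g) + Complex.I * tg b t g‖ := by
            rw [sub_add_cancel]
        _ ≤ _ := norm_add_le _ _
    rw [norm_mul, Complex.norm_I, one_mul] at h2
    linarith
  have hRc : Continuous (Rr b p t G g Q) := by unfold Rr; fun_prop
  have hQint : (∫ x in (0 : ℝ)..(2 * π), ‖Q x‖) ≤ 4 * g1 + 19 * (N / p) := by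
    have h1 : (∫ x in (0 : ℝ)..(2 * π), ‖Q x‖) ≤
        ∫ x in (0 : ℝ)..(2 * π), ((1 / 50) * |g x| + (g1 / 2 + 3 * (N / p) + 13 * p * g1)) := by
      apply integral_mono_on (by positivity)
      · exact Continuous.intervalIntegrable (by fun_prop) _ _
      · exact Continuous.intervalIntegrable (by fun_prop) _ _
      · intro x _
        rw [hQeq x]
        refine (norm_add_le _ _).trans (add_le_add ?_ (hRn x))
        rw [norm_mul, Complex.norm_real, Real.norm_eq_abs, mul_comm]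
        exact mul_le_mul_of_nonneg_right (hBn x) (abs_nonneg _)
    refine h1.trans ?_
    have e3 : ∫ x in (0 : ℝ)..(2 * π), (1 / 50) * |g x| = (1 / 50) * g1 :=
      intervalIntegral.integral_const_mul _ _
    rw [intervalIntegral.integral_add (Continuous.intervalIntegrable (by fun_prop) _ _) (by simp),
      e3, intervalIntegral.integral_const, sub_zero, smul_eq_mul]
    have hNp0 : 0 ≤ N / p := by positivity
    have h2 : 2 * π * (g1 / 2 + 3 * (N / p) + 13 * p * g1) ≤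
        2 * 3.15 * (g1 / 2 + 3 * (N / p) + 13 * p * g1) := by gcongr
    have h3 : p * g1 ≤ g1 / 1000 := by
      have := mul_le_mul_of_nonneg_right hp' hg1
      linarith
    linarith
  -- bound of τ
  have htd := D.ht
  have hcQr : Continuous (fun x => Q x / (rho b x : ℂ)) := cont_div_rho hcQ
  have ht1 := apri hp.le (by linarith) D.tper htd hcQr
  have ht2 := apri_mean D.tper htd hcQr
  have hQr : (∫ x in (0 : ℝ)..(2 * π), ‖Q x / (rho b x : ℂ)‖) ≤
      2 * ∫ x in (0 : ℝ)..(2 * π), ‖Q x‖ := by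
    rw [← intervalIntegral.integral_const_mul]
    apply integral_mono_on (by positivity)
    · exact Continuous.intervalIntegrable (by fun_prop) _ _
    · exact Continuous.intervalIntegrable (by fun_prop) _ _
    · intro x _; exact norm_div_rho hb hb' _ x
  set Q1 := ∫ x in (0 : ℝ)..(2 * π), ‖Q x‖ with hQ1
  have hQ10 : 0 ≤ Q1 := intervalIntegral.integral_nonneg (by positivity) fun _ _ => norm_nonneg _
  have hm : ‖mean (fun x => Q x / (rho b x : ℂ))‖ ≤ 1 / 3 * Q1 := by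
    refine mean_norm_le.trans ?_
    have h2 : (2 * π)⁻¹ ≤ 1 / 6 := by
      rw [inv_le_comm₀ (by positivity) (by norm_num)]; norm_num; linarith
    calc _ ≤ 1 / 6 * (2 * Q1) := mul_le_mul h2 hQr
          (intervalIntegral.integral_nonneg (by positivity) fun _ _ => norm_nonneg _) (by norm_num)
      _ = _ := by ring
  have hmt : p * ‖mean τ‖ ≤ 1 / 3 * Q1 := by
    rw [← ht2, norm_mul, norm_mul, Complex.norm_I, one_mul, Complex.norm_real,
      Real.norm_of_nonneg hp.le] at hm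
    exact hm
  have hpT : p * T0 ≤ 1 / 2 * Q1 := by
    have h1 := ht1 x0
    have h2 : T0 ≤ ‖τ x0 - mean τ‖ + ‖mean τ‖ := by
      calc T0 = ‖(τ x0 - mean τ) + mean τ‖ := by rw [sub_add_cancel]
        _ ≤ _ := norm_add_le _ _
    have h3 : p * T0 ≤ p * (8 * Q1) + 1 / 3 * Q1 := by
      have h4 : ‖τ x0 - mean τ‖ ≤ 8 * Q1 := by linarith
      have h5 := mul_le_mul_of_nonneg_left h2 hp.le
      have h6 := mul_le_mul_of_nonneg_left h4 hp.le
      rw [mul_add] at h5
      linarith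
    have h7 := mul_le_mul_of_nonneg_right hp' hQ10
    linarith
  have hNp3 : N / p ≤ p ^ 2 * (p * T0) := by
    rw [div_le_iff₀ hp]
    calc N ≤ p ^ 4 * T0 := by rw [hN]; gcongr
      _ = _ := by ring
  have hpT2 : p * T0 ≤ 3 * g1 := by
    have h1 : p * T0 ≤ 2 * g1 + 19 / 2 * (p ^ 2 * (p * T0)) := by linarith
    have h2 : p ^ 2 ≤ 1 / 1000000 := by
      calc p ^ 2 ≤ (1 / 1000) ^ 2 := by gcongr
        _ = 1 / 1000000 := by norm_num
    have h3 : 0 ≤ p * T0 := by positivity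
    have h4 := mul_le_mul_of_nonneg_right h2 h3
    linarith
  have hNp4 : N / p ≤ p * g1 / 300 := by
    refine hNp3.trans ?_
    calc p ^ 2 * (p * T0) ≤ p ^ 2 * (3 * g1) := by gcongr
      _ = (3 * p) * (p * g1) := by ring
      _ ≤ (1 / 300) * (p * g1) := by gcongr; linarith
      _ = _ := by ring
  have hQ5 : Q1 ≤ 5 * g1 := by
    have := mul_le_mul_of_nonneg_right hp' hg1
    linarith
  refine ⟨fun x => ?_, hQ5, fun x => ?_, fun x => ?_⟩
  · have := hR3 x
    have h3 : 0 ≤ p * g1 := by positivity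
    linarith
  · have := hx0 x
    calc p * ‖τ x‖ ≤ p * T0 := by gcongr
      _ ≤ _ := hpT2
  · have e : p * τ x + Complex.I * mean (fun x => Q x / (rho b x : ℂ)) = p * (τ x - mean τ) := by
      rw [← ht2]
      linear_combination (p : ℂ) * mean τ * Complex.I_sq
    rw [e, norm_mul, Complex.norm_real, Real.norm_of_nonneg hp.le]
    have := ht1 x
    have h2 : ‖τ x - mean τ‖ ≤ 40 * g1 := by linarith
    calc p * ‖τ x - mean τ‖ ≤ p * (40 * g1) := by gcongr
      _ = _ := by ring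

end

end Run7.h998.EL
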