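import Mathlib
import Pool.Agent.Run7.h998.EL.Asy2

open Real MeasureTheory intervalIntegral Set

namespace Run7.h998.EL

open Run7.h117

lemma CC_tr (b p t : ℝ) (a c : ℝ → ℝ) : CC b p t (tr a c) =
    (1 / 2) * ∫ x in (0 : ℝ)..(2 * π), ww b x * (rho b x)⁻¹ * (A0 p t x * a x + C0 p t x * c x) := by
  unfold CC
  rw [← intervalIntegral.integral_const_mul]
  congr 1
  funext x
  have h1 : mY (fun x y => m1 b p t x y * tr a c x y) x =
      (2 * π)⁻¹ * ((rho b x)⁻¹ * (π * (A0 p t x * a x + C0 p t x * c x))) := by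
    unfold mY
    congr 1
    have e : ∀ y, m1 b p t x y * tr a c x y = (rho b x)⁻¹ * (tr (A0 p t) (C0 p t) x y * tr a c x y) :=
      fun y => by unfold m1; rw [AA_tr]; ring
    simp_rw [e]
    rw [intervalIntegral.integral_const_mul, int_tr_mul]
  rw [h1]
  field_simp

/-- the derivative of `conj Â * k`. -/
lemma cc_parts {b p n t : ℝ} {a c : ℝ → ℝ} {G : ℝ → ℂ}
    (h : KG b p n t (fun x => (a x : ℂ) - Complex.I * (c x : ℂ)) G) :
    CC b p t (tr a c) = (1 / 4) * ∫ x in (0 : ℝ)..(2 * π), (rho b x)⁻¹ *
      (p * (starRingEnd ℂ) (aa1 t x) * ((a x : ℂ) - Complex.I * (c x : ℂ))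
        + (starRingEnd ℂ) (Ah p t x) * (G x / (rho b x : ℂ)
            - Complex.I * p * ((a x : ℂ) - Complex.I * (c x : ℂ)))).re := by
  rw [CC_tr]
  set k : ℝ → ℂ := fun x => (a x : ℂ) - Complex.I * (c x : ℂ) with hk
  have hR : ∀ x, A0 p t x * a x + C0 p t x * c x = ((starRingEnd ℂ) (Ah p t x) * k x).re := by
    intro x
    rw [Ah_eq]
    simp [hk]
  have hAd : ∀ x, HasDerivAt (Ah p t) (p * aa1 t x) x := fun x => by
    have := ((hasDerivAt_aa t x).const_mul (p : ℂ)).const_add Complex.I
    exact this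
  have hAc : ∀ x, HasDerivAt (fun x => (starRingEnd ℂ) (Ah p t x)) (p * (starRingEnd ℂ) (aa1 t x)) x :=
    fun x => by
      have h1 := (hAd x)
      have h2 := (Complex.conjCLE.toContinuousLinearMap.hasFDerivAt
        (x := Ah p t x)).comp_hasDerivAt x h1
      refine h2.congr_deriv ?_
      simp
  set D : ℝ → ℂ := fun x => p * (starRingEnd ℂ) (aa1 t x) * k x
        + (starRingEnd ℂ) (Ah p t x) * (G x / (rho b x : ℂ) - Complex.I * p * k x) with hD
  have hP : ∀ x, HasDerivAt (fun x => (starRingEnd ℂ) (Ah p t x) * k x) (D x) x := fun x => by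
    have := (hAc x).mul (h.hk x)
    exact this
  have hPr : ∀ x, HasDerivAt (fun x => ((starRingEnd ℂ) (Ah p t x) * k x).re) (D x).re x := fun x => by
    have h2 := (Complex.reCLM.hasFDerivAt (x := (starRingEnd ℂ) (Ah p t x) * k x)).comp_hasDerivAt x
      (hP x)
    exact h2
  have hkc : Continuous k := h.ck
  have hGc : Continuous G := h.cG
  have hconj : Continuous (fun z : ℂ => (starRingEnd ℂ) z) := Complex.continuous_conj
  have hDc : Continuous D := by
    have c1 : Continuous (fun x => G x / (rho b x : ℂ)) := cont_div_rho hGc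
    have c2 : Continuous (fun x => (starRingEnd ℂ) (aa1 t x)) := hconj.comp (cont_aa1 t)
    have c3 : Continuous (fun x => (starRingEnd ℂ) (Ah p t x)) := by
      apply hconj.comp; unfold Ah; fun_prop
    simp only [hD]; fun_prop
  have hDrc : Continuous (fun x => (D x).re) := Complex.continuous_re.comp hDc
  have hPc : Continuous (fun x => ((starRingEnd ℂ) (Ah p t x) * k x).re) :=
    continuous_iff_continuousAt.2 fun y => (hPr y).continuousAt
  have hper : ((starRingEnd ℂ) (Ah p t (2 * π)) * k (2 * π)).re =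
      ((starRingEnd ℂ) (Ah p t 0) * k 0).re := by
    have h1 : k (2 * π) = k 0 := by simpa using h.kper 0
    have h2 : Ah p t (2 * π) = Ah p t 0 := by
      have e1 := per_ea 0
      have e2 := per_eb 0
      rw [zero_add] at e1 e2
      simp only [Ah, aa, e1, e2]
    rw [h1, h2]
  have hint := integral_eq_sub_of_hasDerivAt (a := 0) (b := 2 * π)
    (fun x _ => (hasDerivAt_rho_inv b x).mul (hPr x))
    (by
      have := cont_rho_inv b
      exact Continuous.intervalIntegrable (by fun_prop) _ _)
  have hr : rho b (2 * π) = rho b 0 := by simpa using per_rho b 0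
  simp only [Pi.mul_apply] at hint
  rw [hper, hr, sub_self] at hint
  rw [intervalIntegral.integral_add] at hint
  · simp_rw [hR]
    have e1 : ∫ x in (0 : ℝ)..(2 * π), -2 * ww b x * (rho b x)⁻¹ *
        ((starRingEnd ℂ) (Ah p t x) * k x).re = -2 * ∫ x in (0 : ℝ)..(2 * π),
          ww b x * (rho b x)⁻¹ * ((starRingEnd ℂ) (Ah p t x) * k x).re := by
      rw [← intervalIntegral.integral_const_mul]
      congr 1; funext x; ring
    rw [e1] at hint
    linarith
  · have := cont_rho_inv b
    exact Continuous.intervalIntegrable (by fun_prop) _ _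
  · have := cont_rho_inv b
    exact Continuous.intervalIntegrable (by fun_prop) _ _

/-- limit integrand -/
noncomputable def ell (b t x : ℝ) : ℝ :=
  ((starRingEnd ℂ) (aa1 t x) * (om b t * r1 b) + (ww b x + om b t) / (rho b x : ℂ)
    - om b t * r1 b).re

lemma cc_asym {b p n t : ℝ} {a c : ℝ → ℝ} {G : ℝ → ℂ}
    (h : KG b p n t (fun x => (a x : ℂ) - Complex.I * (c x : ℂ)) G) (s : Small b p n t) :
    |CC b p t (tr a c) - (1 / 4) * ∫ x in (0 : ℝ)..(2 * π), (rho b x)⁻¹ * ell b t x| ≤ 46 * p := by
  rw [cc_parts h]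
  set k : ℝ → ℂ := fun x => (a x : ℂ) - Complex.I * (c x : ℂ) with hk
  have hGa := G_asym h s
  have hGn := norm_G_le h s
  have hka := k_asym h s
  have hkb := k_bound h s
  obtain ⟨hb, hb', ht, ht', hp, hp', hn, hn'⟩ := s
  set D : ℝ → ℂ := fun x => p * (starRingEnd ℂ) (aa1 t x) * k x
        + (starRingEnd ℂ) (Ah p t x) * (G x / (rho b x : ℂ) - Complex.I * p * k x) with hD
  set Lc : ℝ → ℂ := fun x => (starRingEnd ℂ) (aa1 t x) * (om b t * r1 b)
    + (ww b x + om b t) / (rho b x : ℂ) - om b t * r1 b with hLc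
  have hkc : Continuous k := h.ck
  have hGc : Continuous G := h.cG
  have hconj : Continuous (fun z : ℂ => (starRingEnd ℂ) z) := Complex.continuous_conj
  have hcr := cont_rho_inv b
  have hDc : Continuous D := by
    have c1 : Continuous (fun x => G x / (rho b x : ℂ)) := cont_div_rho hGc
    have c2 : Continuous (fun x => (starRingEnd ℂ) (aa1 t x)) := hconj.comp (cont_aa1 t)
    have c3 : Continuous (fun x => (starRingEnd ℂ) (Ah p t x)) := by
      apply hconj.comp; unfold Ah; fun_prop
    simp only [hD]; fun_prop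
  have hLcc : Continuous Lc := by
    have c1 : Continuous (fun x => ((ww b x : ℂ) + om b t) / (rho b x : ℂ)) :=
      cont_div_rho (by fun_prop)
    have c2 : Continuous (fun x => (starRingEnd ℂ) (aa1 t x)) := hconj.comp (cont_aa1 t)
    simp only [hLc]; fun_prop
  have hdiff : ∀ x, ‖D x - Lc x‖ ≤ 14 * p := by
    intro x
    have hr0 : (rho b x : ℂ) ≠ 0 := by exact_mod_cast (rho_pos b x).ne'
    have e : D x - Lc x = (starRingEnd ℂ) (aa1 t x) * (p * k x - om b t * r1 b)
        + (((starRingEnd ℂ) (Ah p t x) + Complex.I) * (G x / (rho b x : ℂ) - Complex.I * (p * k x))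
        + (-Complex.I * ((G x - Complex.I * (ww b x + om b t)) / (rho b x : ℂ))
          - (p * k x - om b t * r1 b))) := by
      simp only [hD, hLc]
      field_simp
      linear_combination ((p : ℂ) * k x * (rho b x : ℂ) - (ww b x + om b t)) * Complex.I_sq
    rw [e]
    have b1 : ‖(starRingEnd ℂ) (aa1 t x) * (p * k x - om b t * r1 b)‖ ≤ 2 * (3 * p) := by
      rw [norm_mul, RCLike.norm_conj]
      have := norm_aa1 ht x
      exact mul_le_mul (by linarith) (hka x) (norm_nonneg _) (by norm_num)
    have b2 : ‖((starRingEnd ℂ) (Ah p t x) + Complex.I) *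
        (G x / (rho b x : ℂ) - Complex.I * (p * k x))‖ ≤ (2 * p) * (103 / 100) := by
      rw [norm_mul]
      refine mul_le_mul ?_ ?_ (norm_nonneg _) (by positivity)
      · have e2 : (starRingEnd ℂ) (Ah p t x) + Complex.I = p * (starRingEnd ℂ) (aa t x) := by
          unfold Ah; simp
        rw [e2, norm_mul, RCLike.norm_conj, Complex.norm_real, Real.norm_of_nonneg hp.le]
        have := norm_aa ht x
        nlinarith
      · refine (norm_sub_le _ _).trans ?_
        have h1 := norm_div_rho hb hb' (G x) x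
        have h2 := hGn x
        have h3 : ‖Complex.I * (p * k x)‖ ≤ 1 := by
          rw [norm_mul, Complex.norm_I, one_mul, norm_mul, Complex.norm_real,
            Real.norm_of_nonneg hp.le]
          have := hkb x
          rw [le_div_iff₀ hp] at this
          linarith
        linarith
    have b3 : ‖-Complex.I * ((G x - Complex.I * (ww b x + om b t)) / (rho b x : ℂ))
          - (p * k x - om b t * r1 b)‖ ≤ 2 * p + 3 * p := by
      refine (norm_sub_le _ _).trans (add_le_add ?_ (hka x))
      rw [norm_mul, norm_neg, Complex.norm_I, one_mul]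
      exact (norm_div_rho hb hb' _ x).trans (mul_le_mul_of_nonneg_left (hGa x) (by norm_num))
    refine (norm_add_le _ _).trans ?_
    have := (norm_add_le (((starRingEnd ℂ) (Ah p t x) + Complex.I) *
        (G x / (rho b x : ℂ) - Complex.I * (p * k x)))
        (-Complex.I * ((G x - Complex.I * (ww b x + om b t)) / (rho b x : ℂ))
          - (p * k x - om b t * r1 b)))
    linarith
  rw [← mul_sub, ← intervalIntegral.integral_sub]
  · rw [abs_mul, abs_of_pos (by norm_num : (0 : ℝ) < 1 / 4)]
    have hb1 : ∀ x ∈ Set.uIoc (0 : ℝ) (2 * π), ‖(rho b x)⁻¹ * (D x).re - (rho b x)⁻¹ * ell b t x‖ ≤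
        2 * (14 * p) := by
      intro x _
      rw [← mul_sub, norm_mul, Real.norm_of_nonneg (inv_nonneg.2 (rho_pos b x).le)]
      refine mul_le_mul (rho_inv_le hb hb' x) ?_ (norm_nonneg _) (by norm_num)
      have : (D x).re - ell b t x = (D x - Lc x).re := by
        rw [Complex.sub_re]; rfl
      rw [this, Real.norm_eq_abs]
      exact (Complex.abs_re_le_norm _).trans (hdiff x)
    have := intervalIntegral.norm_integral_le_of_norm_le_const hb1
    rw [Real.norm_eq_abs, sub_zero, abs_of_pos (by positivity : (0 : ℝ) < 2 * π)] at this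
    have hpi := pi_lt_d2
    nlinarith
  · exact (hcr.mul (Complex.continuous_re.comp hDc)).intervalIntegrable _ _
  · have h2 : Continuous (fun x => ell b t x) := Complex.continuous_re.comp hLcc
    exact Continuous.intervalIntegrable (by fun_prop) _ _

end Run7.h998.EL
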