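import Mathlib
import Pool.Agent.Run7.h998.EL.L2

open Real MeasureTheory intervalIntegral Set

namespace Run7.h998.EL

open Run7.h117

noncomputable def R1 (b : ℝ) : ℝ := ∫ x in (0 : ℝ)..(2 * π), (rho b x)⁻¹
noncomputable def R2 (b : ℝ) : ℝ := ∫ x in (0 : ℝ)..(2 * π), (rho b x)⁻¹ ^ 2
noncomputable def Rc (b : ℝ) : ℝ := ∫ x in (0 : ℝ)..(2 * π), (rho b x)⁻¹ * cos x

lemma int_of_deriv {F F' : ℝ → ℝ} (hper : ∀ x, F (x + 2 * π) = F x)
    (hd : ∀ x, HasDerivAt F (F' x) x) (hc : Continuous F') :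
    ∫ x in (0 : ℝ)..(2 * π), F' x = 0 := by
  rw [integral_eq_sub_of_hasDerivAt (fun s _ => hd s) (hc.intervalIntegrable _ _)]
  have : F (2 * π) = F 0 := by simpa using hper 0
  rw [this, sub_self]

lemma Rs_zero {b : ℝ} (hb : 0 < b) : ∫ x in (0 : ℝ)..(2 * π), (rho b x)⁻¹ * sin x = 0 := by
  apply int_of_deriv (F := fun x => b⁻¹ * (rho b x)⁻¹) (fun x => by rw [per_rho])
  · intro x
    have := (hasDerivAt_rho_inv b x).const_mul b⁻¹
    refine this.congr_deriv ?_
    unfold ww; field_simp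
  · have := cont_rho_inv b; fun_prop

lemma Rw_zero (b : ℝ) : ∫ x in (0 : ℝ)..(2 * π), (rho b x)⁻¹ ^ 2 * ww b x = 0 := by
  apply int_of_deriv (F := fun x => -(1 / 4) * (rho b x)⁻¹ ^ 2) (fun x => by rw [per_rho])
  · intro x
    have := ((hasDerivAt_rho_inv b x).pow 2).const_mul (-(1 / 4))
    refine this.congr_deriv ?_
    push_cast; ring
  · have := cont_rho_inv b; fun_prop

lemma ell_eq (b t x : ℝ) : ell b t x =
    (b / 4) * r1 b * (-(1 + t ^ 2) * sin x - 2 * t * cos x) + (ww b x - b / 4) * (rho b x)⁻¹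
      + (b / 4) * r1 b := by
  have e1 : (ww b x + om b t) / (rho b x : ℂ) = (ww b x + om b t) * (((rho b x)⁻¹ : ℝ) : ℂ) := by
    push_cast; rw [div_eq_mul_inv]
  unfold ell
  rw [e1]
  simp only [aa1, om, ea_eq, eb_eq]
  simp [Complex.sin_ofReal_re, Complex.cos_ofReal_re, Complex.sin_ofReal_im,
    Complex.cos_ofReal_im]
  ring

lemma L_val {b : ℝ} (hb : 0 < b) (t : ℝ) :
    (1 / 4) * ∫ x in (0 : ℝ)..(2 * π), (rho b x)⁻¹ * ell b t x =
      (b / 16) * (-(R2 b - r1 b * R1 b) - 2 * t * r1 b * Rc b) := by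
  have hcr := cont_rho_inv b
  have e : ∀ x, (rho b x)⁻¹ * ell b t x =
      (-(b / 4) * r1 b * (1 + t ^ 2)) * ((rho b x)⁻¹ * sin x)
      + (-(b / 4) * r1 b * 2 * t) * ((rho b x)⁻¹ * cos x)
      + (rho b x)⁻¹ ^ 2 * ww b x + (-(b / 4)) * (rho b x)⁻¹ ^ 2 + ((b / 4) * r1 b) * (rho b x)⁻¹ := by
    intro x; rw [ell_eq]; ring
  simp_rw [e]
  rw [intervalIntegral.integral_add, intervalIntegral.integral_add, intervalIntegral.integral_add,
    intervalIntegral.integral_add, intervalIntegral.integral_const_mul,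
    intervalIntegral.integral_const_mul, intervalIntegral.integral_const_mul,
    intervalIntegral.integral_const_mul, Rs_zero hb, Rw_zero]
  · change _ = (b / 16) * (-(R2 b - r1 b * R1 b) - 2 * t * r1 b * Rc b)
    simp only [R2, R1, Rc]; ring
  all_goals exact Continuous.intervalIntegrable (by fun_prop) _ _

lemma r1_eq (b : ℝ) : 2 * π * r1 b = R1 b := by
  unfold r1 R1
  field_simp

lemma exp3 {u : ℝ} (hu : |u| ≤ 1) : |Real.exp u - (1 + u + u ^ 2 / 2)| ≤ |u| ^ 3 / 4 := by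
  have h := Real.exp_bound hu (n := 3) (by norm_num)
  have e : ∑ m ∈ Finset.range 3, u ^ m / (m.factorial : ℝ) = 1 + u + u ^ 2 / 2 := by
    simp [Finset.sum_range_succ, Nat.factorial]
  rw [e] at h
  refine h.trans ?_
  have : 0 ≤ |u| ^ 3 := by positivity
  norm_num [Nat.factorial]
  nlinarith

lemma int_cos0 : ∫ x in (0 : ℝ)..(2 * π), cos x = 0 := by simp
lemma int_cos2 : ∫ x in (0 : ℝ)..(2 * π), cos x ^ 2 = π := by
  rw [integral_cos_sq]; simp

lemma int_model (α β γ : ℝ) :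
    ∫ x in (0 : ℝ)..(2 * π), (α + β * cos x + γ * cos x ^ 2) = 2 * π * α + π * γ := by
  rw [intervalIntegral.integral_add, intervalIntegral.integral_add,
    intervalIntegral.integral_const_mul, intervalIntegral.integral_const_mul, int_cos0, int_cos2]
  · simp; ring
  all_goals exact Continuous.intervalIntegrable (by fun_prop) _ _

lemma int_close {f g : ℝ → ℝ} (hf : Continuous f) (hg : Continuous g) {δ : ℝ}
    (h : ∀ x, |f x - g x| ≤ δ) :
    |(∫ x in (0 : ℝ)..(2 * π), f x) - ∫ x in (0 : ℝ)..(2 * π), g x| ≤ 2 * π * δ := by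
  rw [← intervalIntegral.integral_sub (hf.intervalIntegrable _ _) (hg.intervalIntegrable _ _)]
  have := intervalIntegral.norm_integral_le_of_norm_le_const (a := 0) (b := 2 * π)
    (f := fun x => f x - g x) (C := δ) (fun x _ => h x)
  rw [Real.norm_eq_abs, sub_zero, abs_of_pos (by positivity : (0 : ℝ) < 2 * π)] at this
  linarith

lemma rho_inv_exp (b x : ℝ) : (rho b x)⁻¹ = Real.exp (-(b * cos x)) := by
  unfold rho; rw [Real.exp_neg]

lemma R1_bd {b : ℝ} (hb : 0 < b) (hb' : b ≤ 1 / 100) :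
    |R1 b - (2 * π + π * (b ^ 2 / 2))| ≤ 2 * π * (b ^ 3 / 4) := by
  have := int_close (f := fun x => (rho b x)⁻¹)
    (g := fun x => 1 + (-b) * cos x + (b ^ 2 / 2) * cos x ^ 2) (cont_rho_inv b) (by fun_prop)
    (δ := b ^ 3 / 4) (fun x => by
      rw [rho_inv_exp]
      have hc := abs_cos_le_one x
      have hu : |-(b * cos x)| ≤ b := by
        rw [abs_neg, abs_mul, abs_of_pos hb]; nlinarith [abs_nonneg (cos x)]
      have h3 := exp3 (u := -(b * cos x)) (hu.trans (by linarith))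
      have h4 : |-(b * cos x)| ^ 3 ≤ b ^ 3 := by gcongr
      have e : 1 + (-b) * cos x + (b ^ 2 / 2) * cos x ^ 2 =
        1 + -(b * cos x) + (-(b * cos x)) ^ 2 / 2 := by ring
      rw [e]
      linarith)
  rw [int_model, mul_one] at this
  exact this

lemma R2_bd {b : ℝ} (hb : 0 < b) (hb' : b ≤ 1 / 100) :
    |R2 b - (2 * π + π * (2 * b ^ 2))| ≤ 2 * π * (2 * b ^ 3) := by
  have hc0 : Continuous (fun x => (rho b x)⁻¹ ^ 2) := (cont_rho_inv b).pow 2
  have := int_close (f := fun x => (rho b x)⁻¹ ^ 2)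
    (g := fun x => 1 + (-(2 * b)) * cos x + (2 * b ^ 2) * cos x ^ 2) hc0 (by fun_prop)
    (δ := 2 * b ^ 3) (fun x => by
      have e0 : (rho b x)⁻¹ ^ 2 = Real.exp (-(2 * b * cos x)) := by
        rw [rho_inv_exp, ← Real.exp_nat_mul]; congr 1; push_cast; ring
      rw [e0]
      have hc := abs_cos_le_one x
      have hu : |-(2 * b * cos x)| ≤ 2 * b := by
        rw [abs_neg, abs_mul, abs_of_pos (by positivity)]; nlinarith [abs_nonneg (cos x)]
      have h3 := exp3 (u := -(2 * b * cos x)) (hu.trans (by linarith))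
      have h4 : |-(2 * b * cos x)| ^ 3 ≤ (2 * b) ^ 3 := by gcongr
      have e : 1 + (-(2 * b)) * cos x + (2 * b ^ 2) * cos x ^ 2 =
        1 + -(2 * b * cos x) + (-(2 * b * cos x)) ^ 2 / 2 := by ring
      rw [e]
      nlinarith)
  rw [int_model, mul_one] at this
  exact this

lemma Rc_bd {b : ℝ} (hb : 0 < b) (hb' : b ≤ 1 / 100) :
    |Rc b - (-(π * b))| ≤ 2 * π * b ^ 2 := by
  have hc0 : Continuous (fun x => (rho b x)⁻¹ * cos x) := (cont_rho_inv b).mul continuous_cos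
  have := int_close (f := fun x => (rho b x)⁻¹ * cos x)
    (g := fun x => 0 + 1 * cos x + (-b) * cos x ^ 2) hc0 (by fun_prop)
    (δ := b ^ 2) (fun x => by
      rw [rho_inv_exp]
      have hc := abs_cos_le_one x
      have hu : |-(b * cos x)| ≤ b := by
        rw [abs_neg, abs_mul, abs_of_pos hb]; nlinarith [abs_nonneg (cos x)]
      have h3 := Real.abs_exp_sub_one_sub_id_le (x := -(b * cos x)) (hu.trans (by linarith))
      have e : Real.exp (-(b * cos x)) * cos x - (0 + 1 * cos x + (-b) * cos x ^ 2) =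
        (Real.exp (-(b * cos x)) - 1 - -(b * cos x)) * cos x := by ring
      rw [e, abs_mul]
      have h4 : (-(b * cos x)) ^ 2 ≤ b ^ 2 := by
        rw [← sq_abs]; gcongr
      calc _ ≤ b ^ 2 * 1 := mul_le_mul (h3.trans h4) hc (abs_nonneg _) (by positivity)
        _ = b ^ 2 := mul_one _)
  rw [int_model] at this
  have e : 2 * π * 0 + π * -b = -(π * b) := by ring
  rw [e] at this
  exact this

/-- numerical consequences. -/
lemma r1_bds {b : ℝ} (hb : 0 < b) (hb' : b ≤ 1 / 100) :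
    1 ≤ r1 b ∧ 1 + 247 / 1000 * b ^ 2 ≤ r1 b ∧ r1 b ≤ 1 + 253 / 1000 * b ^ 2 := by
  have h := R1_bd hb hb'
  rw [← r1_eq, abs_le] at h
  have hpi := pi_pos
  obtain ⟨h1, h2⟩ := h
  have e1 : 2 * π * (1 + b ^ 2 / 4 - b ^ 3 / 4) ≤ 2 * π * r1 b := by linarith
  have e2 : 2 * π * r1 b ≤ 2 * π * (1 + b ^ 2 / 4 + b ^ 3 / 4) := by linarith
  have f1 := le_of_mul_le_mul_left e1 (by positivity)
  have f2 := le_of_mul_le_mul_left e2 (by positivity)
  have hb3 : b ^ 3 ≤ b ^ 2 / 100 := by nlinarith [sq_nonneg b]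
  have hb2 : 0 < b ^ 2 := by positivity
  refine ⟨by nlinarith, by nlinarith, by nlinarith⟩

lemma X_bds {b : ℝ} (hb : 0 < b) (hb' : b ≤ 1 / 100) :
    9 / 10 * (π * b ^ 2) ≤ R2 b - r1 b * R1 b ∧ R2 b - r1 b * R1 b ≤ 11 / 10 * (π * b ^ 2) := by
  obtain ⟨h0, h1, h2⟩ := r1_bds hb hb'
  have h := R2_bd hb hb'
  rw [abs_le] at h
  obtain ⟨g1, g2⟩ := h
  have hpi := pi_pos
  have hb3 : b ^ 3 ≤ b ^ 2 / 100 := by nlinarith [sq_nonneg b]
  have hb2 : 0 < b ^ 2 := by positivity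
  have hb4 : b ^ 2 ≤ 1 / 10000 := by nlinarith
  have sq1 : 1 + 494 / 1000 * b ^ 2 ≤ r1 b * r1 b := by nlinarith
  have sq2 : r1 b * r1 b ≤ 1 + 507 / 1000 * b ^ 2 := by nlinarith
  have e : r1 b * R1 b = 2 * π * (r1 b * r1 b) := by rw [← r1_eq]; ring
  rw [e]
  have k1 : 2 * π * (r1 b * r1 b) ≤ 2 * π * (1 + 507 / 1000 * b ^ 2) := by gcongr
  have k2 : 2 * π * (1 + 494 / 1000 * b ^ 2) ≤ 2 * π * (r1 b * r1 b) := by gcongr
  have k3 : 2 * π * (2 * b ^ 3) ≤ 2 * π * (2 * (b ^ 2 / 100)) := by gcongr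
  constructor <;> nlinarith [mul_pos hpi hb2]

lemma Y_bds {b : ℝ} (hb : 0 < b) (hb' : b ≤ 1 / 100) :
    98 / 100 * (π * b) ≤ -(r1 b * Rc b) := by
  obtain ⟨h0, h1, h2⟩ := r1_bds hb hb'
  have h := Rc_bd hb hb'
  rw [abs_le] at h
  have hpi := pi_pos
  have g : Rc b ≤ -(98 / 100 * (π * b)) := by
    have : 2 * π * b ^ 2 ≤ 2 / 100 * (π * b) := by nlinarith [mul_pos hpi hb]
    linarith [h.2]
  nlinarith [mul_pos hpi hb]

/-- the limit function. -/
noncomputable def Lf (b t : ℝ) : ℝ := (b / 16) * (-(R2 b - r1 b * R1 b) - 2 * t * r1 b * Rc b)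

lemma cc_asym' {b p n t : ℝ} {κ : ℝ → ℝ → ℝ} (h : Lin b p n t κ) (s : Small b p n t) :
    |CC b p t κ - Lf b t| ≤ 46 * p := by
  obtain ⟨a, c, G, _, _, hκ, _, hkg⟩ := lin_kg h
  have := cc_asym hkg s
  rw [L_val s.hb, ← hκ] at this
  exact this

/-- `CC` is a quadratic polynomial in `t` along affine families. -/
lemma cc_quad {b p n : ℝ} {κa κb : ℝ → ℝ → ℝ}
    (h : ∀ t : ℝ, Lin b p n t (fun x y => κa x y + t * κb x y)) :
    ∃ c0 c1 c2 : ℝ, ∀ t : ℝ, CC b p t (fun x y => κa x y + t * κb x y) = c0 + c1 * t + c2 * t ^ 2 := by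
  have hcont : ∀ (t : ℝ) (y : ℝ), Continuous (fun x => κa x y + t * κb x y) := fun t y =>
    (CD_tr (h t).smooth y).continuous
  have ca : ∀ y, Continuous (fun x => κa x y) := fun y => by
    have := hcont 0 y; simpa using this
  have cb : ∀ y, Continuous (fun x => κb x y) := fun y => by
    have := (hcont 1 y).sub (ca y)
    refine this.congr fun x => by simp
  have hr := cont_rho_inv b
  have htr : ∀ t : ℝ, (fun x y => κa x y + t * κb x y) =
      tr (fun x => κa x 0 + t * κb x 0) (fun x => κa x (π / 2) + t * κb x (π / 2)) := fun t =>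
    harm_tr (fun x y => ((CD_y (h t).smooth x).differentiable (by simp)) y) (h t).per.2 (h t).harm
  set f0 : ℝ → ℝ := fun x => ww b x * (rho b x)⁻¹ *
    (-p * cos x * κa x 0 + (-1 + p * sin x) * κa x (π / 2)) with hf0
  set f1 : ℝ → ℝ := fun x => ww b x * (rho b x)⁻¹ *
    (-p * cos x * κb x 0 + (-1 + p * sin x) * κb x (π / 2)
      + p * sin x * κa x 0 - p * cos x * κa x (π / 2)) with hf1
  set f2 : ℝ → ℝ := fun x => ww b x * (rho b x)⁻¹ *
    (p * sin x * κb x 0 - p * cos x * κb x (π / 2)) with hf2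
  have c1 := ca 0
  have c2 := ca (π / 2)
  have c3 := cb 0
  have c4 := cb (π / 2)
  have hf0c : Continuous f0 := by simp only [hf0]; fun_prop
  have hf1c : Continuous f1 := by simp only [hf1]; fun_prop
  have hf2c : Continuous f2 := by simp only [hf2]; fun_prop
  refine ⟨(1 / 2) * ∫ x in (0 : ℝ)..(2 * π), f0 x, (1 / 2) * ∫ x in (0 : ℝ)..(2 * π), f1 x,
    (1 / 2) * ∫ x in (0 : ℝ)..(2 * π), f2 x, fun t => ?_⟩
  rw [htr t, CC_tr]
  have e : ∀ x, ww b x * (rho b x)⁻¹ * (A0 p t x * (κa x 0 + t * κb x 0)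
      + C0 p t x * (κa x (π / 2) + t * κb x (π / 2))) = f0 x + t * f1 x + t ^ 2 * f2 x := by
    intro x; simp only [hf0, hf1, hf2, A0, C0]; ring
  simp_rw [e]
  rw [intervalIntegral.integral_add, intervalIntegral.integral_add,
    intervalIntegral.integral_const_mul, intervalIntegral.integral_const_mul]
  · ring
  all_goals exact Continuous.intervalIntegrable (by fun_prop) _ _

/-- (L2) -/
theorem pieceL2 (b : ℝ) (hb : 0 < b) (hb' : b ≤ 1 / 100) :
    ∃ p₀ > 0, ∀ p, 0 < p → p < p₀ → ∃ n₀ > 0, ∀ n, 0 < n → n < n₀ →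
      ∀ κa κb : ℝ → ℝ → ℝ, (∀ t : ℝ, Lin b p n t (fun x y => κa x y + t * κb x y)) →
        CC b p 0 κa < 0 ∧
        0 < CC b p (3 * b / 4) (fun x y => κa x y + 3 * b / 4 * κb x y) ∧
        ∀ t, 0 ≤ t → t ≤ 3 * b / 4 →
          deriv (fun t : ℝ => CC b p t (fun x y => κa x y + t * κb x y)) t ≠ 0 := by
  refine ⟨b ^ 3 / 10000, by positivity, fun p hp hpp => ⟨p ^ 2, by positivity, ?_⟩⟩
  intro n hn hnn κa κb hL
  have hb3 : b ^ 3 ≤ b ^ 2 / 100 := by nlinarith [sq_nonneg b]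
  have hb2 : b ^ 2 ≤ b / 100 := by nlinarith
  have hp' : p ≤ 1 / 1000 := by nlinarith
  have hS : ∀ t, 0 ≤ t → t ≤ 1 → Small b p n t := fun t h0 h1 =>
    ⟨hb, hb', h0, h1, hp, hp', hn.le, hnn.le⟩
  have hA : ∀ t, 0 ≤ t → t ≤ 1 →
      |CC b p t (fun x y => κa x y + t * κb x y) - Lf b t| ≤ 46 * p := fun t h0 h1 =>
    cc_asym' (hL t) (hS t h0 h1)
  obtain ⟨x1, x2⟩ := X_bds hb hb'
  have y1 := Y_bds hb hb'
  have hpi := pi_gt_d2
  have hpb : 0 < π * b := by positivity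
  have hpb2 : 0 < π * b ^ 2 := by positivity
  refine ⟨?_, ?_, ?_⟩
  · have h0 := hA 0 le_rfl (by norm_num)
    simp only [zero_mul, add_zero] at h0
    have h1 : Lf b 0 ≤ -(b / 16) * (9 / 10 * (π * b ^ 2)) := by
      unfold Lf; nlinarith
    have h2 := (abs_le.1 h0).2
    have h3 : 46 * p ≤ 46 * (b ^ 3 / 10000) := by linarith
    have h4 : (b / 16) * (9 / 10 * (π * b ^ 2)) ≥ (b / 16) * (9 / 10 * (3 * b ^ 2)) := by
      gcongr; linarith
    have hb30 : 0 < b ^ 3 := by positivity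
    change CC b p 0 κa < 0
    nlinarith
  · have h0 := hA (3 * b / 4) (by positivity) (by linarith)
    have h1 : (b / 16) * (37 / 100 * (π * b ^ 2)) ≤ Lf b (3 * b / 4) := by
      unfold Lf
      have : 37 / 100 * (π * b ^ 2) ≤ -(R2 b - r1 b * R1 b) - 2 * (3 * b / 4) * r1 b * Rc b := by
        have : 2 * (3 * b / 4) * (98 / 100 * (π * b)) ≤ 2 * (3 * b / 4) * (-(r1 b * Rc b)) := by
          gcongr
        nlinarith
      gcongr
    have h2 := (abs_le.1 h0).1
    have h4 : (b / 16) * (37 / 100 * (3 * b ^ 2)) ≤ (b / 16) * (37 / 100 * (π * b ^ 2)) := by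
      gcongr; linarith
    have hb30 : 0 < b ^ 3 := by positivity
    nlinarith
  · intro t ht0 ht1
    obtain ⟨c0, c1, c2, hq⟩ := cc_quad hL
    have hd : deriv (fun t : ℝ => CC b p t (fun x y => κa x y + t * κb x y)) t = c1 + 2 * c2 * t := by
      have : (fun t : ℝ => CC b p t (fun x y => κa x y + t * κb x y)) =
          fun t => c0 + c1 * t + c2 * t ^ 2 := funext hq
      rw [this]
      have := (((hasDerivAt_id t).const_mul c1).const_add c0).add
        (((hasDerivAt_id t).pow 2).const_mul c2)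
      refine (this.congr_deriv ?_).deriv
      simp; ring
    rw [hd]
    set l0 := (b / 16) * (-(R2 b - r1 b * R1 b)) with hl0
    set l1 := (b / 8) * (-(r1 b * Rc b)) with hl1
    have hLf : ∀ t, Lf b t = l0 + l1 * t := fun t => by unfold Lf; rw [hl0, hl1]; ring
    have q0 := hA 0 le_rfl (by norm_num)
    have q1 := hA (1 / 2) (by norm_num) (by norm_num)
    have q2 := hA 1 (by norm_num) le_rfl
    rw [hq, hLf] at q0 q1 q2
    rw [abs_le] at q0 q1 q2
    have hl1b : (b / 8) * (98 / 100 * (π * b)) ≤ l1 := by rw [hl1]; gcongr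
    have h3 : (b / 8) * (98 / 100 * (3 * b)) ≤ (b / 8) * (98 / 100 * (π * b)) := by
      gcongr; linarith
    have hpos : 0 < c1 + 2 * c2 * t := by
      have k1 : |c2| ≤ 8 * (46 * p) := by
        rw [abs_le]; constructor <;> linarith [q0.1, q0.2, q1.1, q1.2, q2.1, q2.2]
      have k2 : |c1 - l1| ≤ 8 * (46 * p) := by
        rw [abs_le]; constructor <;> linarith [q0.1, q0.2, q1.1, q1.2, q2.1, q2.2]
      have k3 : |2 * c2 * t| ≤ 2 * (8 * (46 * p)) := by
        rw [abs_mul, abs_mul, abs_of_nonneg ht0, abs_two]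
        have : |c2| * t ≤ 8 * (46 * p) * 1 := by
          refine mul_le_mul k1 (by linarith) ht0 (by positivity)
        linarith
      have k4 := (abs_le.1 k2).1
      have k5 := (abs_le.1 k3).1
      nlinarith
    exact hpos.ne'

end Run7.h998.EL
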