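import Mathlib
import Pool.Agent.Run7.h998.EL.Est
import Pool.Agent.Run7.h998.EL.L2b

open Real MeasureTheory intervalIntegral Set

namespace Run7.h998.EL

open Run7.h117

lemma cs4 (a1 a2 a3 a4 x1 x2 x3 x4 : ℝ) :
    (a1 * x1 + a2 * x2 + a3 * x3 + a4 * x4) ^ 2 ≤
      (a1 ^ 2 + a2 ^ 2 + a3 ^ 2 + a4 ^ 2) * (x1 ^ 2 + x2 ^ 2 + x3 ^ 2 + x4 ^ 2) := by
  have e : (a1 ^ 2 + a2 ^ 2 + a3 ^ 2 + a4 ^ 2) * (x1 ^ 2 + x2 ^ 2 + x3 ^ 2 + x4 ^ 2) =
    (a1 * x1 + a2 * x2 + a3 * x3 + a4 * x4) ^ 2 + ((a1 * x2 - a2 * x1) ^ 2 + (a1 * x3 - a3 * x1) ^ 2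
      + (a1 * x4 - a4 * x1) ^ 2 + (a2 * x3 - a3 * x2) ^ 2 + (a2 * x4 - a4 * x2) ^ 2
      + (a3 * x4 - a4 * x3) ^ 2) := by ring
  rw [e]
  have : 0 ≤ (a1 * x2 - a2 * x1) ^ 2 + (a1 * x3 - a3 * x1) ^ 2
      + (a1 * x4 - a4 * x1) ^ 2 + (a2 * x3 - a3 * x2) ^ 2 + (a2 * x4 - a4 * x2) ^ 2
      + (a3 * x4 - a4 * x3) ^ 2 := by positivity
  linarith

/-- products -/
lemma prods (C S C2 S2 W : ℝ) (hW : W = C ^ 2 + S ^ 2 + C2 ^ 2 + S2 ^ 2) :
    |C * S| ≤ W / 2 ∧ |C * C2| ≤ W / 2 ∧ |C * S2| ≤ W / 2 ∧ |S * S2| ≤ W / 2 ∧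
      |C * S2 - S * C2| ≤ W / 2 ∧ C ^ 2 ≤ W ∧ S ^ 2 ≤ W := by
  have a1 := sq_nonneg C
  have a2 := sq_nonneg S
  have a3 := sq_nonneg C2
  have a4 := sq_nonneg S2
  refine ⟨abs_le.2 ⟨?_, ?_⟩, abs_le.2 ⟨?_, ?_⟩, abs_le.2 ⟨?_, ?_⟩, abs_le.2 ⟨?_, ?_⟩,
    abs_le.2 ⟨?_, ?_⟩, ?_, ?_⟩
  · linarith [sq_nonneg (C + S)]
  · linarith [sq_nonneg (C - S)]
  · linarith [sq_nonneg (C + C2)]
  · linarith [sq_nonneg (C - C2)]
  · linarith [sq_nonneg (C + S2)]
  · linarith [sq_nonneg (C - S2)]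
  · linarith [sq_nonneg (S + S2)]
  · linarith [sq_nonneg (S - S2)]
  · linarith [sq_nonneg (C + S2), sq_nonneg (S - C2)]
  · linarith [sq_nonneg (C - S2), sq_nonneg (S + C2)]
  · linarith
  · linarith

lemma hmul {κ x M : ℝ} (hκ : 0 ≤ κ) (hx : |x| ≤ M) : -(κ * M) ≤ κ * x ∧ κ * x ≤ κ * M := by
  rw [abs_le] at hx
  constructor
  · have := mul_le_mul_of_nonneg_left hx.1 hκ; linarith
  · exact mul_le_mul_of_nonneg_left hx.2 hκ

/-- `b C U` -/
lemma part1 {b t C S C2 S2 W : ℝ} (hb : 0 < b) (ht : 0 ≤ t) (ht' : t ≤ 3 * b / 4)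
    (ht100 : t ≤ 1 / 100) (hW0 : 0 ≤ W)
    (pCS : |C * S| ≤ W / 2) (pCC2 : |C * C2| ≤ W / 2) (pCS2 : |C * S2| ≤ W / 2) (pC : C ^ 2 ≤ W) :
    b * C ^ 2 - (141 / 100) * (b ^ 2 * W) ≤ b * C * ((C - t * S - b * S - b / 2 * C2 + b / 2 * t * S2)
          + 2 * ((S + t * C) * (-(b / 4)) - (C + t * S) * (b / 4 * t))) := by
  have e1 : b * C * ((C - t * S - b * S - b / 2 * C2 + b / 2 * t * S2)
          + 2 * ((S + t * C) * (-(b / 4)) - (C + t * S) * (b / 4 * t)))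
        = b * C ^ 2 - (b * (t + 3 * b / 2 + b * t ^ 2 / 2)) * (C * S)
        - (b ^ 2 / 2) * (C * C2) + (b ^ 2 / 2 * t) * (C * S2) - (b ^ 2 * t) * C ^ 2 := by
    ring
  have ht2 : t ^ 2 ≤ 1 / 10000 := by
    have := pow_le_pow_left₀ ht ht100 2; norm_num at this ⊢; exact this
  have k0 : 0 ≤ t + 3 * b / 2 + b * t ^ 2 / 2 := by positivity
  have k1 := (hmul (mul_nonneg hb.le k0) pCS).2
  have k2 := (hmul (by positivity : 0 ≤ b ^ 2 / 2) pCC2).2
  have k3 := (hmul (by positivity : 0 ≤ b ^ 2 / 2 * t) pCS2).1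
  have k4 : (b ^ 2 * t) * C ^ 2 ≤ (b ^ 2 * t) * W := mul_le_mul_of_nonneg_left pC (by positivity)
  have k5a : b * t ^ 2 ≤ b * (1 / 10000) := mul_le_mul_of_nonneg_left ht2 hb.le
  have k5b : t + 3 * b / 2 + b * t ^ 2 / 2 ≤ b * (226 / 100) := by linarith
  have k5 : b * (t + 3 * b / 2 + b * t ^ 2 / 2) * (W / 2) ≤ b * (b * (226 / 100)) * (W / 2) :=
    mul_le_mul_of_nonneg_right (mul_le_mul_of_nonneg_left k5b hb.le) (by positivity)
  have k7 : b ^ 2 * t * W ≤ b ^ 2 * (1 / 100) * W :=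
    mul_le_mul_of_nonneg_right (mul_le_mul_of_nonneg_left ht100 (by positivity)) hW0
  have hb2W : 0 ≤ b ^ 2 * W := by positivity
  rw [e1]
  linarith

lemma part2 {b t C S C2 S2 W : ℝ} (hb : 0 < b) (hb' : b ≤ 1 / 100) (ht : 0 ≤ t)
    (ht' : t ≤ 3 * b / 4) (hW : W = C ^ 2 + S ^ 2 + C2 ^ 2 + S2 ^ 2) :
    ((C - t * S - b * S - b / 2 * C2 + b / 2 * t * S2)
          + 2 * ((S + t * C) * (-(b / 4)) - (C + t * S) * (b / 4 * t))) ^ 2 ≤ (101 / 100) * W := by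
  have e1 : ((C - t * S - b * S - b / 2 * C2 + b / 2 * t * S2)
          + 2 * ((S + t * C) * (-(b / 4)) - (C + t * S) * (b / 4 * t)))
      = (1 - b * t) * C + (-(t + 3 * b / 2 + b * t ^ 2 / 2)) * S + (-(b / 2)) * C2
      + (b / 2 * t) * S2 := by ring
  rw [e1]
  refine (cs4 _ _ _ _ _ _ _ _).trans ?_
  rw [← hW]
  have hW0 : 0 ≤ W := by rw [hW]; positivity
  have ht100 : t ≤ 1 / 100 := by linarith
  have ht2 : t ^ 2 ≤ 1 / 10000 := by
    have := pow_le_pow_left₀ ht ht100 2; norm_num at this ⊢; exact this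
  have k0 : 0 ≤ b * t := by positivity
  have k00 : b * t ≤ 1 / 100 * (1 / 100) := mul_le_mul hb' ht100 ht (by norm_num)
  have k1 : (1 - b * t) ^ 2 ≤ 1 := by
    apply pow_le_one₀ <;> linarith
  have k2 : (-(t + 3 * b / 2 + b * t ^ 2 / 2)) ^ 2 ≤ 9 / 10000 := by
    have k5a : b * t ^ 2 ≤ 1 / 100 * (1 / 10000) := mul_le_mul hb' ht2 (by positivity) (by norm_num)
    have : t + 3 * b / 2 + b * t ^ 2 / 2 ≤ 3 / 100 := by linarith
    have h0 : 0 ≤ t + 3 * b / 2 + b * t ^ 2 / 2 := by positivity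
    rw [neg_sq]
    have := pow_le_pow_left₀ h0 this 2
    norm_num at this ⊢; exact this
  have k3 : (-(b / 2)) ^ 2 ≤ 1 / 10000 := by
    rw [neg_sq]
    have := pow_le_pow_left₀ (by positivity) (by linarith : b / 2 ≤ 1 / 100) 2
    norm_num at this ⊢; exact this
  have k4 : (b / 2 * t) ^ 2 ≤ 1 / 10000 := by
    have := pow_le_pow_left₀ (by positivity) (by linarith : b / 2 * t ≤ 1 / 100) 2
    norm_num at this ⊢; exact this
  exact mul_le_mul_of_nonneg_right (by linarith) hW0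

lemma part2b {b U e W q : ℝ} (hq : 2 * W ≤ q) (hW0 : 0 ≤ W)
    (hU2 : U ^ 2 ≤ (101 / 100) * W) (he : |e| ≤ b ^ 2 * Real.sqrt q) :
    |U * e| ≤ (76 / 100) * (b ^ 2 * q) := by
  have hq0 : 0 ≤ q := by linarith
  have hs := Real.sq_sqrt hq0
  have hs0 := Real.sqrt_nonneg q
  rw [abs_mul]
  have k1 : |U| * |e| ≤ |U| * (b ^ 2 * Real.sqrt q) := mul_le_mul_of_nonneg_left he (abs_nonneg _)
  have k2 : |U| * Real.sqrt q ≤ (76 / 100) * q := by
    have h1 : |U| ^ 2 ≤ 101 / 100 * W := by rw [sq_abs]; exact hU2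
    linarith [sq_nonneg (|U| - Real.sqrt q)]
  calc |U| * |e| ≤ b ^ 2 * (|U| * Real.sqrt q) := by linarith
    _ ≤ b ^ 2 * ((76 / 100) * q) := mul_le_mul_of_nonneg_left k2 (by positivity)
    _ = _ := by ring

lemma part3 {b t C S C2 S2 W M3 : ℝ} (hb : 0 < b) (hb' : b ≤ 1 / 100) (ht : 0 ≤ t)
    (ht' : t ≤ 3 * b / 4) (hW : W = C ^ 2 + S ^ 2 + C2 ^ 2 + S2 ^ 2)
    (hM3 : M3 = (S + t * C) * (C - t * S - b * S - b / 2 * C2 + b / 2 * t * S2)
          - (C + t * S) * (S - t * C - b / 2 * S2 + b / 2 * t * C2)) :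
    M3 ≤ 3 / 2 * (b * C ^ 2) + b * W / 4 + (114 / 100) * (b ^ 2 * W) ∧ |M3| ≤ 5 * (b * W) := by
  obtain ⟨pCS, pCC2, pCS2, pSS2, pX, pC, pS⟩ := prods C S C2 S2 W hW
  have hW0 : 0 ≤ W := by rw [hW]; positivity
  have ht100 : t ≤ 1 / 100 := by linarith
  have e3 : M3 = 2 * (t * C ^ 2) - 2 * (t * S ^ 2) - b * S ^ 2 + (b / 2) * (C * S2 - S * C2)
      + ((b * t) * (S * S2) - (b * t) * (C * S) - (b * t) * (C * C2)
        + (b / 2 * t ^ 2) * (C * S2 - S * C2)) := by rw [hM3]; ring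
  have kbt : b * t ≤ b * (3 * b / 4) := mul_le_mul_of_nonneg_left ht' hb.le
  have ht2 : t ^ 2 ≤ b * (1 / 50) := by
    have : t * t ≤ (3 * b / 4) * (1 / 100) := mul_le_mul ht' ht100 ht (by positivity)
    linarith
  have kbt2 : b / 2 * t ^ 2 ≤ b / 2 * (b * (1 / 50)) := mul_le_mul_of_nonneg_left ht2 (by positivity)
  have q1 := hmul (by positivity : 0 ≤ b * t) pSS2
  have q2 := hmul (by positivity : 0 ≤ b * t) pCS
  have q3 := hmul (by positivity : 0 ≤ b * t) pCC2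
  have q4 := hmul (by positivity : 0 ≤ b / 2 * t ^ 2) pX
  have q5 := hmul (by positivity : 0 ≤ b / 2) pX
  have kbW : b * t * (W / 2) ≤ b * (3 * b / 4) * (W / 2) :=
    mul_le_mul_of_nonneg_right kbt (by positivity)
  have kbW2 : b / 2 * t ^ 2 * (W / 2) ≤ b / 2 * (b * (1 / 50)) * (W / 2) :=
    mul_le_mul_of_nonneg_right kbt2 (by positivity)
  have hb2W : 0 ≤ b ^ 2 * W := by positivity
  have hbW0 : 0 ≤ b * W := by positivity
  have htC : t * C ^ 2 ≤ 3 * b / 4 * C ^ 2 := mul_le_mul_of_nonneg_right ht' (sq_nonneg _)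
  have htS' : t * S ^ 2 ≤ 3 * b / 4 * S ^ 2 := mul_le_mul_of_nonneg_right ht' (sq_nonneg _)
  have htS : 0 ≤ t * S ^ 2 := by positivity
  have htC0 : 0 ≤ t * C ^ 2 := by positivity
  have hbS : 0 ≤ b * S ^ 2 := by positivity
  have a2 : b * S ^ 2 ≤ b * W := mul_le_mul_of_nonneg_left pS hb.le
  have a3 : b * C ^ 2 ≤ b * W := mul_le_mul_of_nonneg_left pC hb.le
  have hbW2 : b ^ 2 * W ≤ (1 / 100) * (b * W) := by
    have := mul_le_mul_of_nonneg_right hb' hbW0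
    linarith
  refine ⟨?_, abs_le.2 ⟨?_, ?_⟩⟩
  · rw [e3]; linarith [q1.1, q1.2, q2.1, q2.2, q3.1, q3.2, q4.1, q4.2, q5.1, q5.2]
  · rw [e3]; linarith [q1.1, q1.2, q2.1, q2.2, q3.1, q3.2, q4.1, q4.2, q5.1, q5.2]
  · rw [e3]; linarith [q1.1, q1.2, q2.1, q2.2, q3.1, q3.2, q4.1, q4.2, q5.1, q5.2]

lemma pos_alg {b t C S C2 S2 q qr e r : ℝ} (hb : 0 < b) (hb' : b ≤ 1 / 100) (ht : 0 ≤ t)
    (ht' : t ≤ 3 * b / 4) (hq : 2 * (C ^ 2 + S ^ 2 + C2 ^ 2 + S2 ^ 2) ≤ q)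
    (hqr : (1 - b) * q ≤ qr) (he : |e| ≤ b ^ 2 * Real.sqrt q) (hr : 1 ≤ r) (hr' : r ≤ 1 + b ^ 2) :
    (b / 16) * q ≤ (b / 2) * qr
      - ((C - t * S - b * S - b / 2 * C2 + b / 2 * t * S2)
          + 2 * ((S + t * C) * (-(b / 4)) - (C + t * S) * (b / 4 * t))) * (-(b * C) + e)
      - ((S + t * C) * (C - t * S - b * S - b / 2 * C2 + b / 2 * t * S2)
          - (C + t * S) * (S - t * C - b / 2 * S2 + b / 2 * t * C2)) * r := by
  obtain ⟨W, hW⟩ : ∃ W, W = C ^ 2 + S ^ 2 + C2 ^ 2 + S2 ^ 2 := ⟨_, rfl⟩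
  rw [← hW] at hq
  have hW0 : 0 ≤ W := by rw [hW]; positivity
  have hq0 : 0 ≤ q := by linarith
  obtain ⟨pCS, pCC2, pCS2, pSS2, pX, pC, pS⟩ := prods C S C2 S2 W hW
  have h1 := part1 hb ht ht' (by linarith) hW0 pCS pCC2 pCS2 pC
  have hU2 := part2 hb hb' ht ht' hW
  obtain ⟨U, hU⟩ : ∃ U, U = ((C - t * S - b * S - b / 2 * C2 + b / 2 * t * S2)
          + 2 * ((S + t * C) * (-(b / 4)) - (C + t * S) * (b / 4 * t))) := ⟨_, rfl⟩
  rw [← hU] at h1 hU2 ⊢
  have h2 := part2b hq hW0 hU2 he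
  obtain ⟨M3, hM3⟩ : ∃ M3, M3 = (S + t * C) * (C - t * S - b * S - b / 2 * C2 + b / 2 * t * S2)
          - (C + t * S) * (S - t * C - b / 2 * S2 + b / 2 * t * C2) := ⟨_, rfl⟩
  obtain ⟨h3, h3'⟩ := part3 hb hb' ht ht' hW hM3
  rw [← hM3]
  have h4 : M3 * r ≤ M3 + 5 * (b * W) * b ^ 2 := by
    have k1 : M3 * (r - 1) ≤ |M3| * (r - 1) :=
      mul_le_mul_of_nonneg_right (le_abs_self _) (by linarith)
    have k2 : |M3| * (r - 1) ≤ 5 * (b * W) * b ^ 2 :=
      mul_le_mul h3' (by linarith) (by linarith) (by positivity)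
    linarith
  have hb2W : 0 ≤ b ^ 2 * W := by positivity
  have h5 : 5 * (b * W) * b ^ 2 ≤ (5 / 100) * (b ^ 2 * W) := by
    have := mul_le_mul_of_nonneg_right hb' hb2W
    linarith
  have h6 : (b / 2) * ((1 - b) * q) ≤ (b / 2) * qr := mul_le_mul_of_nonneg_left hqr (by positivity)
  have h7 := (abs_le.1 h2).2
  have hbC : b * C ^ 2 ≤ b * W := mul_le_mul_of_nonneg_left pC hb.le
  have hbWq : b * (2 * W) ≤ b * q := mul_le_mul_of_nonneg_left hq hb.le
  have hb2Wq : b ^ 2 * (2 * W) ≤ b ^ 2 * q := mul_le_mul_of_nonneg_left hq (by positivity)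
  have hbq : 0 ≤ b * q := by positivity
  have hb2q : b ^ 2 * q ≤ (1 / 100) * (b * q) := by
    have := mul_le_mul_of_nonneg_right hb' hbq
    linarith
  have e4 : U * (-(b * C) + e) = -(b * C * U) + U * e := by ring
  rw [e4]
  linarith

/-- real mean -/
noncomputable def mr (f : ℝ → ℝ) : ℝ := (2 * π)⁻¹ * ∫ x in (0 : ℝ)..(2 * π), f x

lemma mr_add {f g : ℝ → ℝ} (hf : Continuous f) (hg : Continuous g) :
    mr (fun x => f x + g x) = mr f + mr g := by
  unfold mr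
  rw [intervalIntegral.integral_add (hf.intervalIntegrable _ _) (hg.intervalIntegrable _ _)]
  ring

lemma mr_const_mul {f : ℝ → ℝ} (c : ℝ) : mr (fun x => c * f x) = c * mr f := by
  unfold mr
  rw [intervalIntegral.integral_const_mul]
  ring

lemma mean_ofReal {f : ℝ → ℝ} : mean (fun x => (f x : ℂ)) = (mr f : ℂ) := by
  unfold mean mr
  rw [intervalIntegral.integral_ofReal]
  push_cast
  rfl

lemma mean_re_im {u v : ℝ → ℝ} (hu : Continuous u) (hv : Continuous v) :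
    mean (fun x => (u x : ℂ) + Complex.I * (v x : ℂ)) = (mr u : ℂ) + Complex.I * (mr v : ℂ) := by
  rw [mean_add (by fun_prop) (by fun_prop), mean_const_mul, mean_ofReal, mean_ofReal]

/-- Bessel's inequality for four modes. -/
lemma bessel {g : ℝ → ℝ} (hg : Continuous g) :
    2 * (mr (fun x => g x * cos x) ^ 2 + mr (fun x => g x * sin x) ^ 2
      + mr (fun x => g x * cos (2 * x)) ^ 2 + mr (fun x => g x * sin (2 * x)) ^ 2)
      ≤ mr (fun x => g x ^ 2) := by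
  set C := mr (fun x => g x * cos x) with hC
  set S := mr (fun x => g x * sin x) with hS
  set C2 := mr (fun x => g x * cos (2 * x)) with hC2
  set S2 := mr (fun x => g x * sin (2 * x)) with hS2
  have i1 : mr (fun x => cos x ^ 2) = 1 / 2 := by
    unfold mr; rw [int_cos2]; field_simp
  have i2 : mr (fun x => sin x ^ 2) = 1 / 2 := by
    unfold mr; rw [integral_sin_sq]; simp; field_simp
  have z : ∀ {F F' : ℝ → ℝ}, (∀ x, F (x + 2 * π) = F x) → (∀ x, HasDerivAt F (F' x) x) →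
      Continuous F' → mr F' = 0 := fun {F F'} h1 h2 h3 => by
    unfold mr; rw [int_of_deriv h1 h2 h3, mul_zero]
  have dS2 : ∀ x, HasDerivAt (fun x => sin (2 * x)) (2 * cos (2 * x)) x := fun x => by
    have := ((hasDerivAt_id x).const_mul 2).sin
    refine this.congr_deriv ?_
    simp; ring
  have dC2 : ∀ x, HasDerivAt (fun x => cos (2 * x)) (-2 * sin (2 * x)) x := fun x => by
    have := ((hasDerivAt_id x).const_mul 2).cos
    refine this.congr_deriv ?_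
    simp; ring
  have pS2 : ∀ x, sin (2 * (x + 2 * π)) = sin (2 * x) := fun x => by
    rw [show 2 * (x + 2 * π) = 2 * x + 2 * π + 2 * π by ring, sin_add_two_pi, sin_add_two_pi]
  have pC2 : ∀ x, cos (2 * (x + 2 * π)) = cos (2 * x) := fun x => by
    rw [show 2 * (x + 2 * π) = 2 * x + 2 * π + 2 * π by ring, cos_add_two_pi, cos_add_two_pi]
  have j1 : mr (fun x => cos x * sin x) = 0 := by
    apply z (F := fun x => sin x ^ 2 / 2) (fun x => by rw [sin_add_two_pi])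
    · intro x
      have := ((hasDerivAt_sin x).pow 2).div_const 2
      refine this.congr_deriv ?_
      push_cast; ring
    · fun_prop
  have j2 : mr (fun x => cos x * cos (2 * x)) = 0 := by
    apply z (F := fun x => sin x - 2 * sin x ^ 3 / 3) (fun x => by rw [sin_add_two_pi])
    · intro x
      have := (hasDerivAt_sin x).sub ((((hasDerivAt_sin x).pow 3).const_mul 2).div_const 3)
      refine this.congr_deriv ?_
      have h := sin_sq_add_cos_sq x
      rw [cos_two_mul]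
      push_cast
      linear_combination (-2 * cos x) * h
    · fun_prop
  have j3 : mr (fun x => cos x * sin (2 * x)) = 0 := by
    apply z (F := fun x => -2 * cos x ^ 3 / 3) (fun x => by rw [cos_add_two_pi])
    · intro x
      have := (((hasDerivAt_cos x).pow 3).const_mul (-2)).div_const 3
      refine this.congr_deriv ?_
      rw [sin_two_mul]
      push_cast; ring
    · fun_prop
  have j4 : mr (fun x => sin x * cos (2 * x)) = 0 := by
    apply z (F := fun x => -2 * cos x ^ 3 / 3 + cos x) (fun x => by rw [cos_add_two_pi])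
    · intro x
      have := ((((hasDerivAt_cos x).pow 3).const_mul (-2)).div_const 3).add (hasDerivAt_cos x)
      refine this.congr_deriv ?_
      rw [cos_two_mul]
      push_cast; ring
    · fun_prop
  have j5 : mr (fun x => sin x * sin (2 * x)) = 0 := by
    apply z (F := fun x => 2 * sin x ^ 3 / 3) (fun x => by rw [sin_add_two_pi])
    · intro x
      have := (((hasDerivAt_sin x).pow 3).const_mul 2).div_const 3
      refine this.congr_deriv ?_
      rw [sin_two_mul]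
      push_cast; ring
    · fun_prop
  have j6 : mr (fun x => cos (2 * x) * sin (2 * x)) = 0 := by
    apply z (F := fun x => sin (2 * x) ^ 2 / 4) (fun x => by rw [pS2])
    · intro x
      have := ((dS2 x).pow 2).div_const 4
      refine this.congr_deriv ?_
      push_cast; ring
    · fun_prop
  have j7 : mr (fun x => 4 * cos (2 * x) ^ 2 + (-2)) = 0 := by
    apply z (F := fun x => sin (2 * x) * cos (2 * x)) (fun x => by rw [pS2, pC2])
    · intro x
      have := (dS2 x).mul (dC2 x)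
      refine this.congr_deriv ?_
      have h := sin_sq_add_cos_sq (2 * x)
      linear_combination (-2) * h
    · fun_prop
  have i3 : mr (fun x => cos (2 * x) ^ 2) = 1 / 2 := by
    rw [mr_add (by fun_prop) (by fun_prop), mr_const_mul] at j7
    have : mr (fun _ => (-2 : ℝ)) = -2 := by unfold mr; simp; field_simp
    rw [this] at j7
    linarith
  have i4 : mr (fun x => sin (2 * x) ^ 2) = 1 / 2 := by
    have h1 : (fun x => sin (2 * x) ^ 2) = fun x => 1 + (-1) * cos (2 * x) ^ 2 := by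
      funext x; have h := sin_sq_add_cos_sq (2 * x); linarith
    have h2 : mr (fun _ => (1 : ℝ)) = 1 := by unfold mr; simp; field_simp
    rw [h1, mr_add (by fun_prop) (by fun_prop), mr_const_mul, i3, h2]; norm_num
  have hpos : 0 ≤ mr (fun x => (g x - 2 * C * cos x - 2 * S * sin x - 2 * C2 * cos (2 * x)
      - 2 * S2 * sin (2 * x)) ^ 2) := by
    unfold mr
    exact mul_nonneg (by positivity)
      (intervalIntegral.integral_nonneg (by positivity) fun _ _ => sq_nonneg _)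
  have hexp : (fun x => (g x - 2 * C * cos x - 2 * S * sin x - 2 * C2 * cos (2 * x)
      - 2 * S2 * sin (2 * x)) ^ 2) = fun x => g x ^ 2 + ((-4 * C) * (g x * cos x)
      + ((-4 * S) * (g x * sin x) + ((-4 * C2) * (g x * cos (2 * x))
      + ((-4 * S2) * (g x * sin (2 * x)) + ((4 * C ^ 2) * (cos x ^ 2)
      + ((4 * S ^ 2) * (sin x ^ 2) + ((4 * C2 ^ 2) * (cos (2 * x) ^ 2)
      + ((4 * S2 ^ 2) * (sin (2 * x) ^ 2) + ((8 * C * S) * (cos x * sin x)
      + ((8 * C * C2) * (cos x * cos (2 * x)) + ((8 * C * S2) * (cos x * sin (2 * x))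
      + ((8 * S * C2) * (sin x * cos (2 * x)) + ((8 * S * S2) * (sin x * sin (2 * x))
      + (8 * C2 * S2) * (cos (2 * x) * sin (2 * x))))))))))))))) := by
    funext x; ring
  rw [hexp] at hpos
  repeat rw [mr_add (by fun_prop) (by fun_prop)] at hpos
  simp only [mr_const_mul, j1, j2, j3, j4, j5, j6, i1, i2, i3, i4, ← hC, ← hS, ← hC2, ← hS2]
    at hpos
  linarith

end Run7.h998.EL
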