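import Mathlib
import Pool.Agent.Run7.h998.EL.Pos

open Real MeasureTheory intervalIntegral Set

namespace Run7.h998.EL

open Run7.h117

noncomputable def al (t : ℝ) (g : ℝ → ℝ) : ℂ := mean (fun x => g x * (starRingEnd ℂ) (aa1 t x))

lemma mr_zero_const {g : ℝ → ℝ} (h : ∫ x in (0 : ℝ)..(2 * π), g x = 0) : mr g = 0 := by
  unfold mr; rw [h, mul_zero]

lemma al_eq {g : ℝ → ℝ} (hg : Continuous g) (t : ℝ) : al t g =
    ((mr (fun x => g x * sin x) + t * mr (fun x => g x * cos x) : ℝ) : ℂ)
      + Complex.I * ((mr (fun x => g x * cos x) + t * mr (fun x => g x * sin x) : ℝ) : ℂ) := by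
  unfold al
  have e : (fun x => (g x : ℂ) * (starRingEnd ℂ) (aa1 t x)) = fun x =>
      ((g x * sin x + t * (g x * cos x) : ℝ) : ℂ)
      + Complex.I * ((g x * cos x + t * (g x * sin x) : ℝ) : ℂ) := by
    funext x
    apply Complex.ext
    · simp [aa1, ea_eq, eb_eq, Complex.sin_ofReal_re, Complex.cos_ofReal_re, Complex.sin_ofReal_im,
        Complex.cos_ofReal_im]
      ring
    · simp [aa1, ea_eq, eb_eq, Complex.sin_ofReal_re, Complex.cos_ofReal_re, Complex.sin_ofReal_im,
        Complex.cos_ofReal_im]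
      ring
  rw [e, mean_re_im (by fun_prop) (by fun_prop), mr_add (by fun_prop) (by fun_prop),
    mr_add (by fun_prop) (by fun_prop), mr_const_mul, mr_const_mul]

lemma tg_eq {g : ℝ → ℝ} (hg : Continuous g) (h0 : mr g = 0) (b t : ℝ) : tg b t g =
    ((mr (fun x => g x * cos x) - t * mr (fun x => g x * sin x) - b * mr (fun x => g x * sin x)
      - b / 2 * mr (fun x => g x * cos (2 * x)) + b / 2 * t * mr (fun x => g x * sin (2 * x)) : ℝ) : ℂ)
      + Complex.I * ((mr (fun x => g x * sin x) - t * mr (fun x => g x * cos x)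
      - b / 2 * mr (fun x => g x * sin (2 * x)) + b / 2 * t * mr (fun x => g x * cos (2 * x)) : ℝ) : ℂ) := by
  unfold tg
  have e : (fun x => (g x : ℂ) * bet0 b t x) = fun x =>
      ((g x * cos x + ((-t) * (g x * sin x) + ((-b) * (g x * sin x)
        + ((-(b / 2)) * (g x * cos (2 * x)) + ((b / 2 * t) * (g x * sin (2 * x)) + (b / 2) * g x)))) : ℝ) : ℂ)
      + Complex.I * ((g x * sin x + ((-t) * (g x * cos x) + ((-(b / 2)) * (g x * sin (2 * x))
        + ((b / 2 * t) * (g x * cos (2 * x)) + (-(b / 2 * t)) * g x))) : ℝ) : ℂ) := by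
    funext x
    have h1 := sin_sq_add_cos_sq x
    have h2 := sin_two_mul x
    have h3 := cos_two_mul x
    apply Complex.ext
    · simp [bet0, ww, aa1, aa2, ea_eq, eb_eq, Complex.sin_ofReal_re, Complex.cos_ofReal_re,
        Complex.sin_ofReal_im, Complex.cos_ofReal_im, -Complex.ofReal_sin, -Complex.ofReal_cos]
      rw [h2, h3]
      linear_combination (g x * b) * h1
    · simp [bet0, ww, aa1, aa2, ea_eq, eb_eq, Complex.sin_ofReal_re, Complex.cos_ofReal_re,
        Complex.sin_ofReal_im, Complex.cos_ofReal_im, -Complex.ofReal_sin, -Complex.ofReal_cos]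
      rw [h2, h3]
      linear_combination (-(g x * b * t)) * h1
  rw [e, mean_re_im (by fun_prop) (by fun_prop)]
  repeat rw [mr_add (by fun_prop) (by fun_prop)]
  simp only [mr_const_mul, h0]
  push_cast
  ring

lemma mr_abs_sq {g : ℝ → ℝ} (hg : Continuous g) :
    mr (fun x => |g x|) ^ 2 ≤ mr (fun x => g x ^ 2) := by
  set a := mr (fun x => |g x|) with ha
  have h : 0 ≤ mr (fun x => (|g x| - a) ^ 2) := by
    unfold mr
    exact mul_nonneg (by positivity)
      (intervalIntegral.integral_nonneg (by positivity) fun _ _ => sq_nonneg _)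
  have e : (fun x => (|g x| - a) ^ 2) = fun x => g x ^ 2 + ((-2 * a) * |g x| + a ^ 2 * 1) := by
    funext x
    rw [← sq_abs (g x)]; ring
  have h1 : mr (fun _ => (1 : ℝ)) = 1 := by unfold mr; simp; field_simp
  rw [e, mr_add (by fun_prop) (by fun_prop), mr_add (by fun_prop) (by fun_prop), mr_const_mul,
    mr_const_mul, ← ha, h1] at h
  linarith

lemma mr_mono {f g : ℝ → ℝ} (hf : Continuous f) (hg : Continuous g) (h : ∀ x, f x ≤ g x) :
    mr f ≤ mr g := by
  unfold mr
  refine mul_le_mul_of_nonneg_left ?_ (by positivity)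
  exact integral_mono_on (by positivity) (hf.intervalIntegrable _ _) (hg.intervalIntegrable _ _)
    fun x _ => h x

lemma norm_mean_le_mr {f : ℝ → ℂ} : ‖mean f‖ ≤ mr (fun x => ‖f x‖) := mean_norm_le

lemma mr_const (c : ℝ) : mr (fun _ => c) = c := by unfold mr; simp; field_simp

lemma mr_norm_le {f : ℝ → ℝ} : |mr f| ≤ mr (fun x => |f x|) := by
  unfold mr
  rw [abs_mul, abs_of_pos (by positivity)]
  refine mul_le_mul_of_nonneg_left ?_ (by positivity)
  have := norm_integral_le_integral_norm (f := f) (a := 0) (b := 2 * π) (μ := volume) (by positivity)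
  simpa [Real.norm_eq_abs] using this

/-- the limiting form -/
noncomputable def XX (b t : ℝ) (g : ℝ → ℝ) : ℂ :=
  mean (fun x => (al t g + g x) * (2 * om b t * g x + tg b t g) / (rho b x : ℂ))

lemma XX_pos {b t : ℝ} {g : ℝ → ℝ} (hb : 0 < b) (hb' : b ≤ 1 / 100) (ht : 0 ≤ t)
    (ht' : t ≤ 3 * b / 4) (hg : Continuous g) (h0 : mr g = 0) :
    (b / 16) * mr (fun x => g x ^ 2) ≤ -(XX b t g).re := by
  have hcr := cont_rho_inv b
  set C := mr (fun x => g x * cos x) with hC
  set S := mr (fun x => g x * sin x) with hS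
  set C2 := mr (fun x => g x * cos (2 * x)) with hC2
  set S2 := mr (fun x => g x * sin (2 * x)) with hS2
  set q := mr (fun x => g x ^ 2) with hq
  set qr := mr (fun x => g x ^ 2 * (rho b x)⁻¹) with hqr
  set gr := mr (fun x => g x * (rho b x)⁻¹) with hgr
  have hr1 : mr (fun x => (rho b x)⁻¹) = r1 b := rfl
  have e1 : XX b t g = 2 * om b t * (qr : ℂ) + (tg b t g + 2 * al t g * om b t) * (gr : ℂ)
      + al t g * tg b t g * (r1 b : ℂ) := by
    unfold XX
    have e : (fun x => (al t g + g x) * (2 * om b t * g x + tg b t g) / (rho b x : ℂ)) = fun x =>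
      (2 * om b t) * ((g x ^ 2 * (rho b x)⁻¹ : ℝ) : ℂ)
      + ((tg b t g + 2 * al t g * om b t) * ((g x * (rho b x)⁻¹ : ℝ) : ℂ)
      + (al t g * tg b t g) * (((rho b x)⁻¹ : ℝ) : ℂ)) := by
      funext x; push_cast; ring
    rw [e, mean_add (by fun_prop) (by fun_prop), mean_add (by fun_prop) (by fun_prop),
      mean_const_mul, mean_const_mul, mean_const_mul, mean_ofReal, mean_ofReal, mean_ofReal, hr1]
    ring
  have hb2 : 2 * (C ^ 2 + S ^ 2 + C2 ^ 2 + S2 ^ 2) ≤ q := bessel hg
  have hqr1 : (1 - b) * q ≤ qr := by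
    rw [hq, hqr, ← mr_const_mul]
    apply mr_mono (by fun_prop) (by fun_prop)
    intro x
    rw [mul_comm]
    refine mul_le_mul_of_nonneg_left ?_ (sq_nonneg _)
    rw [rho_inv_exp]
    have h1 := Real.add_one_le_exp (-(b * cos x))
    have h2 := cos_le_one x
    nlinarith
  have he : |gr + b * C| ≤ b ^ 2 * Real.sqrt q := by
    have e : gr + b * C = mr (fun x => g x * ((rho b x)⁻¹ - 1 + b * cos x)) := by
      have e2 : (fun x => g x * ((rho b x)⁻¹ - 1 + b * cos x)) = fun x =>
          g x * (rho b x)⁻¹ + (b * (g x * cos x) + (-1) * g x) := by funext x; ring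
      rw [e2, mr_add (by fun_prop) (by fun_prop), mr_add (by fun_prop) (by fun_prop), mr_const_mul,
        mr_const_mul, h0, ← hC, ← hgr]; ring
    rw [e]
    refine mr_norm_le.trans ?_
    have h1 : mr (fun x => |g x * ((rho b x)⁻¹ - 1 + b * cos x)|) ≤
        mr (fun x => b ^ 2 * |g x|) := by
      apply mr_mono (by fun_prop) (by fun_prop)
      intro x
      rw [abs_mul, mul_comm]
      refine mul_le_mul_of_nonneg_right ?_ (abs_nonneg _)
      rw [rho_inv_exp]
      have hc := abs_cos_le_one x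
      have hu : |-(b * cos x)| ≤ b := by
        rw [abs_neg, abs_mul, abs_of_pos hb]; nlinarith [abs_nonneg (cos x)]
      have h3 := Real.abs_exp_sub_one_sub_id_le (x := -(b * cos x)) (hu.trans (by linarith))
      have e3 : Real.exp (-(b * cos x)) - 1 + b * cos x =
        Real.exp (-(b * cos x)) - 1 - -(b * cos x) := by ring
      rw [e3]
      refine h3.trans ?_
      rw [← sq_abs]; gcongr
    refine h1.trans ?_
    rw [mr_const_mul]
    refine mul_le_mul_of_nonneg_left ?_ (by positivity)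
    exact Real.le_sqrt_of_sq_le (mr_abs_sq hg)
  obtain ⟨hr0, _, hr2⟩ := r1_bds hb hb'
  have hr3 : r1 b ≤ 1 + b ^ 2 := by nlinarith [sq_nonneg b]
  have := pos_alg hb hb' ht ht' hb2 hqr1 he hr0 hr3
  refine this.trans (le_of_eq ?_)
  rw [e1, al_eq hg, tg_eq hg h0, ← hC, ← hS, ← hC2, ← hS2]
  simp only [om]
  simp
  ring

end Run7.h998.EL
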