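import Mathlib
import Pool.Agent.Run7.h998.EL.Core

open Real MeasureTheory intervalIntegral Set

namespace Run7.h998.EL

open Run7.h117

lemma hasDerivAt_conj {F : ℝ → ℂ} {F' : ℂ} {x : ℝ} (h : HasDerivAt F F' x) :
    HasDerivAt (fun x => (starRingEnd ℂ) (F x)) ((starRingEnd ℂ) F') x := by
  have h2 := (Complex.conjCLE.toContinuousLinearMap.hasFDerivAt (x := F x)).comp_hasDerivAt x h
  refine h2.congr_deriv ?_
  simp

lemma hasDerivAt_re {F : ℝ → ℂ} {F' : ℂ} {x : ℝ} (h : HasDerivAt F F' x) :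
    HasDerivAt (fun x => (F x).re) F'.re x :=
  (Complex.reCLM.hasFDerivAt (x := F x)).comp_hasDerivAt x h

lemma hasDerivAt_im {F : ℝ → ℂ} {F' : ℂ} {x : ℝ} (h : HasDerivAt F F' x) :
    HasDerivAt (fun x => (F x).im) F'.im x :=
  (Complex.imCLM.hasFDerivAt (x := F x)).comp_hasDerivAt x h

lemma mean_re {f : ℝ → ℂ} (hf : Continuous f) : (mean f).re = mr (fun x => (f x).re) := by
  have e : f = fun x => ((f x).re : ℂ) + Complex.I * ((f x).im : ℂ) := by
    funext x; rw [mul_comm]; exact (Complex.re_add_im _).symm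
  have h1 : mean f = (mr (fun x => (f x).re) : ℂ) + Complex.I * (mr (fun x => (f x).im) : ℂ) := by
    conv_lhs => rw [e]
    exact mean_re_im (Complex.continuous_re.comp hf) (Complex.continuous_im.comp hf)
  rw [h1]; simp

section
variable {b p n t : ℝ} {k G : ℝ → ℂ} {g g' : ℝ → ℝ} {τ Q : ℝ → ℂ}

noncomputable def Zf (b p t : ℝ) (τ Q : ℝ → ℂ) (x : ℝ) : ℂ :=
  p * (starRingEnd ℂ) (aa1 t x) * τ x
    + (starRingEnd ℂ) (Ah p t x) * (Q x / (rho b x : ℂ) - Complex.I * p * τ x)

lemma cont_conj {F : ℝ → ℂ} (h : Continuous F) : Continuous (fun x => (starRingEnd ℂ) (F x)) :=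
  Complex.continuous_conj.comp h

lemma cont_Zf {b p t : ℝ} {τ Q : ℝ → ℂ} (ht : Continuous τ) (hQ : Continuous Q) :
    Continuous (Zf b p t τ Q) := by
  have c1 : Continuous (fun x => Q x / (rho b x : ℂ)) := cont_div_rho hQ
  have c2 := cont_conj (cont_aa1 t)
  have c3 := cont_conj (cont_Ah p t)
  unfold Zf; fun_prop

lemma per_Ah (p t x : ℝ) : Ah p t (x + 2 * π) = Ah p t x := by
  unfold Ah aa; rw [per_ea, per_eb]

lemma by_parts (D : Dat b p n t k G g g' τ Q) :
    mr (fun x => g' x * ((starRingEnd ℂ) (Ah p t x) * τ x).re) =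
      - (mean (fun x => g x * Zf b p t τ Q x)).re := by
  have hcg := D.cg
  have hct := D.ct
  have hcQ := D.cQ
  have hcg' := D.gc
  have hZc := cont_Zf (b := b) (p := p) (t := t) hct hcQ
  have c3 := cont_conj (cont_Ah p t)
  have hPr : ∀ x, HasDerivAt (fun x => ((starRingEnd ℂ) (Ah p t x) * τ x).re)
      (Zf b p t τ Q x).re x := fun x => by
    apply hasDerivAt_re
    have h1 := (hasDerivAt_conj (hasDerivAt_Ah p t x)).mul (D.ht x)
    refine h1.congr_deriv ?_
    unfold Zf; simp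
  have hcP : Continuous (fun x => ((starRingEnd ℂ) (Ah p t x) * τ x).re) :=
    Complex.continuous_re.comp (c3.mul hct)
  have hcZr : Continuous (fun x => (Zf b p t τ Q x).re) := Complex.continuous_re.comp hZc
  have h0 := int_of_deriv (F := fun x => g x * ((starRingEnd ℂ) (Ah p t x) * τ x).re)
    (F' := fun x => g' x * ((starRingEnd ℂ) (Ah p t x) * τ x).re + g x * (Zf b p t τ Q x).re)
    (fun x => by simp only [D.gper, per_Ah, D.tper])
    (fun x => (D.gd x).mul (hPr x)) (by fun_prop)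
  have h1 : mr (fun x => g' x * ((starRingEnd ℂ) (Ah p t x) * τ x).re
      + g x * (Zf b p t τ Q x).re) = 0 := by
    unfold mr; rw [h0, mul_zero]
  rw [mr_add (by fun_prop) (by fun_prop)] at h1
  have h2 : (mean (fun x => g x * Zf b p t τ Q x)).re = mr (fun x => g x * (Zf b p t τ Q x).re) := by
    rw [mean_re (by fun_prop)]
    congr 1; funext x; simp
  rw [h2]; linarith

noncomputable def mm (b : ℝ) (Q : ℝ → ℂ) : ℂ := mean (fun x => Q x / (rho b x : ℂ))

noncomputable def Z0 (b t : ℝ) (Q : ℝ → ℂ) (x : ℝ) : ℂ :=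
  -Complex.I * mm b Q * (starRingEnd ℂ) (aa1 t x) - Complex.I * (Q x / (rho b x : ℂ))
    + Complex.I * mm b Q

lemma norm_Q (D : Dat b p n t k G g g' τ Q) (x : ℝ) : ‖Q x‖ ≤ |g x| + G1 g := by
  have h1 := (key_est D).1 x
  have h2 := norm_tg D
  have h3 := norm_Bf D.kg D.s x
  have h4 := G1_nonneg g
  obtain ⟨hb, hb', ht, ht', hp, hp', hn, hn'⟩ := D.s
  have e : Q x = g x * Bf b p t G x + ((Rr b p t G g Q x - Complex.I * tg b t g)
      + Complex.I * tg b t g) := by unfold Rr; ring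
  rw [e]
  refine (norm_add_le _ _).trans ?_
  have h5 := norm_add_le (Rr b p t G g Q x - Complex.I * tg b t g) (Complex.I * tg b t g)
  rw [norm_mul, Complex.norm_I, one_mul] at h5
  rw [norm_mul, Complex.norm_real, Real.norm_eq_abs]
  have h6 : |g x| * ‖Bf b p t G x‖ ≤ |g x| * 1 :=
    mul_le_mul_of_nonneg_left (by linarith) (abs_nonneg _)
  have h7 : 14 * p * G1 g ≤ G1 g / 2 := by nlinarith
  linarith

lemma Z_near (D : Dat b p n t k G g g' τ Q) (x : ℝ) :
    ‖Zf b p t τ Q x - Z0 b t Q x‖ ≤ p * (130 * G1 g + 4 * |g x|) := by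
  obtain ⟨-, -, kt, kE⟩ := key_est D
  have hQ := norm_Q D x
  have hG := G1_nonneg g
  obtain ⟨hb, hb', ht, ht', hp, hp', hn, hn'⟩ := D.s
  have e : Zf b p t τ Q x - Z0 b t Q x =
      ((starRingEnd ℂ) (aa1 t x) - 1) * (p * τ x + Complex.I * mm b Q)
      + (p : ℂ) * (starRingEnd ℂ) (aa t x) * (Q x / (rho b x : ℂ) - Complex.I * p * τ x) := by
    unfold Zf Z0 Ah
    simp only [map_add, map_mul, Complex.conj_I, Complex.conj_ofReal]
    linear_combination ((p : ℂ) * τ x) * Complex.I_sq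
  rw [e]
  have h1 : ‖((starRingEnd ℂ) (aa1 t x) - 1) * (p * τ x + Complex.I * mm b Q)‖ ≤
      3 * (40 * p * G1 g) := by
    rw [norm_mul]
    refine mul_le_mul ?_ (kE x) (norm_nonneg _) (by norm_num)
    refine (norm_sub_le _ _).trans ?_
    rw [RCLike.norm_conj, norm_one]
    have := norm_aa1 ht x
    linarith
  have h2 : ‖(p : ℂ) * (starRingEnd ℂ) (aa t x) * (Q x / (rho b x : ℂ) - Complex.I * p * τ x)‖ ≤
      (p * 2) * (2 * (|g x| + G1 g) + 3 * G1 g) := by
    rw [norm_mul, norm_mul, RCLike.norm_conj, Complex.norm_real, Real.norm_of_nonneg hp.le]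
    have h3 := norm_aa ht x
    refine mul_le_mul (mul_le_mul_of_nonneg_left (by linarith) hp.le) ?_ (norm_nonneg _)
      (by positivity)
    refine (norm_sub_le _ _).trans ?_
    have h4 := norm_div_rho hb hb' (Q x) x
    have h5 := kt x
    rw [norm_mul, norm_mul, Complex.norm_I, one_mul, Complex.norm_real, Real.norm_of_nonneg hp.le]
    linarith
  refine (norm_add_le _ _).trans ?_
  linarith

lemma G1_eq (g : ℝ → ℝ) : G1 g = 2 * π * mr (fun x => |g x|) := by
  unfold G1 mr; field_simp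

lemma norm_al (hg : Continuous g) {t : ℝ} (ht : 0 ≤ t) (ht' : t ≤ 1) :
    ‖al t g‖ ≤ 2 * mr (fun x => |g x|) := by
  unfold al
  refine norm_mean_le_mr.trans ?_
  rw [← mr_const_mul]
  have c2 := cont_conj (cont_aa1 t)
  apply mr_mono (by fun_prop) (by fun_prop)
  intro x
  rw [norm_mul, RCLike.norm_conj, Complex.norm_real, Real.norm_eq_abs, mul_comm]
  refine mul_le_mul_of_nonneg_right ?_ (abs_nonneg _)
  have := norm_aa1 ht x
  linarith

lemma mean_gZ0 (D : Dat b p n t k G g g' τ Q) : mean (fun x => g x * Z0 b t Q x) =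
    -Complex.I * mean (fun x => (al t g + g x) * Q x / (rho b x : ℂ)) := by
  have hcg := D.cg
  have hcQ := D.cQ
  have c1 : Continuous (fun x => Q x / (rho b x : ℂ)) := cont_div_rho hcQ
  have c2 := cont_conj (cont_aa1 t)
  have h0 : mean (fun x => (g x : ℂ)) = 0 := by
    rw [mean_ofReal, mr_zero_const D.gint]; simp
  have e1 : (fun x => (g x : ℂ) * Z0 b t Q x) = fun x =>
      (-Complex.I * mm b Q) * (g x * (starRingEnd ℂ) (aa1 t x))
      + ((-Complex.I) * (g x * (Q x / (rho b x : ℂ))) + (Complex.I * mm b Q) * (g x : ℂ)) := by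
    funext x; unfold Z0; ring
  have e2 : (fun x => (al t g + g x) * Q x / (rho b x : ℂ)) = fun x =>
      al t g * (Q x / (rho b x : ℂ)) + g x * (Q x / (rho b x : ℂ)) := by
    funext x; ring
  rw [e1, e2, mean_add (by fun_prop) (by fun_prop), mean_add (by fun_prop) (by fun_prop),
    mean_add (by fun_prop) (by fun_prop), mean_const_mul, mean_const_mul, mean_const_mul,
    mean_const_mul, h0]
  change -Complex.I * mm b Q * al t g + _ = -Complex.I * (al t g * mm b Q + _)
  ring

/-- the error in `Q` -/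
lemma Q_near (D : Dat b p n t k G g g' τ Q) (x : ℝ) :
    ‖Q x - Complex.I * (2 * om b t * g x + tg b t g)‖ ≤ p * (6 * |g x| + 14 * G1 g) := by
  have h1 := (key_est D).1 x
  have h2 := Bf_near D.kg D.s x
  obtain ⟨hb, hb', ht, ht', hp, hp', hn, hn'⟩ := D.s
  have e : Q x - Complex.I * (2 * om b t * g x + tg b t g) =
      g x * (Bf b p t G x - 2 * Complex.I * om b t) + (Rr b p t G g Q x - Complex.I * tg b t g) := by
    unfold Rr; ring
  rw [e]
  refine (norm_add_le _ _).trans ?_
  rw [norm_mul, Complex.norm_real, Real.norm_eq_abs]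
  have h3 : |g x| * ‖Bf b p t G x - 2 * Complex.I * om b t‖ ≤ |g x| * (6 * p) :=
    mul_le_mul_of_nonneg_left h2 (abs_nonneg _)
  linarith

lemma mean_al_Q (D : Dat b p n t k G g g' τ Q) :
    mean (fun x => (al t g + g x) * Q x / (rho b x : ℂ)) = Complex.I * XX b t g
      + mean (fun x => (al t g + g x) * (Q x - Complex.I * (2 * om b t * g x + tg b t g))
          / (rho b x : ℂ)) := by
  have hcg := D.cg
  have hcQ := D.cQ
  unfold XX
  rw [← mean_const_mul, ← mean_add]
  · congr 1; funext x; ring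
  · exact continuous_const.mul (cont_div_rho (by fun_prop))
  · exact cont_div_rho (by fun_prop)

lemma err1 (D : Dat b p n t k G g g' τ Q) :
    ‖mean (fun x => g x * (Zf b p t τ Q x - Z0 b t Q x))‖ ≤ 823 * (p * mr (fun x => g x ^ 2)) := by
  have hcg := D.cg
  have hcQ := D.cQ
  have hct := D.ct
  have c1 : Continuous (fun x => Q x / (rho b x : ℂ)) := cont_div_rho hcQ
  have c2 := cont_conj (cont_aa1 t)
  have hZc := cont_Zf (b := b) (p := p) (t := t) hct hcQ
  have hZ0 : Continuous (Z0 b t Q) := by unfold Z0; fun_prop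
  have hZn := Z_near D
  have hp := D.s.hp
  refine norm_mean_le_mr.trans ?_
  have h1 : mr (fun x => ‖(g x : ℂ) * (Zf b p t τ Q x - Z0 b t Q x)‖) ≤
      mr (fun x => (p * 130 * G1 g) * |g x| + (4 * p) * (g x) ^ 2) := by
    apply mr_mono (by fun_prop) (by fun_prop)
    intro x
    rw [norm_mul, Complex.norm_real, Real.norm_eq_abs]
    have h2 := mul_le_mul_of_nonneg_left (hZn x) (abs_nonneg (g x))
    have h3 : |g x| * |g x| = g x ^ 2 := by rw [← sq, sq_abs]
    calc _ ≤ _ := h2
      _ = p * 130 * G1 g * |g x| + 4 * p * (|g x| * |g x|) := by ring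
      _ = _ := by rw [h3]
  refine h1.trans ?_
  rw [mr_add (by fun_prop) (by fun_prop), mr_const_mul, mr_const_mul, G1_eq]
  have h4 := mr_abs_sq hcg
  have hpi := pi_lt_d2
  have hpi0 := pi_pos
  have h5 : 2 * π * mr (fun x => |g x|) ^ 2 ≤ 6.3 * mr (fun x => g x ^ 2) := by
    refine mul_le_mul (by linarith) h4 (sq_nonneg _) (by norm_num)
  have h6 := mul_le_mul_of_nonneg_left h5 (by positivity : 0 ≤ p * 130)
  nlinarith

lemma err2 (D : Dat b p n t k G g g' τ Q) :
    ‖mean (fun x => (al t g + g x) * (Q x - Complex.I * (2 * om b t * g x + tg b t g))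
          / (rho b x : ℂ))‖ ≤ 577 * (p * mr (fun x => g x ^ 2)) := by
  have hcg := D.cg
  have hcQ := D.cQ
  have hQn := Q_near D
  have hal := norm_al hcg D.s.ht D.s.ht'
  have h4 := mr_abs_sq hcg
  have hG := G1_nonneg g
  obtain ⟨hb, hb', ht, ht', hp, hp', hn, hn'⟩ := D.s
  refine norm_mean_le_mr.trans ?_
  set a := mr (fun x => |g x|) with ha
  have hcc : Continuous (fun x => (al t g + g x) * (Q x - Complex.I * (2 * om b t * g x + tg b t g))
          / (rho b x : ℂ)) := cont_div_rho (by fun_prop)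
  have h1 : mr (fun x => ‖(al t g + g x) * (Q x - Complex.I * (2 * om b t * g x + tg b t g))
          / (rho b x : ℂ)‖) ≤
      mr (fun x => (12 * p) * g x ^ 2 + ((24 * p * a + 28 * p * G1 g) * |g x|
        + (56 * p * a * G1 g))) := by
    apply mr_mono (by fun_prop) (by fun_prop)
    intro x
    refine (norm_div_rho hb hb' _ x).trans ?_
    rw [norm_mul]
    have h2 : ‖al t g + g x‖ ≤ 2 * a + |g x| := by
      refine (norm_add_le _ _).trans ?_
      rw [Complex.norm_real, Real.norm_eq_abs]; linarith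
    have h3 : |g x| * |g x| = g x ^ 2 := by rw [← sq, sq_abs]
    have h5 := mul_le_mul h2 (hQn x) (norm_nonneg _) (by
      have := norm_nonneg (al t g); have := abs_nonneg (g x); linarith)
    calc _ ≤ 2 * ((2 * a + |g x|) * (p * (6 * |g x| + 14 * G1 g))) :=
          mul_le_mul_of_nonneg_left h5 (by norm_num)
      _ = 12 * p * (|g x| * |g x|) + ((24 * p * a + 28 * p * G1 g) * |g x|
        + (56 * p * a * G1 g)) := by ring
      _ = _ := by rw [h3]
  refine h1.trans ?_
  rw [mr_add (by fun_prop) (by fun_prop), mr_add (by fun_prop) (by fun_prop), mr_const_mul,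
    mr_const_mul, mr_const, ← ha, G1_eq, ← ha]
  have hpi := pi_lt_d2
  have hpi0 := pi_pos
  have h5 : 2 * π * a ^ 2 ≤ 6.3 * mr (fun x => g x ^ 2) := by
    refine mul_le_mul (by linarith) h4 (sq_nonneg _) (by norm_num)
  have h6 := mul_le_mul_of_nonneg_left h5 (by positivity : 0 ≤ p * 84)
  have h7 := mul_le_mul_of_nonneg_left h4 (by positivity : 0 ≤ p * 24)
  nlinarith

/-- the core positivity. -/
theorem core (D : Dat b p n t k G g g' τ Q) (ht : t ≤ 3 * b / 4) (hp : p ≤ b / 100000) :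
    (b / 32) * mr (fun x => g x ^ 2) ≤
      mr (fun x => g' x * ((starRingEnd ℂ) (Ah p t x) * τ x).re) := by
  have hcg := D.cg
  have hcQ := D.cQ
  have hct := D.ct
  have c1 : Continuous (fun x => Q x / (rho b x : ℂ)) := cont_div_rho hcQ
  have c2 := cont_conj (cont_aa1 t)
  have hZc := cont_Zf (b := b) (p := p) (t := t) hct hcQ
  have hZ0 : Continuous (Z0 b t Q) := by unfold Z0; fun_prop
  have hX := XX_pos D.s.hb D.s.hb' D.s.ht ht hcg (mr_zero_const D.gint)
  have e1 : mean (fun x => g x * Zf b p t τ Q x) =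
      mean (fun x => g x * (Zf b p t τ Q x - Z0 b t Q x)) + mean (fun x => g x * Z0 b t Q x) := by
    rw [← mean_add (by fun_prop) (by fun_prop)]
    congr 1; funext x; ring
  set E1 := mean (fun x => g x * (Zf b p t τ Q x - Z0 b t Q x)) with hE1
  set E2 := mean (fun x => (al t g + g x) * (Q x - Complex.I * (2 * om b t * g x + tg b t g))
          / (rho b x : ℂ)) with hE2
  have h1 := err1 D
  have h2 := err2 D
  rw [← hE1] at h1
  rw [← hE2] at h2
  have e2 : mean (fun x => g x * Zf b p t τ Q x) = E1 + XX b t g + (-Complex.I) * E2 := by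
    rw [e1, mean_gZ0 D, mean_al_Q D, ← hE2]
    linear_combination (-(XX b t g)) * Complex.I_sq
  have h3 : |(E1).re| ≤ ‖E1‖ := Complex.abs_re_le_norm _
  have h4 : |((-Complex.I) * E2).re| ≤ ‖E2‖ := by
    refine (Complex.abs_re_le_norm _).trans ?_
    rw [norm_mul, norm_neg, Complex.norm_I, one_mul]
  rw [by_parts D, e2, Complex.add_re, Complex.add_re]
  have h5 := (abs_le.1 h3).2
  have h6 := (abs_le.1 h4).2
  have hq : 0 ≤ mr (fun x => g x ^ 2) := (sq_nonneg _).trans (mr_abs_sq hcg)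
  have h7 : p * mr (fun x => g x ^ 2) ≤ b / 100000 * mr (fun x => g x ^ 2) :=
    mul_le_mul_of_nonneg_right hp hq
  have h8 : 0 ≤ b * mr (fun x => g x ^ 2) := mul_nonneg D.s.hb.le hq
  linarith

end

end Run7.h998.EL
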