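import Mathlib
import Pool.Agent.Run7.h998.EL.Asy

open Real MeasureTheory intervalIntegral Set

namespace Run7.h998.EL

open Run7.h117

/-- periodic solution operator of `F' + i p F = f`. -/
noncomputable def J (p : ℝ) (f : ℝ → ℂ) (x : ℝ) : ℂ :=
  (Complex.exp (2 * π * p * Complex.I) - 1)⁻¹ *
    (Complex.exp (-(p * x * Complex.I)) * ∫ s in x..(x + 2 * π), Complex.exp (p * s * Complex.I) * f s)

lemma exp_ne_one {p : ℝ} (hp : 0 < p) (hp' : p ≤ 1 / 1000) :
    Complex.exp (2 * π * p * Complex.I) - 1 ≠ 0 := by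
  intro h
  rw [sub_eq_zero, Complex.exp_eq_one_iff] at h
  obtain ⟨n, hn⟩ := h
  have h2 : (p : ℂ) = n := by
    have h3 : (2 * π * Complex.I : ℂ) ≠ 0 := by
      simp [pi_ne_zero]
    have : (p : ℂ) * (2 * π * Complex.I) = n * (2 * π * Complex.I) := by
      rw [← hn]; ring
    exact mul_right_cancel₀ h3 this
  have h3 : p = n := by exact_mod_cast h2
  have h4 : (0 : ℝ) < n := by rw [← h3]; exact hp
  have h5 : (n : ℝ) < 1 := by rw [← h3]; linarith
  have h6 : 0 < n := by exact_mod_cast h4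
  have h7 : n < 1 := by exact_mod_cast h5
  omega

lemma J_hasDeriv {p : ℝ} (hp : 0 < p) (hp' : p ≤ 1 / 1000) {f : ℝ → ℂ} (hf : Continuous f)
    (hper : ∀ x, f (x + 2 * π) = f x) (x : ℝ) :
    HasDerivAt (J p f) (f x - Complex.I * p * J p f x) x := by
  set H : ℝ → ℂ := fun s => Complex.exp (p * s * Complex.I) * f s with hH
  have hHc : Continuous H := by simp only [hH]; fun_prop
  set Φ : ℝ → ℂ := fun x => ∫ s in (0 : ℝ)..x, H s with hΦ
  have hΦd : ∀ x, HasDerivAt Φ (H x) x := fun x => (hHc.integral_hasStrictDerivAt 0 x).hasDerivAt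
  have e1 : ∀ x, ∫ s in x..(x + 2 * π), H s = Φ (x + 2 * π) - Φ x := fun x => by
    simp only [hΦ]
    rw [intervalIntegral.integral_interval_sub_left (hHc.intervalIntegrable _ _)
      (hHc.intervalIntegrable _ _)]
  have hJ : J p f = fun x : ℝ => (Complex.exp (2 * π * p * Complex.I) - 1)⁻¹ *
    (Complex.exp (-(p * x * Complex.I)) * (Φ (x + 2 * π) - Φ x)) := by
    funext x; unfold J; rw [← e1]
  have hexp : HasDerivAt (fun x : ℝ => Complex.exp (-(p * x * Complex.I)))
      (-(p * Complex.I) * Complex.exp (-(p * x * Complex.I))) x := by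
    have h : HasDerivAt (fun z : ℂ => Complex.exp (-(p * z * Complex.I)))
        (Complex.exp (-(p * x * Complex.I)) * (-(p * 1 * Complex.I))) (x : ℂ) :=
      ((((hasDerivAt_id (x : ℂ)).const_mul (p : ℂ)).mul_const Complex.I).neg).cexp
    have := h.comp_ofReal
    refine this.congr_deriv ?_
    ring
  have hdiff : HasDerivAt (fun x => Φ (x + 2 * π) - Φ x) (H (x + 2 * π) - H x) x := by
    have h1 : HasDerivAt (fun x => Φ (x + 2 * π)) (H (x + 2 * π)) x := by
      simpa using (hΦd (x + 2 * π)).comp_add_const x (2 * π)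
    exact h1.sub (hΦd x)
  have hd := (hexp.mul hdiff).const_mul (Complex.exp (2 * π * p * Complex.I) - 1)⁻¹
  rw [hJ]
  refine hd.congr_deriv ?_
  have hne := exp_ne_one hp hp'
  have e2 : H (x + 2 * π) = Complex.exp (2 * π * p * Complex.I) * H x := by
    simp only [hH, hper]
    rw [← mul_assoc, ← Complex.exp_add]
    congr 2; push_cast; ring
  have e3 : Complex.exp (-(p * x * Complex.I)) * H x = f x := by
    simp only [hH]
    rw [← mul_assoc, ← Complex.exp_add]
    simp
  rw [e2]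
  have e4 : Complex.exp (-(p * x * Complex.I)) * (Complex.exp (2 * π * p * Complex.I) * H x - H x) =
      (Complex.exp (2 * π * p * Complex.I) - 1) * f x := by
    rw [← e3]; ring
  rw [mul_add, e4, inv_mul_cancel_left₀ hne]
  beta_reduce
  ring

lemma J_per {p : ℝ} (hp : 0 < p) (hp' : p ≤ 1 / 1000) {f : ℝ → ℂ}
    (hper : ∀ x, f (x + 2 * π) = f x) (x : ℝ) : J p f (x + 2 * π) = J p f x := by
  unfold J
  congr 1
  have h1 : ∫ s in (x + 2 * π)..(x + 2 * π + 2 * π), Complex.exp (p * s * Complex.I) * f s =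
      ∫ s in x..(x + 2 * π), Complex.exp (p * (s + 2 * π : ℝ) * Complex.I) * f (s + 2 * π) := by
    rw [intervalIntegral.integral_comp_add_right
      (f := fun s : ℝ => Complex.exp (p * s * Complex.I) * f s)]
  rw [h1, ← intervalIntegral.integral_const_mul, ← intervalIntegral.integral_const_mul]
  congr 1
  funext s
  rw [hper, ← mul_assoc, ← mul_assoc, ← Complex.exp_add, ← Complex.exp_add]
  congr 2
  push_cast; ring

lemma J_cont {p : ℝ} (hp : 0 < p) (hp' : p ≤ 1 / 1000) {f : ℝ → ℂ} (hf : Continuous f)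
    (hper : ∀ x, f (x + 2 * π) = f x) : Continuous (J p f) :=
  continuous_iff_continuousAt.2 fun y => (J_hasDeriv hp hp' hf hper y).continuousAt

lemma J_bound {p : ℝ} (hp : 0 < p) (hp' : p ≤ 1 / 1000) {f : ℝ → ℂ} (hf : Continuous f)
    (hper : ∀ x, f (x + 2 * π) = f x) {M : ℝ} (hM : ∀ x, ‖f x‖ ≤ M) (x : ℝ) :
    ‖J p f x‖ ≤ 2 / p * M := by
  have hd := J_hasDeriv hp hp' hf hper
  have hJp := J_per hp hp' hper
  have h1 := apri_sup hp.le (by linarith) hJp hd hf hM x
  have h2 := apri_mean hJp hd hf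
  have h3 := mean_sup hM
  rw [← h2, norm_mul, norm_mul, Complex.norm_I, one_mul, Complex.norm_real,
    Real.norm_of_nonneg hp.le] at h3
  have hM0 : 0 ≤ M := (norm_nonneg _).trans (hM 0)
  have h4 : ‖J p f x‖ ≤ ‖J p f x - mean (J p f)‖ + ‖mean (J p f)‖ := by
    calc ‖J p f x‖ = ‖(J p f x - mean (J p f)) + mean (J p f)‖ := by rw [sub_add_cancel]
      _ ≤ _ := norm_add_le _ _
  rw [div_mul_eq_mul_div, le_div_iff₀ hp]
  nlinarith [norm_nonneg (J p f x)]

lemma J_sub {p : ℝ} {f g : ℝ → ℂ} (hf : Continuous f) (hg : Continuous g) (x : ℝ) :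
    J p f x - J p g x = J p (fun x => f x - g x) x := by
  unfold J
  rw [← mul_sub, ← mul_sub, ← intervalIntegral.integral_sub]
  · congr 3
    funext s; ring
  · exact Continuous.intervalIntegrable (by fun_prop) _ _
  · exact Continuous.intervalIntegrable (by fun_prop) _ _

abbrev PX : Type := {f : BoundedContinuousFunction ℝ ℂ // ∀ x, f (x + 2 * π) = f x}

open BoundedContinuousFunction in
/-- existence for the second order problem. -/
theorem exists_tau {b p n : ℝ} (hb : 0 < b) (hb' : b ≤ 1 / 100) (hp : 0 < p) (hp' : p ≤ 1 / 1000)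
    (hn : 0 ≤ n) (hn' : n ≤ p ^ 2) {S : ℝ → ℂ} (hS : Continuous S)
    (hSper : ∀ x, S (x + 2 * π) = S x) :
    ∃ τ Q : ℝ → ℂ, (∀ x, τ (x + 2 * π) = τ x) ∧ (∀ x, Q (x + 2 * π) = Q x) ∧
      (∀ x, HasDerivAt τ (Q x / (rho b x : ℂ) - Complex.I * p * τ x) x) ∧
      (∀ x, HasDerivAt Q (S x + n ^ 2 * rho b x * τ x - Complex.I * p * Q x) x) := by
  have hcl : IsClosed {f : BoundedContinuousFunction ℝ ℂ | ∀ x, f (x + 2 * π) = f x} := by
    rw [Set.ofPred_forall]
    refine isClosed_iInter fun x => isClosed_eq ?_ ?_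
    · exact continuous_eval_const (x + 2 * π)
    · exact continuous_eval_const x
  have : CompleteSpace PX := hcl.completeSpace_coe
  have : Nonempty PX := ⟨⟨0, fun x => by simp⟩⟩
  -- inner function
  let P : (ℝ → ℂ) → ℝ → ℂ := fun f => J p (fun x => S x + n ^ 2 * rho b x * f x)
  have hPsc : ∀ f : ℝ → ℂ, Continuous f → Continuous (fun x => S x + n ^ 2 * rho b x * f x) :=
    fun f hf => by fun_prop
  have hPsp : ∀ f : ℝ → ℂ, (∀ x, f (x + 2 * π) = f x) → ∀ x,
      (fun x => S x + n ^ 2 * rho b x * f x) (x + 2 * π) = (fun x => S x + n ^ 2 * rho b x * f x) x :=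
    fun f hf x => by simp only [hSper, per_rho, hf]
  have hPc : ∀ f : ℝ → ℂ, Continuous f → (∀ x, f (x + 2 * π) = f x) → Continuous (P f) :=
    fun f hf hfp => J_cont hp hp' (hPsc f hf) (hPsp f hfp)
  have hPp : ∀ f : ℝ → ℂ, (∀ x, f (x + 2 * π) = f x) → ∀ x, P f (x + 2 * π) = P f x :=
    fun f hfp => J_per hp hp' (hPsp f hfp)
  let Kf : (ℝ → ℂ) → ℝ → ℂ := fun f => J p (fun x => P f x / (rho b x : ℂ))
  have hKsp : ∀ f : ℝ → ℂ, (∀ x, f (x + 2 * π) = f x) → ∀ x,
      (fun x => P f x / (rho b x : ℂ)) (x + 2 * π) = (fun x => P f x / (rho b x : ℂ)) x :=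
    fun f hfp x => by simp only [hPp f hfp, per_rho]
  have hKsc : ∀ f : ℝ → ℂ, Continuous f → (∀ x, f (x + 2 * π) = f x) →
      Continuous (fun x => P f x / (rho b x : ℂ)) := fun f hf hfp => cont_div_rho (hPc f hf hfp)
  have hKc : ∀ f : ℝ → ℂ, Continuous f → (∀ x, f (x + 2 * π) = f x) → Continuous (Kf f) :=
    fun f hf hfp => J_cont hp hp' (hKsc f hf hfp) (hKsp f hfp)
  have hKp : ∀ f : ℝ → ℂ, (∀ x, f (x + 2 * π) = f x) → ∀ x, Kf f (x + 2 * π) = Kf f x :=
    fun f hfp => J_per hp hp' (hKsp f hfp)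
  let K : PX → PX := fun f => ⟨BoundedContinuousFunction.ofNormedAddCommGroup (Kf f.1)
      (hKc f.1 f.1.continuous f.2)
      (‖Kf f.1 (Classical.choose (exists_max (hKp f.1 f.2) (hKc f.1 f.1.continuous f.2)))‖)
      (Classical.choose_spec (exists_max (hKp f.1 f.2) (hKc f.1 f.1.continuous f.2))),
      fun x => hKp f.1 f.2 x⟩
  have hKv : ∀ (f : PX) (x : ℝ), (K f).1 x = Kf f.1 x := fun f x => rfl
  have hlip : LipschitzWith (1 / 2) K := by
    apply LipschitzWith.of_dist_le_mul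
    intro f g
    have hfg : ∀ x, ‖f.1 x - g.1 x‖ ≤ dist f g := fun x => by
      rw [← dist_eq_norm]; exact BoundedContinuousFunction.dist_coe_le_dist x
    have h0 : 0 ≤ dist f g := dist_nonneg
    have hf2 : ∀ x, f.1 (x + 2 * π) = f.1 x := f.2
    have hg2 : ∀ x, g.1 (x + 2 * π) = g.1 x := g.2
    have hd0 : dist (K f) (K g) = dist (K f).1 (K g).1 := rfl
    rw [hd0, BoundedContinuousFunction.dist_le (by positivity)]
    intro x
    rw [hKv, hKv, dist_eq_norm]
    have c1 := hPc f.1 f.1.continuous f.2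
    have c2 := hPc g.1 g.1.continuous g.2
    have hPd : ∀ x, P f.1 x - P g.1 x = J p (fun x => n ^ 2 * rho b x * (f.1 x - g.1 x)) x := by
      intro x
      simp only [P]
      rw [J_sub (hPsc _ f.1.continuous) (hPsc _ g.1.continuous)]
      congr 1; funext x; ring
    have hPb : ∀ x, ‖P f.1 x - P g.1 x‖ ≤ 2 / p * (n ^ 2 * 2 * dist f g) := fun x => by
      rw [hPd x]
      refine J_bound hp hp' ?_ ?_ ?_ x
      · have := f.1.continuous; have := g.1.continuous; fun_prop
      · intro x; simp only [per_rho, hf2, hg2]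
      · intro x
        rw [norm_mul, norm_mul, norm_pow, Complex.norm_real, Complex.norm_real,
          Real.norm_of_nonneg hn, Real.norm_of_nonneg (rho_pos b x).le]
        have h1 := rho_le hb hb' x
        have h4 := (rho_pos b x).le
        have := hfg x
        gcongr
    have hKd : Kf f.1 x - Kf g.1 x = J p (fun x => (P f.1 x - P g.1 x) / (rho b x : ℂ)) x := by
      simp only [Kf]
      rw [J_sub (cont_div_rho c1) (cont_div_rho c2)]
      congr 1; funext x; ring
    rw [hKd]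
    have h1 := J_bound hp hp' (cont_div_rho (b := b) (c1.sub c2))
      (fun x => by simp only [Pi.sub_apply, hPp _ hf2, hPp _ hg2, per_rho])
      (fun x => (norm_div_rho hb hb' _ x).trans
        (mul_le_mul_of_nonneg_left (hPb x) (by norm_num))) x
    refine h1.trans ?_
    have hn2 : n ^ 2 ≤ p ^ 4 := by
      calc n ^ 2 ≤ (p ^ 2) ^ 2 := by gcongr
        _ = p ^ 4 := by ring
    have : 2 / p * (2 * (2 / p * (n ^ 2 * 2 * dist f g))) ≤
        2 / p * (2 * (2 / p * (p ^ 4 * 2 * dist f g))) := by gcongr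
    refine this.trans ?_
    have e : 2 / p * (2 * (2 / p * (p ^ 4 * 2 * dist f g))) = 16 * p ^ 2 * dist f g := by
      field_simp; ring
    rw [e]
    have : 16 * p ^ 2 ≤ 1 / 2 := by nlinarith
    push_cast
    gcongr
  have hcon : ContractingWith (1 / 2) K := ⟨by norm_num, hlip⟩
  set τ := ContractingWith.fixedPoint K hcon with hτ
  have hfix : K τ = τ := ContractingWith.fixedPoint_isFixedPt hcon
  have hval : ∀ x, τ.1 x = Kf τ.1 x := fun x => by
    conv_lhs => rw [← hfix]
    exact hKv τ x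
  have hfun : (fun x => τ.1 x) = Kf τ.1 := funext hval
  refine ⟨fun x => τ.1 x, P τ.1, τ.2, hPp _ τ.2, ?_, ?_⟩
  · intro x
    have h1 := J_hasDeriv hp hp' (hKsc τ.1 τ.1.continuous τ.2) (hKsp τ.1 τ.2) x
    have h2 : HasDerivAt (Kf τ.1) (P τ.1 x / (rho b x : ℂ) - Complex.I * p * Kf τ.1 x) x := h1
    rw [← hfun] at h2
    exact h2
  · intro x
    exact J_hasDeriv hp hp' (hPsc τ.1 τ.1.continuous) (hPsp τ.1 τ.2) x

end Run7.h998.EL
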