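import Mathlib
import Pool.Agent.Run7.h998.EL.Core2
import Pool.Agent.Run7.h998.EL.Ex

open Real MeasureTheory intervalIntegral Set

namespace Run7.h998.EL

open Run7.h117

/-- `Re (F(x) e^{iy})`. -/
noncomputable def cr (F : ℝ → ℂ) : ℝ → ℝ → ℝ := tr (fun x => (F x).re) (fun x => -(F x).im)

lemma dx_cr {F F' : ℝ → ℂ} (h : ∀ x, HasDerivAt F (F' x) x) : dx (cr F) = cr F' :=
  dx_tr (fun x => hasDerivAt_re (h x)) (fun x => (hasDerivAt_im (h x)).neg)

lemma dy_cr (F : ℝ → ℂ) : dy (cr F) = cr (fun x => Complex.I * F x) := by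
  unfold cr
  rw [dy_tr]
  congr 1
  · funext x; simp
  · funext x; simp

lemma DD_cr {p : ℝ} {F F1 : ℝ → ℂ} (h : ∀ x, HasDerivAt F (F1 x - Complex.I * p * F x) x) :
    DD p (cr F) = cr F1 := by
  funext x y
  unfold DD
  rw [dx_cr h, dy_cr]
  simp only [cr, tr]
  simp
  ring

lemma m1_cr (b p t : ℝ) : m1 b p t = cr (fun x => Ah p t x / (rho b x : ℂ)) := by
  funext x y
  unfold m1
  rw [AA_tr]
  simp only [cr, tr]
  have h1 : (Ah p t x / (rho b x : ℂ)).re = A0 p t x / rho b x := by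
    rw [Complex.div_ofReal_re, Ah_eq]; simp
  have h2 : (Ah p t x / (rho b x : ℂ)).im = -C0 p t x / rho b x := by
    rw [Complex.div_ofReal_im, Ah_eq]; simp
  rw [h1, h2]; ring

lemma D_m1 (b p t : ℝ) : DD p (m1 b p t) =
    cr (fun x => (p * dd p t x - 2 * ww b x * Ah p t x) / (rho b x : ℂ)) := by
  rw [m1_cr]
  apply DD_cr
  intro x
  have h1 := (hasDerivAt_Ah p t x).mul ((hasDerivAt_rho_inv b x).ofReal_comp)
  have h2 : (fun x => Ah p t x / (rho b x : ℂ)) = fun x => Ah p t x * (((rho b x)⁻¹ : ℝ) : ℂ) := by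
    funext x; push_cast; rw [div_eq_mul_inv]
  rw [h2]
  refine h1.congr_deriv ?_
  have hr : (rho b x : ℂ) ≠ 0 := by exact_mod_cast (rho_pos b x).ne'
  unfold dd Ah
  push_cast
  field_simp
  linear_combination (p : ℂ) * Complex.I_sq

lemma cr_add (F H : ℝ → ℂ) (x y : ℝ) : cr F x y + cr H x y = cr (fun x => F x + H x) x y := by
  simp only [cr, tr]; simp; ring

lemma cr_smul (c : ℝ) (F : ℝ → ℂ) (x y : ℝ) (F' : ℝ → ℂ) (h : F' x = c * F x) :
    c * cr F x y = cr F' x y := by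
  simp only [cr, tr, h]; simp; ring

/-- the main operator applied to `T = cr (v τ)`. -/
lemma T_eq {b p n : ℝ} {τ Q S : ℝ → ℂ}
    (ht : ∀ x, HasDerivAt τ (Q x / (rho b x : ℂ) - Complex.I * p * τ x) x)
    (hQ : ∀ x, HasDerivAt Q (S x + n ^ 2 * rho b x * τ x - Complex.I * p * Q x) x) (x y : ℝ) :
    DD p (DD p (cr (fun x => vv b x * τ x))) x y + n ^ 2 * dy (dy (cr (fun x => vv b x * τ x))) x y
      - (ww' b x + ww b x ^ 2) * cr (fun x => vv b x * τ x) x y
      = cr (fun x => vv b x * S x / (rho b x : ℂ)) x y := by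
  have h1 : ∀ x, HasDerivAt (fun x => (vv b x : ℂ) * τ x)
      (vv b x * (ww b x * τ x + Q x / (rho b x : ℂ)) - Complex.I * p * (vv b x * τ x)) x := fun x => by
    have := (hasDerivAt_vv b x).ofReal_comp.mul (ht x)
    refine this.congr_deriv ?_
    push_cast; ring
  have h2 : ∀ x, HasDerivAt (fun x => (vv b x : ℂ) * (ww b x * τ x + Q x / (rho b x : ℂ)))
      (vv b x * ((ww' b x + ww b x ^ 2 + n ^ 2) * τ x + S x / (rho b x : ℂ))
        - Complex.I * p * (vv b x * (ww b x * τ x + Q x / (rho b x : ℂ)))) x := fun x => by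
    have hq : HasDerivAt (fun x => Q x / (rho b x : ℂ))
        ((S x + n ^ 2 * rho b x * τ x - Complex.I * p * Q x) * (((rho b x)⁻¹ : ℝ) : ℂ)
          + Q x * ((-2 * ww b x * (rho b x)⁻¹ : ℝ) : ℂ)) x := by
      have h1 := (hQ x).mul ((hasDerivAt_rho_inv b x).ofReal_comp)
      have h2 : (fun x => Q x / (rho b x : ℂ)) = fun x => Q x * (((rho b x)⁻¹ : ℝ) : ℂ) := by
        funext x; push_cast; rw [div_eq_mul_inv]
      rw [h2]
      exact h1
    have := (hasDerivAt_vv b x).ofReal_comp.mul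
      (((hasDerivAt_ww b x).ofReal_comp.mul (ht x)).add hq)
    refine this.congr_deriv ?_
    have hr : (rho b x : ℂ) ≠ 0 := by exact_mod_cast (rho_pos b x).ne'
    simp only [Pi.add_apply, Pi.mul_apply]
    push_cast
    field_simp
    ring
  rw [DD_cr h1, DD_cr h2, dy_cr, dy_cr]
  simp only [cr, tr]
  have e1 : (vv b x * ((ww' b x + ww b x ^ 2 + n ^ 2) * τ x + S x / (rho b x : ℂ)) : ℂ) =
      ((ww' b x + ww b x ^ 2 + n ^ 2 : ℝ) : ℂ) * (vv b x * τ x) + vv b x * S x / (rho b x : ℂ) := by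
    push_cast; ring
  have e2 : Complex.I * (Complex.I * (vv b x * τ x)) = -(vv b x * τ x) := by
    linear_combination ((vv b x : ℂ) * τ x) * Complex.I_sq
  rw [e1, e2]
  simp only [Complex.add_re, Complex.add_im, Complex.re_ofReal_mul, Complex.im_ofReal_mul,
    Complex.neg_re, Complex.neg_im]
  ring

lemma cr_harm (F : ℝ → ℂ) (x y : ℝ) : cr F x (y + π / 2) = dy (cr F) x y := tr_harm _ _ x y

lemma cr_per {F : ℝ → ℂ} (h : ∀ x, F (x + 2 * π) = F x) : Per (cr F) := by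
  refine ⟨fun x y => ?_, fun x y => ?_⟩
  · simp only [cr, tr, h]
  · simp only [cr, tr, cos_add_two_pi, sin_add_two_pi]

lemma cr_CD {F : ℝ → ℂ} {m : WithTop ℕ∞} (h : ContDiff ℝ m F) : CD m (cr F) := by
  unfold CD cr tr
  have h1 : ContDiff ℝ m (fun x => (F x).re) := Complex.reCLM.contDiff.comp h
  have h2 : ContDiff ℝ m (fun x => (F x).im) := Complex.imCLM.contDiff.comp h
  have h3 : ContDiff ℝ m (fun z : ℝ × ℝ => (F z.1).re) := h1.comp contDiff_fst
  have h4 : ContDiff ℝ m (fun z : ℝ × ℝ => (F z.1).im) := h2.comp contDiff_fst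
  have h5 : ContDiff ℝ m (fun z : ℝ × ℝ => cos z.2) := Real.contDiff_cos.comp contDiff_snd
  have h6 : ContDiff ℝ m (fun z : ℝ × ℝ => sin z.2) := Real.contDiff_sin.comp contDiff_snd
  exact (h3.mul h5).add (h4.neg.mul h6)

lemma int_cr_sq (F : ℝ → ℂ) (x : ℝ) :
    ∫ y in (0 : ℝ)..(2 * π), cr F x y ^ 2 = π * ‖F x‖ ^ 2 := by
  have h1 : ∀ y, cr F x y ^ 2 = cr F x y * cr F x y := fun y => sq _
  simp_rw [h1]
  unfold cr
  rw [int_tr_mul, ← Complex.normSq_eq_norm_sq, Complex.normSq_apply]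
  ring

lemma cont_cr_y (F : ℝ → ℂ) (x : ℝ) : Continuous (fun y => cr F x y) := by
  unfold cr tr; fun_prop

lemma int_cr_mul (F H : ℝ → ℂ) (x : ℝ) :
    ∫ y in (0 : ℝ)..(2 * π), cr F x y * cr H x y = π * ((starRingEnd ℂ) (F x) * H x).re := by
  unfold cr
  rw [int_tr_mul]
  simp

lemma contDiff_of_hasDeriv {F F' : ℝ → ℂ} {m : ℕ} (h : ∀ x, HasDerivAt F (F' x) x)
    (hF' : ContDiff ℝ m F') : ContDiff ℝ (m + 1 : ℕ) F := by
  have e : deriv F = F' := funext fun x => (h x).deriv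
  have : ((m + 1 : ℕ) : WithTop ℕ∞) = (m : WithTop ℕ∞) + 1 := by push_cast; rfl
  rw [this, contDiff_succ_iff_deriv]
  refine ⟨fun x => (h x).differentiableAt, fun hh => ?_, ?_⟩
  · exact absurd hh (by exact WithTop.natCast_ne_top m)
  · rw [e]; exact hF'

lemma contDiff_rhoC (b : ℝ) (m : WithTop ℕ∞) : ContDiff ℝ m (fun x => (rho b x : ℂ)) := by
  have h : ContDiff ℝ m (rho b) := by unfold rho; fun_prop
  exact Complex.ofRealCLM.contDiff.comp h

lemma contDiff_rhoinvC (b : ℝ) (m : WithTop ℕ∞) :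
    ContDiff ℝ m (fun x => (((rho b x)⁻¹ : ℝ) : ℂ)) := by
  have h : ContDiff ℝ m (fun x => (rho b x)⁻¹) := by
    simp_rw [rho_inv_exp]; fun_prop
  exact Complex.ofRealCLM.contDiff.comp h

lemma contDiff_vvC (b : ℝ) (m : WithTop ℕ∞) : ContDiff ℝ m (fun x => (vv b x : ℂ)) := by
  have h : ContDiff ℝ m (vv b) := by unfold vv; fun_prop
  exact Complex.ofRealCLM.contDiff.comp h

lemma contDiff_tau {b p n : ℝ} {τ Q S : ℝ → ℂ} (hS : Continuous S)
    (ht : ∀ x, HasDerivAt τ (Q x / (rho b x : ℂ) - Complex.I * p * τ x) x)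
    (hQ : ∀ x, HasDerivAt Q (S x + n ^ 2 * rho b x * τ x - Complex.I * p * Q x) x) :
    ContDiff ℝ 2 τ := by
  have ct : Continuous τ := continuous_iff_continuousAt.2 fun y => (ht y).continuousAt
  have cQ : Continuous Q := continuous_iff_continuousAt.2 fun y => (hQ y).continuousAt
  have h1 : ContDiff ℝ (0 + 1 : ℕ) Q := contDiff_of_hasDeriv hQ (by
    rw [Nat.cast_zero, contDiff_zero]; fun_prop)
  have h2 : ContDiff ℝ (0 + 1 : ℕ) τ := contDiff_of_hasDeriv ht (by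
    rw [Nat.cast_zero, contDiff_zero]
    have := cont_div_rho (b := b) cQ
    fun_prop)
  have h3 : ContDiff ℝ (1 + 1 : ℕ) τ := contDiff_of_hasDeriv ht (by
    have h4 : ContDiff ℝ (1 : ℕ) Q := by simpa using h1
    have h5 : ContDiff ℝ (1 : ℕ) τ := by simpa using h2
    have h6 : ContDiff ℝ (1 : ℕ) (fun x => Q x / (rho b x : ℂ)) := by
      have h8 := h4.mul (contDiff_rhoinvC b (1 : ℕ))
      have h9 : (fun x => Q x / (rho b x : ℂ)) = fun x => Q x * (((rho b x)⁻¹ : ℝ) : ℂ) := by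
        funext x; push_cast; rw [div_eq_mul_inv]
      rw [h9]; exact h8
    have h7 : ContDiff ℝ (1 : ℕ) (fun x => Complex.I * p * τ x) := contDiff_const.mul h5
    exact h6.sub h7)
  exact_mod_cast h3

lemma vv_pos (b x : ℝ) : 0 < vv b x := Real.exp_pos _

lemma vv_le {b : ℝ} (hb : 0 < b) (hb' : b ≤ 1 / 100) (x : ℝ) : vv b x ≤ 2 := by
  have h1 := vv_sq b x
  have h2 := rho_le hb hb' x
  nlinarith [vv_pos b x]

end Run7.h998.EL
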