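import Mathlib
import Pool.Agent.Run7.h998.EL.L1

open Real MeasureTheory intervalIntegral Set

namespace Run7.h998.EL

open Run7.h117

lemma per_derivR {F F' : ℝ → ℝ} (hper : ∀ x, F (x + 2 * π) = F x)
    (hd : ∀ x, HasDerivAt F (F' x) x) (x : ℝ) : F' (x + 2 * π) = F' x := by
  have h1 : HasDerivAt (fun y => F (y + 2 * π)) (F' (x + 2 * π)) x := by
    have := (hd (x + 2 * π)).comp_add_const x (2 * π)
    simpa using this
  have h2 : (fun y => F (y + 2 * π)) = F := by
    funext y; exact hper y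
  rw [h2] at h1
  exact h1.unique (hd x)

/-- the `H¹` bound. -/
lemma H1_bound {b p n t : ℝ} {k G : ℝ → ℂ} {g g' : ℝ → ℝ} {τ Q : ℝ → ℂ}
    (D : Dat b p n t k G g g' τ Q) :
    (∫ x in (0 : ℝ)..(2 * π), ∫ y in (0 : ℝ)..(2 * π),
        (cr (fun x => vv b x * τ x) x y ^ 2 + dx (cr (fun x => vv b x * τ x)) x y ^ 2
          + dy (cr (fun x => vv b x * τ x)) x y ^ 2)) ≤
      (100000 / p ^ 2) * ∫ x in (0 : ℝ)..(2 * π), g x ^ 2 := by
  have hcg := D.cg
  have hcQ := D.cQ
  have hct := D.ct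
  have htau := (key_est D).2.2.1
  have hQn := norm_Q D
  have hG := G1_nonneg g
  have hs := D.s
  obtain ⟨hb, hb', ht, ht', hp, hp', hn, hn'⟩ := hs
  set F : ℝ → ℂ := fun x => vv b x * τ x with hF
  set F' : ℝ → ℂ := fun x => vv b x * (ww b x * τ x + (Q x / (rho b x : ℂ) - Complex.I * p * τ x))
    with hF'
  have hd : ∀ x, HasDerivAt F (F' x) x := fun x => by
    have := (hasDerivAt_vv b x).ofReal_comp.mul (D.ht x)
    refine this.congr_deriv ?_
    simp only [hF']
    push_cast; ring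
  have c1 : Continuous (fun x => Q x / (rho b x : ℂ)) := cont_div_rho hcQ
  have hFc : Continuous F := by simp only [hF]; fun_prop
  have hFc' : Continuous F' := by simp only [hF']; fun_prop
  rw [dx_cr hd, dy_cr]
  have hinner : ∀ x, (∫ y in (0 : ℝ)..(2 * π), (cr F x y ^ 2 + cr F' x y ^ 2
      + cr (fun x => Complex.I * F x) x y ^ 2)) = π * (2 * ‖F x‖ ^ 2 + ‖F' x‖ ^ 2) := fun x => by
    have i1 := cont_cr_y F x
    have i2 := cont_cr_y F' x
    have i3 := cont_cr_y (fun x => Complex.I * F x) x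
    rw [intervalIntegral.integral_add (Continuous.intervalIntegrable (by fun_prop) _ _)
      (Continuous.intervalIntegrable (by fun_prop) _ _),
      intervalIntegral.integral_add (Continuous.intervalIntegrable (by fun_prop) _ _)
      (Continuous.intervalIntegrable (by fun_prop) _ _), int_cr_sq, int_cr_sq, int_cr_sq,
      norm_mul Complex.I, Complex.norm_I, one_mul]
    ring
  simp_rw [hinner]
  -- pointwise bounds
  have hτ : ∀ x, ‖τ x‖ ≤ 3 * G1 g / p := fun x => by
    rw [le_div_iff₀ hp]; have := htau x; linarith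
  set K := G1 g / p with hK
  have hK0 : 0 ≤ K := by positivity
  have hτ' : ∀ x, ‖τ x‖ ≤ 3 * K := fun x => by
    have := hτ x; rw [hK]; rw [mul_div_assoc] at this; exact this
  have hGK : G1 g ≤ K / 1000 := by
    rw [hK, div_div, le_div_iff₀ (by positivity)]
    nlinarith
  have bF : ∀ x, ‖F x‖ ≤ 6 * K := fun x => by
    simp only [hF]
    rw [norm_mul, Complex.norm_real, Real.norm_of_nonneg (vv_pos b x).le]
    have h1 := vv_le hb hb' x
    calc vv b x * ‖τ x‖ ≤ 2 * (3 * K) := mul_le_mul h1 (hτ' x) (norm_nonneg _) (by norm_num)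
      _ = _ := by ring
  have bF' : ∀ x, ‖F' x‖ ≤ 7 * K + 4 * |g x| := fun x => by
    simp only [hF']
    rw [norm_mul, Complex.norm_real, Real.norm_of_nonneg (vv_pos b x).le]
    have h1 := vv_le hb hb' x
    have h2 : ‖(ww b x : ℂ) * τ x + (Q x / (rho b x : ℂ) - Complex.I * p * τ x)‖ ≤
        7 / 2 * K + 2 * |g x| := by
      refine (norm_add_le _ _).trans ?_
      have h3 := norm_sub_le (Q x / (rho b x : ℂ)) (Complex.I * p * τ x)
      have h4 := norm_div_rho hb hb' (Q x) x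
      have h5 := hQn x
      rw [norm_mul (Complex.I * p), norm_mul, Complex.norm_I, one_mul, Complex.norm_real,
        Real.norm_of_nonneg hp.le] at h3
      have h6 := htau x
      have h7 : ‖(ww b x : ℂ) * τ x‖ ≤ 3 * K := by
        rw [norm_mul, Complex.norm_real, Real.norm_eq_abs]
        have h8 := abs_ww hb x
        calc |ww b x| * ‖τ x‖ ≤ 1 * (3 * K) :=
              mul_le_mul (by linarith) (hτ' x) (norm_nonneg _) (by norm_num)
          _ = _ := by ring
      linarith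
    calc vv b x * _ ≤ 2 * (7 / 2 * K + 2 * |g x|) :=
          mul_le_mul h1 h2 (norm_nonneg _) (by norm_num)
      _ = _ := by ring
  have hpt : ∀ x, π * (2 * ‖F x‖ ^ 2 + ‖F' x‖ ^ 2) ≤ π * (170 * K ^ 2 + 32 * g x ^ 2) := fun x => by
    refine mul_le_mul_of_nonneg_left ?_ pi_pos.le
    have h1 := pow_le_pow_left₀ (norm_nonneg _) (bF x) 2
    have h2 := pow_le_pow_left₀ (norm_nonneg _) (bF' x) 2
    have h3 : (7 * K + 4 * |g x|) ^ 2 ≤ 2 * (7 * K) ^ 2 + 2 * (4 * |g x|) ^ 2 := by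
      nlinarith [sq_nonneg (7 * K - 4 * |g x|)]
    have h4 : (4 * |g x|) ^ 2 = 16 * g x ^ 2 := by rw [mul_pow, sq_abs]; norm_num
    nlinarith [sq_nonneg K]
  have h1 : ∫ x in (0 : ℝ)..(2 * π), π * (2 * ‖F x‖ ^ 2 + ‖F' x‖ ^ 2) ≤
      ∫ x in (0 : ℝ)..(2 * π), π * (170 * K ^ 2 + 32 * g x ^ 2) := by
    apply integral_mono_on (by positivity)
    · exact Continuous.intervalIntegrable (by fun_prop) _ _
    · exact Continuous.intervalIntegrable (by fun_prop) _ _
    · intro x _; exact hpt x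
  refine h1.trans ?_
  have e0 : ∫ x in (0 : ℝ)..(2 * π), π * (170 * K ^ 2 + 32 * g x ^ 2) =
      π * (2 * π * (170 * K ^ 2) + 32 * ∫ x in (0 : ℝ)..(2 * π), g x ^ 2) := by
    rw [intervalIntegral.integral_const_mul, intervalIntegral.integral_add (by simp)
      (Continuous.intervalIntegrable (by fun_prop) _ _), intervalIntegral.integral_const,
      sub_zero, smul_eq_mul, intervalIntegral.integral_const_mul]
  rw [e0]
  set I := ∫ x in (0 : ℝ)..(2 * π), g x ^ 2 with hI
  have hI0 : 0 ≤ I := intervalIntegral.integral_nonneg (by positivity) fun _ _ => sq_nonneg _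
  -- G1² ≤ 2π I
  have hG2 : G1 g ^ 2 ≤ 2 * π * I := by
    have h3 := mr_abs_sq hcg
    have h4 : mr (fun x => g x ^ 2) = (2 * π)⁻¹ * I := rfl
    rw [h4] at h3
    rw [G1_eq]
    have hpi := pi_pos
    calc (2 * π * mr (fun x => |g x|)) ^ 2 = (2 * π) ^ 2 * mr (fun x => |g x|) ^ 2 := by ring
      _ ≤ (2 * π) ^ 2 * ((2 * π)⁻¹ * I) := by gcongr
      _ = 2 * π * I := by field_simp
  have hK2 : K ^ 2 = G1 g ^ 2 / p ^ 2 := by rw [hK, div_pow]
  have hpi := pi_pos
  have hpi2 := pi_lt_d2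
  have h5 : K ^ 2 ≤ 7 * (I / p ^ 2) := by
    rw [hK2, ← mul_div_assoc]
    have : G1 g ^ 2 ≤ 7 * I := by nlinarith
    gcongr
  have h6 : I ≤ I / p ^ 2 := by
    rw [le_div_iff₀ (by positivity)]
    have : p ^ 2 ≤ 1 := by nlinarith
    nlinarith
  have e1 : 100000 / p ^ 2 * I = 100000 * (I / p ^ 2) := by ring
  rw [e1]
  set J := I / p ^ 2 with hJ
  have hJ0 : 0 ≤ J := by positivity
  have h7 : 2 * π * (170 * K ^ 2) ≤ 6.3 * (170 * (7 * J)) := by
    apply mul_le_mul (by linarith) (by linarith) (by positivity) (by norm_num)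
  have h8 : π * (2 * π * (170 * K ^ 2) + 32 * I) ≤ 3.15 * (6.3 * (170 * (7 * J)) + 32 * J) := by
    apply mul_le_mul (by linarith) (by linarith) (by positivity) (by norm_num)
  linarith

/-- (L1) positivity of the leading order quadratic form. -/
theorem pieceL1 (b : ℝ) (hb : 0 < b) (hb' : b ≤ 1 / 100) :
    ∃ p₀ > 0, ∀ p, 0 < p → p < p₀ → ∃ n₀ > 0, ∀ n, 0 < n → n < n₀ →
      ∀ t, 0 ≤ t → t ≤ 3 * b / 4 → ∀ κ, Lin b p n t κ →
      ∃ c C : ℝ, 0 < c ∧ 0 < C ∧ ∀ g : ℝ → ℝ, ContDiff ℝ 1 g → (∀ x, g (x + 2 * π) = g x) →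
        (∫ x in (0 : ℝ)..(2 * π), g x) = 0 →
        ∃ T : ℝ → ℝ → ℝ, CD 2 T ∧ Per T ∧ (∀ x y, T x (y + π / 2) = dy T x y) ∧
          (∀ x y, DD p (DD p T) x y + n ^ 2 * dy (dy T) x y - (ww' b x + ww b x ^ 2) * T x y
            = vv b x * deriv g x * (DD p (m1 b p t) x y + 2 * DD p κ x y)) ∧
          (∫ x in (0 : ℝ)..(2 * π), ∫ y in (0 : ℝ)..(2 * π),
              (T x y ^ 2 + dx T x y ^ 2 + dy T x y ^ 2)) ≤ C * ∫ x in (0 : ℝ)..(2 * π), g x ^ 2 ∧
          c * (∫ x in (0 : ℝ)..(2 * π), g x ^ 2) ≤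
            ∫ x in (0 : ℝ)..(2 * π), ∫ y in (0 : ℝ)..(2 * π),
              vv b x * deriv g x * m1 b p t x y * T x y := by
  refine ⟨b / 100000, by positivity, fun p hp hp' => ⟨p ^ 2, by positivity, fun n hn hn' t ht ht'
    κ hκ => ?_⟩⟩
  obtain ⟨a, c, G, sa, sc, hκe, hGe, hKG⟩ := lin_kg hκ
  have hp1 : p ≤ 1 / 1000 := by linarith
  have ht1 : t ≤ 1 := by linarith
  have hs : Small b p n t := ⟨hb, hb', ht, ht1, hp, hp1, hn.le, hn'.le⟩
  refine ⟨π * (b / 32), 100000 / p ^ 2, by positivity, by positivity, fun g hg hgp hg0 => ?_⟩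
  obtain ⟨hgd, hgc⟩ := contDiff_one_iff_deriv.1 hg
  have hgd' : ∀ x, HasDerivAt g (deriv g x) x := fun x => (hgd x).hasDerivAt
  have hg'p : ∀ x, deriv g (x + 2 * π) = deriv g x := per_derivR hgp hgd'
  have hcB : Continuous (Bf b p t G) := cont_Bf hKG.cG
  set S : ℝ → ℂ := fun x => ((deriv g x : ℝ) : ℂ) * Bf b p t G x with hS
  have hSc : Continuous S := by simp only [hS]; fun_prop
  have hSp : ∀ x, S (x + 2 * π) = S x := fun x => by
    simp only [hS, hg'p, per_Bf hKG]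
  obtain ⟨τ, Q, tper, Qper, hτ, hQ⟩ := exists_tau hb hb' hp hp1 hn.le hn'.le hSc hSp
  have D : Dat b p n t _ G g (deriv g) τ Q :=
    ⟨hKG, hs, hgd', hgc, hgp, hg0, tper, Qper, hτ, hQ⟩
  set F : ℝ → ℂ := fun x => vv b x * τ x with hF
  have hτ2 : ContDiff ℝ 2 τ := contDiff_tau hSc hτ hQ
  refine ⟨cr F, cr_CD ((contDiff_vvC b _).mul hτ2),
    cr_per (fun x => by simp only [hF, per_vv, tper]), fun x y => cr_harm F x y, ?_, ?_, ?_⟩
  · intro x y
    rw [T_eq hτ hQ, D_m1]
    have hκ2 : DD p κ = cr (fun x => G x / (rho b x : ℂ)) := by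
      have e : κ = cr (fun x => (a x : ℂ) - Complex.I * (c x : ℂ)) := by
        rw [hκe]; unfold cr; congr 1
        · funext x; simp
        · funext x; simp
      rw [e]
      exact DD_cr hKG.hk
    rw [hκ2]
    simp only [cr, tr]
    have e1 : (vv b x : ℂ) * S x / (rho b x : ℂ) =
        ((vv b x * deriv g x : ℝ) : ℂ) * ((p * dd p t x - 2 * ww b x * Ah p t x) / (rho b x : ℂ)
          + 2 * (G x / (rho b x : ℂ))) := by
      simp only [hS, Bf]
      push_cast; ring
    rw [e1]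
    simp only [Complex.re_ofReal_mul, Complex.im_ofReal_mul, Complex.add_re, Complex.add_im]
    have e2 : (2 * (G x / (rho b x : ℂ))).re = 2 * (G x / (rho b x : ℂ)).re := by simp
    have e3 : (2 * (G x / (rho b x : ℂ))).im = 2 * (G x / (rho b x : ℂ)).im := by simp
    rw [e2, e3]
    ring
  · exact H1_bound D
  · have hinner : ∀ x, ∫ y in (0 : ℝ)..(2 * π), vv b x * deriv g x * m1 b p t x y * cr F x y =
        π * (deriv g x * ((starRingEnd ℂ) (Ah p t x) * τ x).re) := fun x => by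
      have e1 : ∀ y, vv b x * deriv g x * m1 b p t x y * cr F x y =
          (vv b x * deriv g x) * (cr (fun x => Ah p t x / (rho b x : ℂ)) x y * cr F x y) :=
        fun y => by rw [m1_cr]; ring
      simp_rw [e1]
      rw [intervalIntegral.integral_const_mul, int_cr_mul]
      have e2 : (starRingEnd ℂ) (Ah p t x / (rho b x : ℂ)) * F x =
          ((vv b x * (rho b x)⁻¹ : ℝ) : ℂ) * ((starRingEnd ℂ) (Ah p t x) * τ x) := by
        simp only [hF, map_div₀, Complex.conj_ofReal]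
        push_cast
        ring
      rw [e2, Complex.re_ofReal_mul]
      have e3 : vv b x * (vv b x * (rho b x)⁻¹) = 1 := by
        rw [← mul_assoc, ← sq, vv_sq, mul_inv_cancel₀ (rho_pos b x).ne']
      linear_combination (deriv g x * (π * ((starRingEnd ℂ) (Ah p t x) * τ x).re)) * e3
    simp_rw [hinner]
    rw [intervalIntegral.integral_const_mul, mul_assoc]
    refine mul_le_mul_of_nonneg_left ?_ pi_pos.le
    have h1 := core D ht' hp'.le
    unfold mr at h1
    have hpi := pi_pos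
    have h2 : (b / 32 * ∫ x in (0 : ℝ)..(2 * π), g x ^ 2) =
        (2 * π) * (b / 32 * ((2 * π)⁻¹ * ∫ x in (0 : ℝ)..(2 * π), g x ^ 2)) := by field_simp
    rw [h2]
    have h3 := mul_le_mul_of_nonneg_left h1 (by positivity : 0 ≤ 2 * π)
    refine h3.trans (le_of_eq ?_)
    field_simp

end Run7.h998.EL
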